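import Mathlib

/-!
# Operators with a log-log-integrable resolvent: statements of the steps

Goal (MP_f981b0_an, hyperinvariant subspaces): let `T` be a bounded operator on a complex Banach space,
`U` an open set in which the spectrum of `T` is a null set and `(log⁺ log⁺ ‖(z - T)⁻¹‖) ^ q` is
integrable with respect to the area for some `q > 1`. Then `T` has operators `B ≠ 0` in its bicommutant
localized at every point of the spectrum in `U`, and hyperinvariant subspaces.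
-/

set_option autoImplicit false

open MeasureTheory Metric
open scoped Real

namespace Pool.Agent.H933.LL

/-- **P_mean** (sub-mean value property of `log⁺ |g|` over discs).
Proof: for every `s ∈ (0, r]` Jensen's formula (`MeromorphicOn.circleAverage_log_norm` or the like), or
the mean value property of the harmonic function `log |g|` off the zeros, gives
`log ‖g c‖ ≤ (2π)⁻¹ ∫ log ‖g (c + s e^{iθ})‖ dθ ≤ (2π)⁻¹ ∫ log⁺ ‖g (c + s e^{iθ})‖ dθ`; as the right side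
is `≥ 0`, also `log⁺ ‖g c‖ ≤` it. Multiply by `2 π s` and integrate over `s ∈ (0, r)` (polar
coordinates, `Complex.integral_comp_polarCoord_symm`). -/
def P_mean : Prop := ∀ (g : ℂ → ℂ) (U : Set ℂ) (c : ℂ) (r : ℝ), IsOpen U → 0 < r →
  closedBall c r ⊆ U → DifferentiableOn ℂ g U →
  π * r ^ 2 * Real.posLog ‖g c‖ ≤ ∫ z in ball c r, Real.posLog ‖g z‖

/-- **P_domar** (local boundedness, Domar's theorem in the plane, exponent `q > 1`).
Proof: put `u = log⁺ ‖g‖`, `B = closedBall z₀ ρ`. For natural `j` let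
`t j = sInf ({ρ} ∪ {‖z - z₀‖ : z ∈ B, exp j ≤ u z})`; by compactness the infimum is attained; `t` is
nondecreasing, `t j = ρ` for large `j` (as `u` is bounded on `B`), `u < exp j` on `ball z₀ (t j)`. Let `n ≥ 2`
be such that `u z₀ ≥ exp n` (so `t j = 0` for `j ≤ n`). For `j ≥ n` put `d j = t (j+1) - t j`. If `d j > 0`, then
`t j < ρ`, there is `z j` with `‖z j - z₀‖ = t j`, `u (z j) ≥ exp j`, and on `ball (z j) (d j) ⊆ ball z₀ (t (j+1))`
we have `u < exp (j+1)`. By `P_mean`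
`π d² exp j ≤ ∫_{ball (z j) (d j)} u ≤ π d² exp (j-1) + exp (j+1) |E j|`,
`E j = {z ∈ ball (z j) (d j) : u z ≥ exp (j-1)}`, so `|E j| ≥ π d² (1 - 1/e)/e ≥ (d j)² / 2`. The points of `E j` satisfy
`t (j-1) ≤ ‖z - z₀‖ < t (j+1)`, so every point is in at most two of the sets `E j`, and `log⁺ u ≥ j - 1` on `E j`:
`∑_{j ≥ n} (j-1)^q (d j)²/2 ≤ 2 I`. By Cauchy-Schwarz
`ρ = ∑_{j ≥ n} d j ≤ (∑ (j-1)^q (d j)²)^(1/2) (∑_{j ≥ n} (j-1)^(-q))^(1/2) ≤ (4 I)^(1/2) (∑_{j≥n} (j-1)^(-q))^(1/2)`,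
(finite sums, the `d j` vanish for large `j`) which is impossible if `n ≥ n₀(q, I, ρ)`, since `∑ (j-1)^(-q)` converges
(`q > 1`). So `u z₀ < exp n₀` and `‖g z₀‖ ≤ exp (exp n₀)`. -/
def P_domar : Prop := ∀ (q I ρ : ℝ), 1 < q → 0 ≤ I → 0 < ρ → ∃ C : ℝ, 0 < C ∧
  ∀ (g : ℂ → ℂ) (U : Set ℂ) (z₀ : ℂ), IsOpen U → closedBall z₀ ρ ⊆ U → DifferentiableOn ℂ g U →
    (∫ z in ball z₀ ρ, (Real.posLog (Real.posLog ‖g z‖)) ^ q) ≤ I → ‖g z₀‖ ≤ C

/-- **P_berg** (an annihilating density; weighted Bergman space).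
`M` is a weight on the disc `D = ball l r` with `M ≥ m0 > 0`, `M z ≥ 1/|z - l|` and
`∫_D (log⁺ log⁺ M)^q < ∞`, `q > 1`. There is a density `h` with `∫_D |h| M < ∞` which annihilates the
bounded holomorphic functions on `D` but not `1/(z - l)`.

Proof: let `μ` be the finite measure `M⁻² · area` on `D`, `L² = Lp ℂ 2 μ`, `𝒜 ⊆ L²` the subspace of the
classes of the holomorphic functions on `D` which are in `L²(μ)`.
(1) For every `z₀ ∈ D` and `ρ > 0` with `closedBall z₀ ρ ⊆ D` there is `C`, the same for all `z₀` with this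
`ρ`, with `‖g z₀‖ ≤ C ‖g‖_{L²(μ)}` for all `g ∈ 𝒜`: by homogeneity let the norm be 1; from
`|g| = M · (|g|/M)`, `log⁺ (x y) ≤ log⁺ x + log⁺ y`, `log⁺ (x + y) ≤ log 2 + log⁺ x + log⁺ y`,
`(a+b+c)^q ≤ 3^q (a^q+b^q+c^q)`, `(log⁺ log⁺ y)^q ≤ C_q (1 + y²)` one gets
`∫_D (log⁺ log⁺ |g|)^q ≤ I` with `I` independent of `g`; apply `P_domar`.
(2) `k z = 1/(z - l)` is in `L²(μ)` since `|k| ≤ M`. It is not in the closure of `𝒜`: if `g n ∈ 𝒜`, `g n → k` in
`L²(μ)`, then by (1) `g n` is uniformly Cauchy on compact subsets of `D`, so it converges locally uniformly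
to a holomorphic `g` on `D` (`TendstoLocallyUniformlyOn.differentiableOn`), and a subsequence converges to
`k` almost everywhere, so `g = k` a.e. on `D`, hence on `D \ {l}` by continuity, impossible near `l`.
(3) `𝒜ᗮᗮ` is the closure of `𝒜` (`Submodule.orthogonal_orthogonal_eq_closure`), so there is `h₀ ∈ 𝒜ᗮ` with
`⟪h₀, k⟫ ≠ 0`. Put `h = conj h₀ · M⁻²`. Then `∫_D h g = ⟪h₀, g⟫_μ`, in particular `0` for bounded holomorphic
`g` (they are in `L²(μ)` as `M ≥ m0`), `∫_D h k ≠ 0`, and `∫_D |h| M = ∫_D (|h₀|/M) ≤ ‖h₀‖ |D|^{1/2} < ∞`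
by Cauchy-Schwarz. -/
def P_berg : Prop := ∀ (M : ℂ → ℝ) (l : ℂ) (r q m0 : ℝ), 0 < r → 1 < q → 0 < m0 →
  AEMeasurable M (volume.restrict (ball l r)) →
  (∀ᵐ z ∂(volume.restrict (ball l r)), m0 ≤ M z ∧ 1 ≤ M z * ‖z - l‖) →
  IntegrableOn (fun z => (Real.posLog (Real.posLog (M z))) ^ q) (ball l r) →
  ∃ h : ℂ → ℂ, AEStronglyMeasurable h (volume.restrict (ball l r)) ∧
    IntegrableOn h (ball l r) ∧ IntegrableOn (fun z => ‖h z‖ * M z) (ball l r) ∧
    (∀ g : ℂ → ℂ, DifferentiableOn ℂ g (ball l r) → (∃ C : ℝ, ∀ z ∈ ball l r, ‖g z‖ ≤ C) →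
      ∫ z in ball l r, h z * g z = 0) ∧
    ∫ z in ball l r, h z * (z - l)⁻¹ ≠ 0

section Ops

variable {X : Type} [NormedAddCommGroup X] [NormedSpace ℂ X] [CompleteSpace X]

/-- `h` is an admissible density for `T` on the disc `ball l r` -/
structure Adm (T : X →L[ℂ] X) (l : ℂ) (r : ℝ) (h : ℂ → ℂ) : Prop where
  meas : AEStronglyMeasurable h (volume.restrict (ball l r))
  hint : IntegrableOn h (ball l r)
  int : IntegrableOn (fun z => ‖h z‖ * ‖resolvent T z‖) (ball l r)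
  orth : ∀ g : ℂ → ℂ, DifferentiableOn ℂ g (ball l r) → (∃ C : ℝ, ∀ z ∈ ball l r, ‖g z‖ ≤ C) →
    ∫ z in ball l r, h z * g z = 0
  ne : ∫ z in ball l r, h z * (z - l)⁻¹ ≠ 0

/-- the operator `∫ h(z) (z - T)⁻¹ dA(z)` over the disc -/
noncomputable def Op (T : X →L[ℂ] X) (l : ℂ) (r : ℝ) (h : ℂ → ℂ) : X →L[ℂ] X :=
  ∫ z in ball l r, h z • resolvent T z

end Ops

/-- **P_comm**: `Op` commutes with the commutant of `T` (pull `Q` through the Bochner integral; `Q`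
commutes with `resolvent T z`; the integrand is integrable by `Adm.int`, it is a.e. strongly measurable
since the resolvent is continuous on the resolvent set, the complement of a null set). -/
def P_comm : Prop := ∀ (X : Type) [NormedAddCommGroup X] [NormedSpace ℂ X] [CompleteSpace X]
  (T : X →L[ℂ] X) (l : ℂ) (r : ℝ) (h : ℂ → ℂ), volume (spectrum ℂ T ∩ ball l r) = 0 →
  Adm T l r h → ∀ Q : X →L[ℂ] X, Q * T = T * Q → Q * Op T l r h = Op T l r h * Q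

/-- **P_loc**: `‖(T - l)^n Op‖ ≤ C r^n`. Proof: `(T - l) (z - T)⁻¹ = (z - l) (z - T)⁻¹ - 1` off the
spectrum, and `∫ h (z - l)^n = 0` by `Adm.orth`, so by induction
`(T - l)^n Op = ∫ (z - l)^n h(z) (z - T)⁻¹ dA`, with norm `≤ r^n ∫ |h| ‖(z - T)⁻¹‖`. -/
def P_loc : Prop := ∀ (X : Type) [NormedAddCommGroup X] [NormedSpace ℂ X] [CompleteSpace X]
  (T : X →L[ℂ] X) (l : ℂ) (r : ℝ) (h : ℂ → ℂ), volume (spectrum ℂ T ∩ ball l r) = 0 →
  Adm T l r h → ∃ C : ℝ, ∀ n : ℕ, ‖(T - l • (1 : X →L[ℂ] X)) ^ n * Op T l r h‖ ≤ C * r ^ n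

/-- **P_prod**: the operators of two discs at a positive distance have product zero.
Proof: `R(z) R(w) = (R(w) - R(z))/(z - w)` for `R(z) = (z - T)⁻¹ = resolvent T z`. For `z ∈ D₁` off the
spectrum, `R(z) Op₂ = ∫_{D₂} h₂(w) R(w)/(z - w) dA(w) - R(z) ∫_{D₂} h₂(w)/(z - w) dA(w)`, and the last integral
vanishes by `Adm.orth` (bounded holomorphic in `w ∈ D₂`). So
`Op₁ Op₂ = ∫_{D₁} h₁(z) ∫_{D₂} h₂(w) R(w)/(z - w)`; exchange the integrals (the integrand is bounded in norm by a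
constant times `|h₁(z)| · |h₂(w)| ‖R(w)‖`): `= ∫_{D₂} h₂(w) (∫_{D₁} h₁(z)/(z - w)) R(w) = 0`, as the inner integral
vanishes by `Adm.orth`. -/
def P_prod : Prop := ∀ (X : Type) [NormedAddCommGroup X] [NormedSpace ℂ X] [CompleteSpace X]
  (T : X →L[ℂ] X) (l₁ l₂ : ℂ) (r₁ r₂ : ℝ) (h₁ h₂ : ℂ → ℂ), 0 < r₁ → 0 < r₂ → r₁ + r₂ < ‖l₁ - l₂‖ →
  volume (spectrum ℂ T ∩ ball l₁ r₁) = 0 → volume (spectrum ℂ T ∩ ball l₂ r₂) = 0 →
  Adm T l₁ r₁ h₁ → Adm T l₂ r₂ h₂ → Op T l₁ r₁ h₁ * Op T l₂ r₂ h₂ = 0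

/-- **P_sq**: the square of `Op` is not zero if the centre is in the spectrum.
Proof: as `spectrum ∩ ball l r` is null, there are `z_n ∉ spectrum` with `z_n → l`; `‖R(z_n)‖ ≥ 1/|z_n - l|`
(otherwise `l - T = (z_n - T)(1 - (z_n - l) R(z_n))` would be invertible), so there are unit vectors `x_n` (multiples
of `R(z_n) y_n`) with `(T - l) x_n → 0`. For `z` off the spectrum, `z ≠ l`,
`R(z) x_n - (z - l)⁻¹ x_n = (z - l)⁻¹ R(z) (T - l) x_n → 0`, with norm at most `‖R(z)‖ + |z - l|⁻¹ ≤ 2 ‖R(z)‖`.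
By dominated convergence `Op x_n - c x_n → 0` with `c = ∫ h(z)/(z - l) ≠ 0`. Hence also
`Op² x_n - c² x_n → 0`, and `Op² ≠ 0`. -/
def P_sq : Prop := ∀ (X : Type) [NormedAddCommGroup X] [NormedSpace ℂ X] [CompleteSpace X]
  (T : X →L[ℂ] X) (l : ℂ) (r : ℝ) (h : ℂ → ℂ), 0 < r → l ∈ spectrum ℂ T →
  volume (spectrum ℂ T ∩ ball l r) = 0 → Adm T l r h → Op T l r h * Op T l r h ≠ 0

end Pool.Agent.H933.LL
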