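import Pool.Agent.H933.LL.Fin

/-!
# Hölder symbols
-/

set_option autoImplicit false
set_option linter.unusedSectionVars false
set_option linter.deprecated false
set_option linter.unusedVariables false

open scoped BigOperators NNReal InnerProductSpace
open MeasureTheory AddCircle Metric Pool.Agent.Results.MP_f981b0_an.LogIntegrableNests
open Pool.Agent.H933.TI

namespace Pool.Agent.H933.LL

/-- the closed set `E` is null and `(log⁺ (1 / dist(z, E))) ^ q` is integrable on discs -/
def LogThin (E : Set ℂ) (q : ℝ) : Prop :=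
  volume E = 0 ∧
    ∀ r : ℝ, IntegrableOn (fun z : ℂ => (Real.posLog (infDist z E)⁻¹) ^ q) (ball (0 : ℂ) r)

lemma logThin_of_thin {E : Set ℂ} (h : Thin E) (q : ℝ) (hq : 0 < q) : LogThin E q := by
  refine ⟨?_, fun r => Pool.Agent.H665.LL.p_thin E h q r hq⟩
  obtain ⟨C, ε, hε, h1⟩ := h
  have h2 : ∀ δ : ℝ, 0 < δ → δ ≤ 1 → volume E ≤ ENNReal.ofReal (C * δ ^ ε) := by
    intro δ hδ hδ1
    refine (measure_mono ?_).trans (h1 δ hδ hδ1)
    intro z hz
    rw [Set.mem_setOf_eq, infDist_zero_of_mem hz]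
    exact hδ.le
  have h3 : Filter.Tendsto (fun n : ℕ => ENNReal.ofReal (C * (1 / ((n : ℝ) + 1)) ^ ε))
      Filter.atTop (nhds (ENNReal.ofReal (C * 0))) := by
    refine (ENNReal.continuous_ofReal.tendsto _).comp ?_
    refine Filter.Tendsto.const_mul C ?_
    have h4 := (tendsto_one_div_add_atTop_nhds_zero_nat (𝕜 := ℝ)).rpow_const
      (Or.inr hε.le : (0 : ℝ) ≠ 0 ∨ 0 ≤ ε)
    rwa [Real.zero_rpow hε.ne'] at h4
  rw [mul_zero, ENNReal.ofReal_zero] at h3
  refine le_antisymm (ge_of_tendsto' h3 fun n => h2 _ (by positivity) ?_) bot_le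
  rw [div_le_one (by positivity)]
  have : (0 : ℝ) ≤ n := n.cast_nonneg
  linarith

lemma dist_coe_le (s t : ℝ) : dist (s : UnitAddCircle) (t : UnitAddCircle) ≤ |s - t| := by
  rw [dist_eq_norm, ← QuotientAddGroup.mk_sub]
  rw [AddCircle.norm_eq]
  simp only [inv_one, one_mul, mul_one]
  exact round_le (s - t) 0 |>.trans (by simp)

lemma posLog_rpow {x β : ℝ} (hx : 0 < x) (hβ : 0 ≤ β) :
    Real.posLog (x ^ β) = β * Real.posLog x := by
  rw [Real.posLog, Real.posLog, Real.log_rpow hx, mul_max_of_nonneg _ _ hβ, mul_zero]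

theorem hoelder_modulus (a : C(UnitAddCircle, ℂ)) (L α : ℝ≥0) (hα : 0 < α)
    (ha : HolderWith L α a) (q : ℝ) (hq : 1 < q) (hE : LogThin (Set.range a) q) :
    ∀ η : ℝ, 0 < η → ∃ δ : ℂ → ℝ, Modulus a η δ ∧
      ∀ r : ℝ, IntegrableOn (fun z : ℂ => (Real.posLog (δ z)⁻¹) ^ q) (Metric.ball (0 : ℂ) r) := by
  intro η hη
  have hα' : (0 : ℝ) < α := by exact_mod_cast hα
  have hL : (0 : ℝ) ≤ L := L.coe_nonneg
  set E := Set.range a with hEdef
  have hEne : E.Nonempty := ⟨a 0, 0, rfl⟩
  have hEc : IsClosed E := (isCompact_range a.continuous).isClosed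
  set d : ℂ → ℝ := fun z => infDist z E with hd
  set b : ℝ := (L + 1) / η with hb
  have hb0 : 0 < b := by positivity
  set δ : ℂ → ℝ := fun z => min 1 (min (d z) ((d z / b) ^ ((α : ℝ)⁻¹))) with hδ
  have hd0 : ∀ z, 0 ≤ d z := fun z => infDist_nonneg
  refine ⟨δ, ?_, ?_⟩
  · have h1 : ∀ᵐ z : ℂ, z ∉ E := by
      rw [ae_iff]; simpa using hE.1
    filter_upwards [h1] with z hz
    have hdz : 0 < d z := (hEc.notMem_iff_infDist_pos hEne).1 hz
    have hlow : ∀ t, d z ≤ ‖a t - z‖ := by
      intro t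
      rw [← dist_eq_norm, dist_comm]
      exact infDist_le_dist_of_mem ⟨t, rfl⟩
    refine ⟨lt_min one_pos (lt_min hdz (by positivity)), min_le_left _ _,
      fun t => ((min_le_right _ _).trans (min_le_left _ _)).trans (hlow t), fun s t hst => ?_⟩
    have h2 : |s - t| ≤ (d z / b) ^ ((α : ℝ)⁻¹) :=
      hst.trans ((min_le_right _ _).trans (min_le_right _ _))
    have h3 : dist (a (s : UnitAddCircle)) (a (t : UnitAddCircle))
        ≤ L * dist (s : UnitAddCircle) (t : UnitAddCircle) ^ (α : ℝ) := ha.dist_le _ _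
    rw [← dist_eq_norm]
    refine h3.trans ?_
    have h4 : dist (s : UnitAddCircle) (t : UnitAddCircle) ^ (α : ℝ) ≤ d z / b := by
      calc dist (s : UnitAddCircle) (t : UnitAddCircle) ^ (α : ℝ)
          ≤ ((d z / b) ^ ((α : ℝ)⁻¹)) ^ (α : ℝ) :=
            Real.rpow_le_rpow dist_nonneg ((dist_coe_le s t).trans h2) hα'.le
        _ = d z / b := by
            rw [← Real.rpow_mul (by positivity), inv_mul_cancel₀ hα'.ne', Real.rpow_one]
    calc (L : ℝ) * dist (s : UnitAddCircle) (t : UnitAddCircle) ^ (α : ℝ)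
        ≤ (L + 1) * (d z / b) := by
          refine mul_le_mul (by linarith) h4 (by positivity) (by positivity)
      _ = η * d z := by rw [hb]; field_simp
      _ ≤ η * ‖a (s : UnitAddCircle) - z‖ := mul_le_mul_of_nonneg_left (hlow _) hη.le
  · intro r
    have hmeas : Measurable d := (continuous_infDist_pt E).measurable
    have hmδ : Measurable δ :=
      measurable_const.min (hmeas.min ((hmeas.div_const b).pow_const _))
    have hpm : Measurable Real.posLog := Real.continuous_posLog.measurable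
    -- the bound
    set c0 : ℝ := (α : ℝ)⁻¹ * Real.posLog b with hc0
    have hc00 : 0 ≤ c0 := mul_nonneg (by positivity) Real.posLog_nonneg
    set c1 : ℝ := 1 + (α : ℝ)⁻¹ with hc1
    have hc10 : 0 ≤ c1 := by positivity
    have hbd : ∀ z, Real.posLog (δ z)⁻¹ ≤ c0 + c1 * Real.posLog (d z)⁻¹ := by
      intro z
      have hp : 0 ≤ Real.posLog (d z)⁻¹ := Real.posLog_nonneg
      rcases eq_or_lt_of_le (hd0 z) with h0 | h0
      · have : δ z = 0 := by
          simp only [hδ, ← h0, zero_div]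
          rw [Real.zero_rpow (by positivity)]
          simp
        rw [this, inv_zero, Real.posLog_zero]
        positivity
      · have hxp : 0 < (d z / b) ^ ((α : ℝ)⁻¹) := by positivity
        have hδp : 0 < δ z := lt_min one_pos (lt_min h0 hxp)
        have h5 : Real.posLog ((d z / b) ^ ((α : ℝ)⁻¹))⁻¹
            ≤ (α : ℝ)⁻¹ * (Real.posLog b + Real.posLog (d z)⁻¹) := by
          rw [← Real.inv_rpow (by positivity), posLog_rpow (by positivity) (by positivity)]
          refine mul_le_mul_of_nonneg_left ?_ (by positivity)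
          rw [inv_div, div_eq_mul_inv]
          exact Real.posLog_mul
        have hα3 : (0 : ℝ) ≤ (α : ℝ)⁻¹ := by positivity
        have hpb : 0 ≤ Real.posLog b := Real.posLog_nonneg
        have h6 : (α : ℝ)⁻¹ * (Real.posLog b + Real.posLog (d z)⁻¹)
            = c0 + (α : ℝ)⁻¹ * Real.posLog (d z)⁻¹ := by rw [hc0]; ring
        rcases le_total 1 (min (d z) ((d z / b) ^ ((α : ℝ)⁻¹))) with h7 | h7
        · have : δ z = 1 := min_eq_left h7
          rw [this, inv_one, Real.posLog_one]
          positivity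
        · have h8 : δ z = min (d z) ((d z / b) ^ ((α : ℝ)⁻¹)) := min_eq_right h7
          rw [h8]
          rcases le_total (d z) ((d z / b) ^ ((α : ℝ)⁻¹)) with h9 | h9
          · rw [min_eq_left h9, hc1]
            have : 0 ≤ (α : ℝ)⁻¹ * Real.posLog (d z)⁻¹ := by positivity
            linarith
          · rw [min_eq_right h9, hc1]
            rw [h6] at h5
            linarith
    have hmaj : Integrable (fun z : ℂ => (2 : ℝ) ^ (q - 1) * (c0 ^ q
        + c1 ^ q * (Real.posLog (d z)⁻¹) ^ q)) (volume.restrict (ball (0 : ℂ) r)) := by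
      refine Integrable.const_mul ?_ _
      refine Integrable.add ?_ ((hE.2 r).const_mul _)
      have : IsFiniteMeasure (volume.restrict (ball (0 : ℂ) r)) :=
        ⟨by rw [Measure.restrict_apply_univ]; exact measure_ball_lt_top⟩
      exact integrable_const _
    refine hmaj.mono' ((hpm.comp hmδ.inv).pow_const q).aestronglyMeasurable ?_
    refine Filter.Eventually.of_forall fun z => ?_
    rw [Real.norm_of_nonneg (Real.rpow_nonneg Real.posLog_nonneg _)]
    have hp : 0 ≤ Real.posLog (d z)⁻¹ := Real.posLog_nonneg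
    refine (Real.rpow_le_rpow Real.posLog_nonneg (hbd z) (by linarith)).trans ?_
    refine (add_rpow_le hc00 (by positivity) hq.le).trans (le_of_eq ?_)
    rw [Real.mul_rpow hc10 hp]

/-- Toeplitz operators with Hölder symbols on Hilbert spaces -/
theorem hilbert_chain {H : Type} [NormedAddCommGroup H] [InnerProductSpace ℂ H] [CompleteSpace H]
    (e : HilbertBasis ℕ ℂ H) (φ : UnitAddCircle → ℂ) (L α : ℝ≥0) (hα : 0 < α)
    (hφ : HolderWith L α φ) (hne : ∃ s t : UnitAddCircle, φ s ≠ φ t) (q : ℝ) (hq : 1 < q)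
    (hE : LogThin (Set.range φ) q) (T : H →L[ℂ] H)
    (hT : ∀ i j : ℕ, ⟪e i, T (e j)⟫_ℂ = fourierCoeff φ ((i : ℤ) - (j : ℤ))) :
    InfiniteChain T := by
  obtain ⟨S, R, Θ, h1, h2, h3, h4, h5⟩ := Pool.Agent.H571.LL.p_hilb H e
  have hC : Calc S R Θ := ⟨h1, h2, h3, h4⟩
  set a : C(UnitAddCircle, ℂ) := ⟨φ, hφ.continuous hα⟩ with ha
  have hTa : T = Θ a := by
    have hent : ∀ i j : ℕ, ⟪e i, T (e j)⟫_ℂ = ⟪e i, Θ a (e j)⟫_ℂ := by
      intro i j; rw [hT, h5]; rfl
    refine ContinuousLinearMap.ext_on (s := Set.range e) ?_ ?_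
    · rw [Submodule.dense_iff_topologicalClosure_eq_top]
      exact e.dense_span
    · rintro _ ⟨j, rfl⟩
      apply e.repr.injective
      ext i
      rw [e.repr_apply_apply, e.repr_apply_apply]
      exact hent i j
  rw [hTa]
  exact hC.chain a hne q hq (hoelder_modulus a L α hα hφ q hq hE)

end Pool.Agent.H933.LL
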