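import Pool.Agent.H253.LL.Mean
import Pool.Agent.H337.LL.Domar
import Pool.Agent.H685.LL.Berg
import Pool.Agent.H571.LL.Comm
import Pool.Agent.H122.LL.Prod
import Pool.Agent.H665.LL.Sq

/-!
# Operators with a log-log-integrable resolvent: the general theorem
-/

set_option autoImplicit false
set_option linter.unusedSectionVars false
set_option linter.unusedVariables false

open MeasureTheory Metric Filter Topology
open scoped Real

namespace Pool.Agent.H933.LL

section Gen

variable {X : Type} [NormedAddCommGroup X] [NormedSpace ℂ X] [CompleteSpace X]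

/-- `B` belongs to the bicommutant -/
def Bicomm (T B : X →L[ℂ] X) : Prop := ∀ Q : X →L[ℂ] X, Q * T = T * Q → Q * B = B * Q

/-- lower bound of the resolvent -/
lemma one_le_resolvent {T : X →L[ℂ] X} {l z : ℂ} (hl : l ∈ spectrum ℂ T) (hz : z ∉ spectrum ℂ T) :
    1 ≤ ‖resolvent T z‖ * ‖z - l‖ := by
  by_contra hcon
  push Not at hcon
  apply hl
  have hz' : IsUnit (algebraMap ℂ (X →L[ℂ] X) z - T) := by
    rwa [spectrum.notMem_iff] at hz
  obtain ⟨u, hu⟩ := hz'
  have hr : resolvent T z = ((u⁻¹ : (X →L[ℂ] X)ˣ) : X →L[ℂ] X) := by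
    rw [resolvent, ← hu, Ring.inverse_unit]
  have hq : ‖(z - l) • resolvent T z‖ < 1 := by
    rw [norm_smul, mul_comm]; exact hcon
  have h1 : IsUnit (1 - (z - l) • resolvent T z) := (Units.oneSub _ hq).isUnit
  have h2 : algebraMap ℂ (X →L[ℂ] X) l - T = (u : X →L[ℂ] X) * (1 - (z - l) • resolvent T z) := by
    rw [mul_sub, mul_one, mul_smul_comm, hr, u.mul_inv, hu, Algebra.algebraMap_eq_smul_one,
      Algebra.algebraMap_eq_smul_one, sub_smul]
    abel
  change IsUnit (algebraMap ℂ (X →L[ℂ] X) l - T)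
  rw [h2]
  exact u.isUnit.mul h1

/-- every disc about a point of the spectrum has an admissible density -/
theorem exists_adm (T : X →L[ℂ] X) (l : ℂ) (r q : ℝ) (hr : 0 < r) (hq : 1 < q)
    (hl : l ∈ spectrum ℂ T) (hσ : volume (spectrum ℂ T ∩ ball l r) = 0)
    (hI : IntegrableOn (fun z => (Real.posLog (Real.posLog ‖resolvent T z‖)) ^ q) (ball l r)) :
    ∃ h : ℂ → ℂ, Adm T l r h := by
  have hae : ∀ᵐ z ∂(volume.restrict (ball l r)), z ∉ spectrum ℂ T := by
    have h1 : volume.restrict (ball l r) (spectrum ℂ T) = 0 := by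
      rw [Measure.restrict_apply (spectrum.isClosed T).measurableSet]; exact hσ
    rw [ae_iff]
    simpa using h1
  have hmem : ∀ᵐ z ∂(volume.restrict (ball l r)), z ∈ ball l r :=
    ae_restrict_mem isOpen_ball.measurableSet
  obtain ⟨h, h1, h2, h3, h4, h5⟩ := Pool.Agent.H685.LL.p_berg
    (Pool.Agent.H337.LL.p_domar Pool.Agent.H253.LL.p_mean) (fun z => ‖resolvent T z‖) l r q r⁻¹
    hr hq (inv_pos.2 hr)
    (Pool.Agent.H571.LL.aesm_resolvent T _).norm.aemeasurable
    (by
      filter_upwards [hae, hmem] with z hz1 hz2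
      have h := one_le_resolvent hl hz1
      refine ⟨?_, h⟩
      rw [mem_ball, dist_eq_norm] at hz2
      have h0 := norm_nonneg (resolvent T z)
      rw [inv_le_iff_one_le_mul₀ hr]
      nlinarith) hI
  exact ⟨h, ⟨h1, h2, h3, h4, h5⟩⟩

/-- localized elements of the bicommutant -/
theorem localized (T : X →L[ℂ] X) (U : Set ℂ) (hU : IsOpen U) (q : ℝ) (hq : 1 < q)
    (hσ : volume (spectrum ℂ T ∩ U) = 0)
    (hI : IntegrableOn (fun z => (Real.posLog (Real.posLog ‖resolvent T z‖)) ^ q) U)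
    (l : ℂ) (hl : l ∈ spectrum ℂ T) (hlU : l ∈ U) (ε : ℝ) (hε : 0 < ε) :
    ∃ B : X →L[ℂ] X, Bicomm T B ∧ B * B ≠ 0 ∧
      ∃ C : ℝ, ∀ n : ℕ, ‖(T - l • (1 : X →L[ℂ] X)) ^ n * B‖ ≤ C * ε ^ n := by
  obtain ⟨r, hr, hrU⟩ := Metric.isOpen_iff.1 hU l hlU
  set s := min r ε with hs
  have hs0 : 0 < s := lt_min hr hε
  have hsub : ball l s ⊆ U := (ball_subset_ball (min_le_left _ _)).trans hrU
  have hσ' : volume (spectrum ℂ T ∩ ball l s) = 0 :=
    measure_mono_null (Set.inter_subset_inter_right _ hsub) hσ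
  obtain ⟨h, hh⟩ := exists_adm T l s q hs0 hq hl hσ' (hI.mono_set hsub)
  obtain ⟨C, hC⟩ := Pool.Agent.H571.LL.p_loc X T l s h hσ' hh
  refine ⟨Op T l s h, fun Q hQ => Pool.Agent.H571.LL.p_comm X T l s h hσ' hh Q hQ,
    Pool.Agent.H665.LL.p_sq X T l s h hs0 hl hσ' hh, C, fun n => (hC n).trans ?_⟩
  have hC0 : 0 ≤ C := by
    have := hC 0
    simp only [pow_zero, mul_one] at this
    exact (norm_nonneg _).trans this
  gcongr
  exact min_le_right _ _

/-- two points -/
theorem two_points (T : X →L[ℂ] X) (U : Set ℂ) (hU : IsOpen U) (q : ℝ) (hq : 1 < q)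
    (hσ : volume (spectrum ℂ T ∩ U) = 0)
    (hI : IntegrableOn (fun z => (Real.posLog (Real.posLog ‖resolvent T z‖)) ^ q) U)
    {ι : Type} (l : ι → ℂ) (r : ι → ℝ) (hr : ∀ i, 0 < r i) (hl : ∀ i, l i ∈ spectrum ℂ T)
    (hb : ∀ i, ball (l i) (r i) ⊆ U) (hd : ∀ i j, i ≠ j → r i + r j < ‖l i - l j‖) :
    ∃ B : ι → (X →L[ℂ] X), (∀ i, Bicomm T (B i)) ∧ (∀ i, B i * B i ≠ 0) ∧
      ∀ i j, i ≠ j → B i * B j = 0 := by
  have hσ' : ∀ i, volume (spectrum ℂ T ∩ ball (l i) (r i)) = 0 := fun i =>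
    measure_mono_null (Set.inter_subset_inter_right _ (hb i)) hσ
  choose h hh using fun i => exists_adm T (l i) (r i) q (hr i) hq (hl i) (hσ' i)
    (hI.mono_set (hb i))
  refine ⟨fun i => Op T (l i) (r i) (h i), fun i Q hQ =>
    Pool.Agent.H571.LL.p_comm X T _ _ _ (hσ' i) (hh i) Q hQ, fun i =>
    Pool.Agent.H665.LL.p_sq X T _ _ _ (hr i) (hl i) (hσ' i) (hh i), fun i j hij =>
    Pool.Agent.H122.LL.p_prod X T _ _ _ _ _ _ (hr i) (hr j) (hd i j hij) (hσ' i) (hσ' j)
      (hh i) (hh j)⟩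

/-- closed hyperinvariant subspace -/
def Hyper (T : X →L[ℂ] X) (V : Submodule ℂ X) : Prop :=
  IsClosed (V : Set X) ∧ ∀ Q : X →L[ℂ] X, Q * T = T * Q → ∀ x ∈ V, Q x ∈ V

lemma hyper_ker {T B : X →L[ℂ] X} (hB : Bicomm T B) :
    Hyper T (LinearMap.ker (B : X →ₗ[ℂ] X)) := by
  refine ⟨isClosed_eq B.continuous continuous_const, fun Q hQ x hx => ?_⟩
  simp only [LinearMap.mem_ker, ContinuousLinearMap.coe_coe] at hx ⊢
  have := congrArg (fun A : X →L[ℂ] X => A x) (hB Q hQ)
  simp only [mul_apply_eq_comp] at this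
  rw [← this, hx, map_zero]

theorem nontrivial_hyper (T : X →L[ℂ] X) (U : Set ℂ) (hU : IsOpen U) (q : ℝ) (hq : 1 < q)
    (hσ : volume (spectrum ℂ T ∩ U) = 0)
    (hI : IntegrableOn (fun z => (Real.posLog (Real.posLog ‖resolvent T z‖)) ^ q) U)
    (hn : (spectrum ℂ T ∩ U).Nontrivial) : ∃ V : Submodule ℂ X, Hyper T V ∧ V ≠ ⊥ ∧ V ≠ ⊤ := by
  obtain ⟨a, ⟨ha, haU⟩, b, ⟨hb, hbU⟩, hab⟩ := hn
  obtain ⟨r1, hr1, h1⟩ := Metric.isOpen_iff.1 hU a haU
  obtain ⟨r2, hr2, h2⟩ := Metric.isOpen_iff.1 hU b hbU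
  have hd : 0 < ‖a - b‖ := norm_pos_iff.2 (sub_ne_zero.2 hab)
  set r := min (min r1 r2) (‖a - b‖ / 3) with hr
  have hr0 : 0 < r := lt_min (lt_min hr1 hr2) (by positivity)
  have hr3 : r ≤ ‖a - b‖ / 3 := min_le_right _ _
  obtain ⟨B, hB1, hB2, hB3⟩ := two_points T U hU q hq hσ hI (ι := Bool)
    (fun i => if i then a else b) (fun _ => r) (fun _ => hr0)
    (fun i => by cases i <;> simp [ha, hb])
    (fun i => by
      cases i
      · exact (ball_subset_ball ((min_le_left _ _).trans (min_le_right _ _))).trans h2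
      · exact (ball_subset_ball ((min_le_left _ _).trans (min_le_left _ _))).trans h1)
    (fun i j hij => by
      cases i <;> cases j
      · exact absurd rfl hij
      · simp only [Bool.false_eq_true, if_false, if_true]
        rw [norm_sub_rev]; linarith
      · simp only [Bool.false_eq_true, if_false, if_true]
        linarith
      · exact absurd rfl hij)
  refine ⟨LinearMap.ker (B true : X →ₗ[ℂ] X), hyper_ker (hB1 true), ?_, ?_⟩
  · intro hbot
    have hne : B false ≠ 0 := fun h0 => hB2 false (by rw [h0, mul_zero])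
    apply hne
    ext x
    have : B false x ∈ LinearMap.ker (B true : X →ₗ[ℂ] X) := by
      simp only [LinearMap.mem_ker, ContinuousLinearMap.coe_coe]
      rw [← mul_apply_eq_comp, hB3 true false (by decide)]
      rfl
    rw [hbot, Submodule.mem_bot] at this
    simpa using this
  · intro htop
    have hne : B true ≠ 0 := fun h0 => hB2 true (by rw [h0, mul_zero])
    apply hne
    ext x
    have : x ∈ LinearMap.ker (B true : X →ₗ[ℂ] X) := by rw [htop]; trivial
    simpa using this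

/-- an infinite chain -/
theorem infinite_chain (T : X →L[ℂ] X) (U : Set ℂ) (hU : IsOpen U) (q : ℝ) (hq : 1 < q)
    (hσ : volume (spectrum ℂ T ∩ U) = 0)
    (hI : IntegrableOn (fun z => (Real.posLog (Real.posLog ‖resolvent T z‖)) ^ q) U)
    (p : ℂ) (hpU : p ∈ U)
    (hp : ∀ ε : ℝ, 0 < ε → ∃ μ ∈ spectrum ℂ T, μ ≠ p ∧ ‖μ - p‖ < ε) :
    ∃ V : ℕ → Submodule ℂ X, (∀ n, Hyper T (V n)) ∧ StrictAnti V := by
  obtain ⟨ρ, hρ, hρU⟩ := Metric.isOpen_iff.1 hU p hpU
  -- a sequence of points of the spectrum with geometrically decreasing distances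
  choose! f hf1 hf2 hf3 using hp
  let l : ℕ → ℂ := fun n => Nat.rec (f (ρ / 2)) (fun _ z => f (‖z - p‖ / 4)) n
  have hl0 : l 0 = f (ρ / 2) := rfl
  have hls : ∀ n, l (n + 1) = f (‖l n - p‖ / 4) := fun n => rfl
  have hpos : ∀ n, 0 < ‖l n - p‖ := by
    intro n
    induction n with
    | zero => rw [hl0]; exact norm_pos_iff.2 (sub_ne_zero.2 (hf2 _ (by positivity)))
    | succ n ih => rw [hls]; exact norm_pos_iff.2 (sub_ne_zero.2 (hf2 _ (by positivity)))
  have hlσ : ∀ n, l n ∈ spectrum ℂ T := by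
    intro n
    cases n with
    | zero => rw [hl0]; exact hf1 _ (by positivity)
    | succ n => rw [hls]; exact hf1 _ (by have := hpos n; positivity)
  have hdec : ∀ n, ‖l (n + 1) - p‖ < ‖l n - p‖ / 4 := by
    intro n
    rw [hls]; exact hf3 _ (by have := hpos n; positivity)
  have hdec' : ∀ m n, m < n → ‖l n - p‖ < ‖l m - p‖ / 4 := by
    intro m n hmn
    induction n with
    | zero => omega
    | succ n ih =>
      rcases Nat.lt_succ_iff_lt_or_eq.1 hmn with h | h
      · have := ih h; have := hdec n; have := hpos n; linarith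
      · subst h; exact hdec m
  have hle : ∀ n, ‖l n - p‖ < ρ / 2 := by
    intro n
    cases n with
    | zero => rw [hl0]; exact hf3 _ (by positivity)
    | succ n =>
      have h0 : ‖l 0 - p‖ < ρ / 2 := by rw [hl0]; exact hf3 _ (by positivity)
      have := hdec' 0 (n + 1) (by omega)
      have := hpos 0
      linarith
  have hsep : ∀ m n, m < n → ‖l m - p‖ / 4 + ‖l n - p‖ / 4 < ‖l m - l n‖ := by
    intro m n hmn
    have h1 := hdec' m n hmn
    have h2 : ‖l m - p‖ ≤ ‖l m - l n‖ + ‖l n - p‖ := by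
      have : l m - p = (l m - l n) + (l n - p) := by ring
      rw [this]; exact norm_add_le _ _
    have := hpos m
    have := hpos n
    linarith
  obtain ⟨B, hB1, hB2, hB3⟩ := two_points T U hU q hq hσ hI (ι := ℕ) l
    (fun n => ‖l n - p‖ / 4) (fun n => by have := hpos n; positivity) hlσ
    (fun n => by
      refine subset_trans ?_ hρU
      intro z hz
      rw [mem_ball, dist_eq_norm] at hz ⊢
      have h1 : z - p = (z - l n) + (l n - p) := by ring
      have h2 := norm_add_le (z - l n) (l n - p)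
      rw [← h1] at h2
      have := hle n
      have := hpos n
      linarith)
    (fun i j hij => by
      rcases lt_or_gt_of_ne hij with h | h
      · exact hsep i j h
      · have := hsep j i h
        rw [norm_sub_rev (l i) (l j), add_comm]; exact this)
  refine ⟨fun n => ⨅ i ∈ Finset.range (n + 1), LinearMap.ker (B i : X →ₗ[ℂ] X), fun n => ⟨?_, ?_⟩, ?_⟩
  · simp only [Submodule.coe_iInf]
    exact isClosed_iInter fun i => isClosed_iInter fun _ => (hyper_ker (hB1 i)).1
  · intro Q hQ x hx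
    simp only [Submodule.mem_iInf] at hx ⊢
    exact fun i hi => (hyper_ker (hB1 i)).2 Q hQ x (hx i hi)
  · refine strictAnti_nat_of_succ_lt fun n => lt_of_le_of_ne ?_ ?_
    · intro x hx
      simp only [Submodule.mem_iInf] at hx ⊢
      exact fun i hi => hx i (by simp only [Finset.mem_range] at hi ⊢; omega)
    · intro heq
      apply hB2 (n + 1)
      ext x
      have h1 : B (n + 1) x ∈ ⨅ i ∈ Finset.range (n + 1), LinearMap.ker (B i : X →ₗ[ℂ] X) := by
        simp only [Submodule.mem_iInf]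
        intro i hi
        simp only [LinearMap.mem_ker, ContinuousLinearMap.coe_coe]
        rw [← mul_apply_eq_comp, hB3 i (n + 1) (by
          simp only [Finset.mem_range] at hi; omega)]
        rfl
      rw [← heq] at h1
      simp only [Submodule.mem_iInf] at h1
      have h2 := h1 (n + 1) (by simp)
      simpa using h2

end Gen

end Pool.Agent.H933.LL
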