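import Pool.Agent.H933.LL.Stm

/-!
# Statements for the decomposability part
-/

set_option autoImplicit false

open MeasureTheory Metric
open scoped Real

namespace Pool.Agent.H933.LL

/-- open annulus -/
def ann (l : ℂ) (r₁ r₂ : ℝ) : Set ℂ := {z : ℂ | r₁ < ‖z - l‖ ∧ ‖z - l‖ < r₂}

/-- **P_cut** (a density on an annulus which represents the contour integral).
Proof: `μ = M⁻² · area` on the annulus `W` (finite measure), `𝒜 ⊆ L²(μ)` the subspace of the classes of the
holomorphic functions on `W` in `L²(μ)`. As in the proof of `P_berg` (file Pool/Agent/H685/LL/Berg.lean),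
`P_domar` gives `|g z| ≤ C ‖g‖_{L²(μ)}` on the circle `|z - l| = (r₁+r₂)/2`, for `g ∈ 𝒜`. So
`L(g) = (2πi)⁻¹ ∮ g dz` is a well-defined (a holomorphic function on `W` is determined by its class, `μ` being
equivalent to the area) bounded linear functional on `𝒜`; extend it to `L²(μ)` (`exists_extension_norm_eq`)
and represent it by `h₀` (`InnerProductSpace.toDual`); `h = conj h₀ · M⁻²`. Integrability as in `P_berg`. -/
def P_cut : Prop := ∀ (M : ℂ → ℝ) (l : ℂ) (r₁ r₂ q m0 : ℝ), 0 < r₁ → r₁ < r₂ → 1 < q → 0 < m0 →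
  AEMeasurable M (volume.restrict (ann l r₁ r₂)) →
  (∀ᵐ z ∂(volume.restrict (ann l r₁ r₂)), m0 ≤ M z) →
  IntegrableOn (fun z => (Real.posLog (Real.posLog (M z))) ^ q) (ann l r₁ r₂) →
  ∃ h : ℂ → ℂ, AEStronglyMeasurable h (volume.restrict (ann l r₁ r₂)) ∧
    IntegrableOn h (ann l r₁ r₂) ∧ IntegrableOn (fun z => ‖h z‖ * M z) (ann l r₁ r₂) ∧
    ∀ g : ℂ → ℂ, DifferentiableOn ℂ g (ann l r₁ r₂) → (∃ C : ℝ, ∀ z ∈ ann l r₁ r₂, ‖g z‖ ≤ C) →
      ∫ z in ann l r₁ r₂, h z * g z = (2 * π * Complex.I)⁻¹ * ∮ z in C(l, (r₁ + r₂) / 2), g z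

section Defs

variable {X : Type} [NormedAddCommGroup X] [NormedSpace ℂ X]

/-- the local spectrum of `x` is contained in `F`: there is a holomorphic function `f` off `F` with
`(z - T) f(z) = x` -/
def LocSpec (T : X →L[ℂ] X) (F : Set ℂ) (x : X) : Prop :=
  ∃ f : ℂ → X, DifferentiableOn ℂ f Fᶜ ∧ ∀ z ∉ F, z • f z - T (f z) = x

/-- the log-log condition on the whole plane -/
def LogLog [CompleteSpace X] (T : X →L[ℂ] X) (q : ℝ) : Prop :=
  volume (spectrum ℂ T) = 0 ∧ ∀ r : ℝ, IntegrableOn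
    (fun z => (Real.posLog (Real.posLog ‖resolvent T z‖)) ^ q) (ball (0 : ℂ) r)

end Defs

/-- **P_clos** (spectral subspaces). Under the log-log condition, for every closed `F` the vectors with
local spectrum in `F` form a closed subspace `Y`, invariant under the commutant of `T`, and `z - T` is bijective
on `Y` for `z ∉ F`; local spectra may be intersected.
Proof. (1) Two local resolvents `f`, `f'` of `x` agree on the complement of `F ∪ F'`: off the spectrum both are
`resolvent T z x`, the spectrum has empty interior (null set), continuity. This gives the intersection property (glue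
the two functions), uniqueness and linearity; `0`, sums, multiples, `Q x` for `Q` in the commutant are clear.
(2) Closedness: `x n → x`, local resolvents `f n` on `Fᶜ` (open). For `z ∉ F`, `z ∉ spectrum`,
`‖f n z - f m z‖ ≤ ‖resolvent T z‖ ‖x n - x m‖`. For a continuous functional `ψ` of norm `≤ 1` and `closedBall z₀ ρ ⊆ Fᶜ`,
`g = ψ (f n - f m)/‖x n - x m‖` satisfies `|g| ≤ ‖resolvent T z‖` a.e., so by `P_domar` `|g z₀| ≤ C` with `C` depending
only on `ρ` and a ball containing `closedBall z₀ ρ`; hence `‖f n z₀ - f m z₀‖ ≤ C ‖x n - x m‖`, so `f n` converges locally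
uniformly on `Fᶜ` to a holomorphic `f` (`TendstoLocallyUniformlyOn.differentiableOn`) with `(z - T) f z = x`.
(3) For `z₀ ∉ F` and `x ∈ Y` with local resolvent `f`: `y = f z₀` satisfies `(z₀ - T) y = x`, and `y ∈ Y` with the local
resolvent `z ↦ -(f z - f z₀)/(z - z₀)` (`dslope`, holomorphic on `Fᶜ`). Uniqueness: if `y ∈ Y`, `(z₀ - T) y = 0`, then off
the spectrum the local resolvent of `y` is `y/(z - z₀)`, which is unbounded near `z₀` unless `y = 0`. -/
def P_clos : Prop := ∀ (X : Type) [NormedAddCommGroup X] [NormedSpace ℂ X] [CompleteSpace X]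
  (T : X →L[ℂ] X) (q : ℝ), 1 < q → LogLog T q →
  (∀ F : Set ℂ, IsClosed F → ∃ Y : Submodule ℂ X, (∀ x, x ∈ Y ↔ LocSpec T F x) ∧
    IsClosed (Y : Set X) ∧ (∀ Q : X →L[ℂ] X, Q * T = T * Q → ∀ x ∈ Y, Q x ∈ Y) ∧
    ∀ z ∉ F, ∀ y ∈ Y, ∃! x, x ∈ Y ∧ z • x - T x = y) ∧
  (∀ (F F' : Set ℂ) (x : X), IsClosed F → IsClosed F' → LocSpec T F x → LocSpec T F' x →
    LocSpec T (F ∩ F') x) ∧
  ∀ x : X, LocSpec T (spectrum ℂ T) x

/-- **P_split** (cut-off operators). `A = ∫_W h(z) (z - T)⁻¹ dA(z)`, `h` from `P_cut` for `M = ‖resolvent T ·‖` on the annulus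
`W = ann l r₁ r₂` (`M ≥ 1/(|z| + ‖T‖) ≥ m0` off the spectrum; if `X` is trivial everything is trivial). For `w` with
`|w - l| < r₁` or `> r₂` let `f w = ∫_W h(z) (w - z)⁻¹ • resolvent T z x dA(z)`, holomorphic in `w`. As
`(w - T)(z - T)⁻¹ = (w - z)(z - T)⁻¹ + 1`, `(w - T) f w = A x + (∫_W h(z)/(w - z)) x = A x + (2πi)⁻¹ ∮ dz/(w - z) x`, which is
`A x` for `|w - l| > r₂` and `A x - x` for `|w - l| < r₁`. So `A x` has local spectrum in `closedBall l r₂` and `x - A x` in
`(ball l r₁)ᶜ`. `A` is in the bicommutant (as in Pool/Agent/H571/LL/Comm.lean). -/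
def P_split : Prop := ∀ (X : Type) [NormedAddCommGroup X] [NormedSpace ℂ X] [CompleteSpace X]
  (T : X →L[ℂ] X) (q : ℝ), 1 < q → LogLog T q → ∀ (l : ℂ) (r₁ r₂ : ℝ), 0 < r₁ → r₁ < r₂ →
  ∃ A : X →L[ℂ] X, (∀ Q : X →L[ℂ] X, Q * T = T * Q → Q * A = A * Q) ∧
    ∀ x : X, LocSpec T (closedBall l r₂) (A x) ∧ LocSpec T (ball l r₁)ᶜ (x - A x)

end Pool.Agent.H933.LL
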