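import Pool.Agent.H933.TI.Op3

/-!
# Toeplitz operators with continuous symbols: factorisation
-/

set_option autoImplicit false
set_option linter.unusedSectionVars false
set_option linter.deprecated false
set_option linter.unusedVariables false

open scoped BigOperators Nat
open MeasureTheory AddCircle Pool.Agent.Results.MP_f981b0_an.LogIntegrableNests
open Pool.Agent.H933.TI

namespace Pool.Agent.H933.LL

section Abs

variable {A B : Type*} [NormedRing A] [NormedAlgebra ℂ A] [CompleteSpace A]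
  [NormedRing B] [NormedAlgebra ℂ B] [CompleteSpace B]

lemma exp_right (Θ : A →L[ℂ] B) (v : A) (b : B) (h : ∀ f, Θ (f * v) = Θ f * b) (f : A) :
    Θ (f * NormedSpace.exp v) = Θ f * NormedSpace.exp b := by
  have h1 := ((NormedSpace.exp_series_hasSum_exp' (𝕂 := ℂ) v).mul_left f).mapL Θ
  have h2 : HasSum (fun n : ℕ => Θ f * (((n ! : ℂ)⁻¹) • b ^ n)) (Θ f * NormedSpace.exp b) :=
    (NormedSpace.exp_series_hasSum_exp' (𝕂 := ℂ) b).mul_left _
  have h3 : ∀ n : ℕ, ∀ f, Θ (f * v ^ n) = Θ f * b ^ n := by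
    intro n
    induction n with
    | zero => intro f; simp
    | succ n ih =>
      intro f
      rw [pow_succ, ← mul_assoc, h, ih, pow_succ, mul_assoc]
  have h4 : (fun n : ℕ => Θ (f * (((n ! : ℂ)⁻¹) • v ^ n)))
      = fun n : ℕ => Θ f * (((n ! : ℂ)⁻¹) • b ^ n) := by
    ext1 n
    rw [mul_smul_comm, map_smul, h3, mul_smul_comm]
  rw [h4] at h1
  exact h1.unique h2

lemma exp_left (Θ : A →L[ℂ] B) (v : A) (b : B) (h : ∀ f, Θ (v * f) = b * Θ f) (f : A) :
    Θ (NormedSpace.exp v * f) = NormedSpace.exp b * Θ f := by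
  have h1 := ((NormedSpace.exp_series_hasSum_exp' (𝕂 := ℂ) v).mul_right f).mapL Θ
  have h2 : HasSum (fun n : ℕ => (((n ! : ℂ)⁻¹) • b ^ n) * Θ f) (NormedSpace.exp b * Θ f) :=
    (NormedSpace.exp_series_hasSum_exp' (𝕂 := ℂ) b).mul_right _
  have h3 : ∀ n : ℕ, ∀ f, Θ (v ^ n * f) = b ^ n * Θ f := by
    intro n
    induction n with
    | zero => intro f; simp
    | succ n ih =>
      intro f
      rw [pow_succ', mul_assoc, h, ih, pow_succ', mul_assoc]
  have h4 : (fun n : ℕ => Θ ((((n ! : ℂ)⁻¹) • v ^ n) * f))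
      = fun n : ℕ => (((n ! : ℂ)⁻¹) • b ^ n) * Θ f := by
    ext1 n
    rw [smul_mul_assoc, map_smul, h3, smul_mul_assoc]
  rw [h4] at h1
  exact h1.unique h2

end Abs

section Calc

variable {X : Type} [NormedAddCommGroup X] [NormedSpace ℂ X] [CompleteSpace X]

/-- `Θ` is a Toeplitz calculus for the continuous functions on the circle -/
structure Calc (S R : X →L[ℂ] X) (Θ : C(UnitAddCircle, ℂ) →L[ℂ] (X →L[ℂ] X)) : Prop where
  rs : R * S = 1
  sr : S * R ≠ 1
  pos : ∀ n : ℕ, Θ (fourier (n : ℤ)) = S ^ n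
  neg : ∀ n : ℕ, Θ (fourier (-(n : ℤ))) = R ^ n

variable {S R : X →L[ℂ] X} {Θ : C(UnitAddCircle, ℂ) →L[ℂ] (X →L[ℂ] X)}

lemma Calc.four (hC : Calc S R Θ) (n : ℤ) : Θ (fourier n) = U S R n := by
  rcases le_total 0 n with hn | hn
  · obtain ⟨m, rfl⟩ := Int.eq_ofNat_of_zero_le hn
    rw [U_natCast, ← hC.pos]
  · obtain ⟨m, hm⟩ := Int.eq_ofNat_of_zero_le (show 0 ≤ -n by omega)
    have hm' : n = -(m : ℤ) := by omega
    rw [hm', U_neg_natCast, ← hC.neg]

lemma Calc.hK (hC : Calc S R Θ) (n : ℤ) : ‖U S R n‖ ≤ ‖Θ‖ := by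
  rw [← hC.four]
  refine (Θ.le_opNorm _).trans ?_
  rw [fourier_norm, mul_one]

lemma Calc.one (hC : Calc S R Θ) : Θ 1 = 1 := by
  have h := hC.four 0
  rw [U_zero] at h
  rw [← h]
  congr 1
  ext t
  simp

lemma dense_fourier : Dense ((Submodule.span ℂ (Set.range (@fourier 1)) :
    Submodule ℂ C(UnitAddCircle, ℂ)) : Set C(UnitAddCircle, ℂ)) := by
  rw [Submodule.dense_iff_topologicalClosure_eq_top]
  exact span_fourier_closure_eq_top

lemma fourier_mul (m n : ℤ) : (fourier m * fourier n : C(UnitAddCircle, ℂ)) = fourier (m + n) := by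
  ext t
  rw [ContinuousMap.mul_apply, fourier_add]

lemma Calc.mulr (hC : Calc S R Θ) (f : C(UnitAddCircle, ℂ)) {n : ℤ} (hn : 0 ≤ n) :
    Θ (f * fourier n) = Θ f * U S R n := by
  have : Θ.comp ((ContinuousLinearMap.mul ℂ C(UnitAddCircle, ℂ)).flip (fourier n))
      = ((ContinuousLinearMap.mul ℂ (X →L[ℂ] X)).flip (U S R n)).comp Θ := by
    refine ContinuousLinearMap.ext_on dense_fourier ?_
    rintro _ ⟨m, rfl⟩
    simp only [ContinuousLinearMap.comp_apply, ContinuousLinearMap.mul_apply',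
      ContinuousLinearMap.flip_apply]
    rw [fourier_mul, hC.four, hC.four, U_mul_nonneg hC.rs m hn]
  exact DFunLike.congr_fun this f

lemma Calc.mull (hC : Calc S R Θ) (f : C(UnitAddCircle, ℂ)) {n : ℤ} (hn : n ≤ 0) :
    Θ (fourier n * f) = U S R n * Θ f := by
  have : Θ.comp (ContinuousLinearMap.mul ℂ C(UnitAddCircle, ℂ) (fourier n))
      = (ContinuousLinearMap.mul ℂ (X →L[ℂ] X) (U S R n)).comp Θ := by
    refine ContinuousLinearMap.ext_on dense_fourier ?_
    rintro _ ⟨m, rfl⟩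
    simp only [ContinuousLinearMap.comp_apply, ContinuousLinearMap.mul_apply',
      ContinuousLinearMap.flip_apply]
    rw [fourier_mul, hC.four, hC.four, U_mul_nonpos hC.rs hn m]
  exact DFunLike.congr_fun this f

lemma hasSum_Ev (u : W) : HasSum (fun n : ℤ => u n • (fourier n : C(UnitAddCircle, ℂ))) (Ev u) :=
  (summable_lift (fun n => (fourier n : C(UnitAddCircle, ℂ))) 1
    (fun n => (fourier_norm n).le) u).of_norm.hasSum

lemma Calc.mulr' (hC : Calc S R Θ) (f : C(UnitAddCircle, ℂ)) (u : W) (hu : ∀ n < 0, u n = 0) :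
    Θ (f * Ev u) = Θ f * top S R ‖Θ‖ hC.hK u := by
  have h1 := ((hasSum_Ev u).mul_left f).mapL Θ
  have h3 : HasSum (fun n => u n • U S R n) (top S R ‖Θ‖ hC.hK u) :=
    (summable_lift _ ‖Θ‖ hC.hK u).of_norm.hasSum
  have h4 := h3.mul_left (Θ f)
  have h5 : (fun n : ℤ => Θ (f * (u n • (fourier n : C(UnitAddCircle, ℂ)))))
      = fun n => Θ f * (u n • U S R n) := by
    ext1 n
    rw [mul_smul_comm, map_smul, mul_smul_comm]
    rcases lt_or_ge n 0 with hn | hn
    · rw [hu n hn, zero_smul, zero_smul]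
    · rw [hC.mulr f hn]
  rw [h5] at h1
  exact h1.unique h4

lemma Calc.mull' (hC : Calc S R Θ) (f : C(UnitAddCircle, ℂ)) (u : W) (hu : ∀ n > 0, u n = 0) :
    Θ (Ev u * f) = top S R ‖Θ‖ hC.hK u * Θ f := by
  have h1 := ((hasSum_Ev u).mul_right f).mapL Θ
  have h3 : HasSum (fun n => u n • U S R n) (top S R ‖Θ‖ hC.hK u) :=
    (summable_lift _ ‖Θ‖ hC.hK u).of_norm.hasSum
  have h4 := h3.mul_right (Θ f)
  have h5 : (fun n : ℤ => Θ ((u n • (fourier n : C(UnitAddCircle, ℂ))) * f))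
      = fun n => (u n • U S R n) * Θ f := by
    ext1 n
    rw [smul_mul_assoc, map_smul, smul_mul_assoc]
    rcases le_or_gt n 0 with hn | hn
    · rw [hC.mull f hn]
    · rw [hu n hn, zero_smul, zero_smul]
  rw [h5] at h1
  exact h1.unique h4

lemma exp_apply (v : C(UnitAddCircle, ℂ)) (t : UnitAddCircle) :
    (NormedSpace.exp v) t = Complex.exp (v t) := by
  have h1 := (NormedSpace.exp_series_hasSum_exp' (𝕂 := ℂ) v).mapL (ContinuousMap.evalCLM ℂ t)
  have h2 : HasSum (fun n : ℕ => ((n ! : ℂ)⁻¹) • (v t) ^ n) (NormedSpace.exp (v t)) :=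
    NormedSpace.exp_series_hasSum_exp' (𝕂 := ℂ) (v t)
  rw [← Complex.exp_eq_exp_ℂ] at h2
  refine HasSum.unique ?_ h2
  simpa using h1

/-- factorisation -/
lemma Calc.factor (hC : Calc S R Θ) (f : C(UnitAddCircle, ℂ)) (p : W) :
    Θ (NormedSpace.exp (Ev (gm p)) * f * NormedSpace.exp (Ev (gp p)))
      = NormedSpace.exp (top S R ‖Θ‖ hC.hK (gm p)) * Θ f
        * NormedSpace.exp (top S R ‖Θ‖ hC.hK (gp p)) := by
  rw [exp_right Θ (Ev (gp p)) (top S R ‖Θ‖ hC.hK (gp p)) (fun f => hC.mulr' f (gp p)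
    (fun n hn => by simp only [gp, mkW_apply]; rw [if_neg (by omega)]))]
  rw [exp_left Θ (Ev (gm p)) (top S R ‖Θ‖ hC.hK (gm p)) (fun f => hC.mull' f (gm p)
    (fun n hn => by simp only [gm, mkW_apply]; rw [if_pos (by omega)]))]

/-- the symbol -/
lemma symbol_eq (a r : C(UnitAddCircle, ℂ)) (p : W) (l : ℂ) (k : ℤ)
    (he : ∀ t, a t - l = fourier k t * Complex.exp (ev t p) * Complex.exp (r t)) :
    a - l • 1 = NormedSpace.exp (Ev (gm p)) * (NormedSpace.exp r * fourier k)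
      * NormedSpace.exp (Ev (gp p)) := by
  ext t
  rw [ContinuousMap.mul_apply, ContinuousMap.mul_apply, ContinuousMap.mul_apply, exp_apply,
    exp_apply, exp_apply, Ev_apply, Ev_apply]
  have h1 : ev t p = ev t (gp p) + ev t (gm p) := by rw [← map_add, gp_add_gm]
  have h2 := he t
  rw [h1, Complex.exp_add] at h2
  have h3 : (a - l • (1 : C(UnitAddCircle, ℂ))) t = a t - l := by simp
  rw [h3, h2]
  ring

lemma Calc.sub_smul (hC : Calc S R Θ) (a : C(UnitAddCircle, ℂ)) (l : ℂ) :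
    Θ (a - l • 1) = Θ a - l • (1 : X →L[ℂ] X) := by
  rw [map_sub, map_smul, hC.one]

/-- invertibility of the middle factor -/
lemma Calc.mid (hC : Calc S R Θ) (r : C(UnitAddCircle, ℂ))
    (hr : ‖Θ‖ * ‖NormedSpace.exp r - 1‖ ≤ 1 / 2) :
    ∃ G' : X →L[ℂ] X, Θ (NormedSpace.exp r) * G' = 1 ∧ G' * Θ (NormedSpace.exp r) = 1
      ∧ ‖G'‖ ≤ 2 := by
  set q : X →L[ℂ] X := 1 - Θ (NormedSpace.exp r) with hq
  have hqn : ‖q‖ ≤ 1 / 2 := by
    have : q = -(Θ (NormedSpace.exp r - 1)) := by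
      rw [hq, map_sub, hC.one, neg_sub]
    rw [this, norm_neg]
    exact (Θ.le_opNorm _).trans hr
  have hq1 : ‖q‖ < 1 := lt_of_le_of_lt hqn (by norm_num)
  have he : Θ (NormedSpace.exp r) = 1 - q := by rw [hq]; abel
  refine ⟨∑' n : ℕ, q ^ n, ?_, ?_, ?_⟩
  · rw [he]; exact mul_neg_geom_series q hq1
  · rw [he]; exact geom_series_mul_neg q hq1
  · refine (tsum_geometric_le_of_norm_lt_one q hq1).trans ?_
    have hone : ‖(1 : X →L[ℂ] X)‖ ≤ 1 := ContinuousLinearMap.norm_id_le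
    have : (1 - ‖q‖)⁻¹ ≤ 2 := by
      rw [inv_le_comm₀ (by linarith) (by norm_num)]
      linarith
    linarith

/-- a one-sided invertible factorisation gives an infinite chain -/
lemma chain_gen (h : R * S = 1) (hSR : S * R ≠ 1) {T E E' F F' : X →L[ℂ] X} {l : ℂ} {k : ℤ}
    (hk : k ≠ 0) (hf : T - l • (1 : X →L[ℂ] X) = E * U S R k * F) (e1 : E * E' = 1)
    (e2 : E' * E = 1) (f1 : F * F' = 1) (f2 : F' * F = 1) : InfiniteChain T := by
  rcases lt_or_gt_of_ne hk with hk | hk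
  · obtain ⟨m, hm⟩ := Int.eq_ofNat_of_zero_le (show 0 ≤ -k by omega)
    have hm' : k = -(m : ℤ) := by omega
    have hm0 : 0 < m := by omega
    rw [hm', U_neg_natCast] at hf
    refine chain_right hf (L := F' * S ^ m * E') ?_ ?_
    · calc E * R ^ m * F * (F' * S ^ m * E') = E * R ^ m * (F * F') * S ^ m * E' := by
            simp only [mul_assoc]
        _ = E * (R ^ m * S ^ m) * E' := by rw [f1, mul_one]; simp only [mul_assoc]
        _ = 1 := by rw [pow_one_sided h, mul_one, e1]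
    · intro hinj
      apply hSR
      have hRm : Function.Injective (R ^ m : X →L[ℂ] X) := by
        intro x y hxy
        have hx : (E * R ^ m * F) (F' x) = (E * R ^ m * F) (F' y) := by
          have hz : ∀ z, (E * R ^ m * F) (F' z) = E ((R ^ m : X →L[ℂ] X) z) := by
            intro z
            rw [← mul_apply_eq_comp, mul_assoc, f1, mul_one, mul_apply_eq_comp]
          rw [hz, hz, hxy]
        have hx2 := congrArg F (hinj hx)
        rw [← mul_apply_eq_comp, ← mul_apply_eq_comp, f1] at hx2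
        simpa using hx2
      have hR := inj_of_inj_pow hm0 hRm
      ext x
      apply hR
      rw [← mul_apply_eq_comp, ← mul_assoc, h, one_mul]
      rfl
  · obtain ⟨m, rfl⟩ := Int.eq_ofNat_of_zero_le hk.le
    have hm0 : 0 < m := by omega
    rw [U_natCast] at hf
    refine chain_left hf (L := F' * R ^ m * E') ?_ ?_
    · calc F' * R ^ m * E' * (E * S ^ m * F) = F' * R ^ m * (E' * E) * S ^ m * F := by
            simp only [mul_assoc]
        _ = F' * (R ^ m * S ^ m) * F := by rw [e2, mul_one]; simp only [mul_assoc]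
        _ = 1 := by rw [pow_one_sided h, mul_one, f2]
    · intro hsurj
      apply hSR
      have hSm : Function.Surjective (S ^ m : X →L[ℂ] X) := by
        intro x
        obtain ⟨y, hy⟩ := hsurj (E x)
        refine ⟨F y, ?_⟩
        have hy2 := congrArg E' hy
        rw [← mul_apply_eq_comp, ← mul_apply_eq_comp, e2, ← mul_assoc, ← mul_assoc, e2, one_mul,
          mul_apply_eq_comp] at hy2
        simpa using hy2
      have hS := surj_of_surj_pow hm0 hSm
      ext x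
      obtain ⟨y, rfl⟩ := hS x
      rw [← mul_apply_eq_comp, mul_assoc, h, mul_one]
      rfl

/-- nonzero winding number -/
lemma Calc.chain_of_ne (hC : Calc S R Θ) (a r : C(UnitAddCircle, ℂ)) (p : W) (l : ℂ) (k : ℤ)
    (hk : k ≠ 0) (hr : ‖Θ‖ * ‖NormedSpace.exp r - 1‖ ≤ 1 / 2)
    (he : ∀ t, a t - l = fourier k t * Complex.exp (ev t p) * Complex.exp (r t)) :
    InfiniteChain (Θ a) := by
  obtain ⟨G', g1, g2, -⟩ := hC.mid r hr
  set G := Θ (NormedSpace.exp r) with hG
  have hs := symbol_eq a r p l k he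
  set E := NormedSpace.exp (top S R ‖Θ‖ hC.hK (gm p)) with hE
  set F := NormedSpace.exp (top S R ‖Θ‖ hC.hK (gp p)) with hF
  set E' := NormedSpace.exp (-(top S R ‖Θ‖ hC.hK (gm p))) with hE'
  set F' := NormedSpace.exp (-(top S R ‖Θ‖ hC.hK (gp p))) with hF'
  have e1 : E * E' = 1 := exp_mul_exp_neg _
  have e2 : E' * E = 1 := exp_neg_mul_exp _
  have f1 : F * F' = 1 := exp_mul_exp_neg _
  have f2 : F' * F = 1 := exp_neg_mul_exp _
  rcases le_total 0 k with h0 | h0
  · have hf : Θ a - l • (1 : X →L[ℂ] X) = (E * G) * U S R k * F := by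
      rw [← hC.sub_smul, hs, hC.factor, hC.mulr _ h0, ← mul_assoc E]
    refine chain_gen hC.rs hC.sr hk hf (E' := G' * E') (F' := F') ?_ ?_ f1 f2
    · rw [mul_assoc, ← mul_assoc G, g1, one_mul, e1]
    · rw [mul_assoc, ← mul_assoc E', e2, one_mul, g2]
  · have hf : Θ a - l • (1 : X →L[ℂ] X) = E * U S R k * (G * F) := by
      rw [← hC.sub_smul, hs, hC.factor, mul_comm (NormedSpace.exp r), hC.mull _ h0]
      simp only [mul_assoc]
      rfl
    refine chain_gen hC.rs hC.sr hk hf (E' := E') (F' := F' * G') e1 e2 ?_ ?_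
    · rw [mul_assoc, ← mul_assoc F, f1, one_mul, g1]
    · rw [mul_assoc, ← mul_assoc G', g2, one_mul, f2]

/-- winding number zero -/
lemma Calc.resolvent_of_zero (hC : Calc S R Θ) (a r : C(UnitAddCircle, ℂ)) (p : W) (l : ℂ)
    (hr : ‖Θ‖ * ‖NormedSpace.exp r - 1‖ ≤ 1 / 2)
    (he : ∀ t, a t - l = Complex.exp (ev t p) * Complex.exp (r t)) :
    l ∉ spectrum ℂ (Θ a) ∧ ‖resolvent (Θ a) l‖ ≤ 2 * Real.exp (‖Θ‖ * ‖p‖) := by
  obtain ⟨G', g1, g2, g3⟩ := hC.mid r hr
  set G := Θ (NormedSpace.exp r) with hG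
  have hs := symbol_eq a r p l 0 (fun t => by rw [fourier_zero, one_mul]; exact he t)
  set E := NormedSpace.exp (top S R ‖Θ‖ hC.hK (gm p)) with hE
  set F := NormedSpace.exp (top S R ‖Θ‖ hC.hK (gp p)) with hF
  set E' := NormedSpace.exp (-(top S R ‖Θ‖ hC.hK (gm p))) with hE'
  set F' := NormedSpace.exp (-(top S R ‖Θ‖ hC.hK (gp p))) with hF'
  have e1 : E * E' = 1 := exp_mul_exp_neg _
  have e2 : E' * E = 1 := exp_neg_mul_exp _
  have f1 : F * F' = 1 := exp_mul_exp_neg _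
  have f2 : F' * F = 1 := exp_neg_mul_exp _
  have hf : Θ a - l • (1 : X →L[ℂ] X) = E * G * F := by
    rw [← hC.sub_smul, hs, hC.factor, hC.mulr _ le_rfl, U_zero, mul_one]
  have halg : algebraMap ℂ (X →L[ℂ] X) l - Θ a = -(E * G * F) := by
    rw [← hf, Algebra.algebraMap_eq_smul_one]; abel
  have a1 : -(E * G * F) * -(F' * G' * E') = 1 := by
    rw [neg_mul_neg]
    calc E * G * F * (F' * G' * E') = E * (G * (F * F') * G') * E' := by
          simp only [mul_assoc]
      _ = 1 := by rw [f1, mul_one, g1, mul_one, e1]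
  have a2 : -(F' * G' * E') * -(E * G * F) = 1 := by
    rw [neg_mul_neg]
    calc F' * G' * E' * (E * G * F) = F' * (G' * (E' * E) * G) * F := by
          simp only [mul_assoc]
      _ = 1 := by rw [e2, mul_one, g2, mul_one, f2]
  let u : (X →L[ℂ] X)ˣ := ⟨-(E * G * F), -(F' * G' * E'), a1, a2⟩
  have hu : algebraMap ℂ (X →L[ℂ] X) l - Θ a = (u : X →L[ℂ] X) := halg
  refine ⟨?_, ?_⟩
  · rw [spectrum.notMem_iff, hu]
    exact u.isUnit
  · have hre : resolvent (Θ a) l = -(F' * G' * E') := by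
      rw [resolvent, hu, Ring.inverse_unit]
      rfl
    have hone : ‖(1 : X →L[ℂ] X)‖ ≤ 1 := ContinuousLinearMap.norm_id_le
    rw [hre, norm_neg]
    calc ‖F' * G' * E'‖ ≤ ‖F' * G'‖ * ‖E'‖ := norm_mul_le _ _
      _ ≤ (‖F'‖ * ‖G'‖) * ‖E'‖ := mul_le_mul_of_nonneg_right (norm_mul_le _ _) (norm_nonneg _)
      _ ≤ (Real.exp ‖-(top S R ‖Θ‖ hC.hK (gp p))‖ * 2)
          * Real.exp ‖-(top S R ‖Θ‖ hC.hK (gm p))‖ := by
          refine mul_le_mul (mul_le_mul (norm_exp_le hone _) g3 (norm_nonneg _)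
            (Real.exp_nonneg _)) (norm_exp_le hone _) (norm_nonneg _) (by positivity)
      _ = 2 * Real.exp (‖top S R ‖Θ‖ hC.hK (gp p)‖ + ‖top S R ‖Θ‖ hC.hK (gm p)‖) := by
          rw [Real.exp_add, norm_neg, norm_neg]; ring
      _ ≤ 2 * Real.exp (‖Θ‖ * ‖p‖) := by
          refine mul_le_mul_of_nonneg_left (Real.exp_le_exp.2 ?_) (by norm_num)
          rw [← norm_gp_add p, mul_add]
          exact add_le_add (norm_top_le _ _ _ _ _) (norm_top_le _ _ _ _ _)

/-- the values of the symbol belong to the spectrum -/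
lemma Calc.mem_spec (hC : Calc S R Θ) (a : C(UnitAddCircle, ℂ)) (t : UnitAddCircle) :
    a t ∈ spectrum ℂ (Θ a) := by
  by_contra hcon
  rw [spectrum.notMem_iff] at hcon
  have hd : a ∈ closure (Set.range (Ev : W → C(UnitAddCircle, ℂ))) := by
    have h1 : ((Submodule.span ℂ (Set.range (@fourier 1)) :
        Submodule ℂ C(UnitAddCircle, ℂ)) : Set C(UnitAddCircle, ℂ))
        ⊆ Set.range (Ev : W → C(UnitAddCircle, ℂ)) := by
      have : (Submodule.span ℂ (Set.range (@fourier 1)) : Submodule ℂ C(UnitAddCircle, ℂ))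
          ≤ LinearMap.range (Ev : W →ₗ[ℂ] C(UnitAddCircle, ℂ)) := by
        rw [Submodule.span_le]
        rintro _ ⟨n, rfl⟩
        exact ⟨del n, by rw [ContinuousLinearMap.coe_coe, Ev, lift_del]⟩
      intro x hx
      obtain ⟨y, hy⟩ := this hx
      exact ⟨y, hy⟩
    exact closure_mono h1 (dense_fourier a)
  obtain ⟨c, hc1, hc2⟩ := mem_closure_iff_seq_limit.1 hd
  choose w hw using hc1
  have hlim : Filter.Tendsto (fun n => algebraMap ℂ (X →L[ℂ] X) (ev t (w n))
      - top S R ‖Θ‖ hC.hK (w n)) Filter.atTop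
      (nhds (algebraMap ℂ (X →L[ℂ] X) (a t) - Θ a)) := by
    have h1 : ∀ n, top S R ‖Θ‖ hC.hK (w n) = Θ (c n) := by
      intro n
      rw [← hw n]
      have : top S R ‖Θ‖ hC.hK = Θ.comp Ev := by
        refine ext_del fun n => ?_
        rw [top_del, ContinuousLinearMap.comp_apply, Ev, lift_del, hC.four]
      rw [this]; rfl
    have h2 : ∀ n, ev t (w n) = c n t := by
      intro n; rw [← hw n, Ev_apply]
    simp_rw [h1, h2]
    refine Filter.Tendsto.sub ?_ ?_
    · refine ((algebraMapCLM ℂ (X →L[ℂ] X)).continuous.tendsto _).comp ?_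
      exact (((ContinuousMap.evalCLM ℂ t : C(UnitAddCircle, ℂ) →L[ℂ] ℂ).continuous).tendsto a).comp hc2
    · exact (Θ.continuous.tendsto a).comp hc2
  have hop : {x : X →L[ℂ] X | IsUnit x} ∈ nhds (algebraMap ℂ (X →L[ℂ] X) (a t) - Θ a) :=
    Units.isOpen.mem_nhds hcon
  obtain ⟨n, hn⟩ := (hlim.eventually_mem hop).exists
  exact (mem_spectrum ‖Θ‖ hC.hK hC.rs hC.sr (w n) t) hn

end Calc

end Pool.Agent.H933.LL
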