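import Mathlib

/-!
# Statements for the Toeplitz part (pure Mathlib)
-/

set_option autoImplicit false

open MeasureTheory Metric AddCircle
open scoped Real InnerProductSpace

namespace Pool.Agent.H933.LL

/-- **P_avg** (moving average). Every continuous function `g` on the circle is at a distance at most its
oscillation `ω` over intervals of length `δ` from an absolutely convergent Fourier series with
`∑ |c n| ≤ 3 ‖g‖ / δ`.
Proof: `p t = δ⁻¹ ∫_0^δ g (t + s) ds` (Bochner integral of the `C(UnitAddCircle, ℂ)`-valued continuous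
function `s ↦ g (· + s)`). Then `‖g - p‖ ≤ ω`. The Fourier coefficient is a continuous linear functional, and
that of `g (· + s)` is `exp (2 π i n s) ĝ(n)` (proved as `coeff_shift` in `Pool/Agent/H933/TI/Bern.lean`,
pure Mathlib), so `p̂(0) = ĝ(0)` and `p̂(n) = ĝ(n) (exp (2 π i n δ) - 1) / (2 π i n δ)` for `n ≠ 0`, hence
`|p̂(n)| ≤ |ĝ(n)| / (π |n| δ)`; by Cauchy-Schwarz and Parseval (`∑ |ĝ(n)|² = ∫ |g|² ≤ ‖g‖²`, `parseval` in the
same file) `∑ |p̂(n)| ≤ ‖g‖ + ‖g‖ (∑_{n ≠ 0} 1/(π n δ)²)^{1/2} ≤ ‖g‖ (1 + 1/δ)` (`∑_{n≥1} 1/n² = π²/6`). A continuous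
function with summable Fourier coefficients is the sum of its Fourier series
(`hasSum_fourier_series_of_summable`); take `c = p̂`. -/
def P_avg : Prop := ∀ (g : C(UnitAddCircle, ℂ)) (δ ω : ℝ), 0 < δ → δ ≤ 1 →
  (∀ s t : ℝ, |s - t| ≤ δ → ‖g (s : UnitAddCircle) - g (t : UnitAddCircle)‖ ≤ ω) →
  ∃ c : ℤ → ℂ, (Summable fun n => ‖c n‖) ∧ ∑' n, ‖c n‖ ≤ 3 * ‖g‖ / δ ∧
    ∀ t : UnitAddCircle, ‖g t - ∑' n, c n • (fourier n t : ℂ)‖ ≤ ω

/-- **P_hilb** (Toeplitz operators with continuous symbols). Let `e` be a Hilbert basis of `H` indexed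
by `ℕ`. There are `S`, `R` with `R S = 1 ≠ S R` and a bounded linear map `Θ` from `C(𝕋)` to the operators
with `Θ(z^n) = S^n`, `Θ(z^{-n}) = R^n`, and matrix `⟪e i, Θ φ (e j)⟫ = φ̂(i - j)`.
Proof: let `L = Lp ℂ 2 haarAddCircle`, `J : H → L` the linear isometry with `J (e n) = fourierLp 2 n`
(for example from the orthonormal family `n : ℕ ↦ fourierLp 2 n` and `e.repr`; or
`OrthogonalFamily.linearIsometry`), `M φ : L → L` the multiplication by `φ` (`f ↦ (ContinuousMap.toLp φ : Lp ∞) • f`,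
or any other construction, `‖M φ‖ ≤ ‖φ‖`), `Θ φ = J† M φ J`, `S = Θ (fourier 1)`, `R = Θ (fourier (-1))`. Entries:
`⟪e i, Θ φ (e j)⟫ = ⟪fourier i, φ fourier j⟫ = fourierCoeff φ (i - j)`. So `S e_j = e_{j+1}`, `R e_0 = 0`,
`R e_{j+1} = e_j`, `Θ (fourier n) e_j = e_{j+n}` (or `0` if `j + n < 0`); compare on the basis. -/
def P_hilb : Prop := ∀ (H : Type) [NormedAddCommGroup H] [InnerProductSpace ℂ H] [CompleteSpace H]
  (e : HilbertBasis ℕ ℂ H), ∃ (S R : H →L[ℂ] H) (Θ : C(UnitAddCircle, ℂ) →L[ℂ] (H →L[ℂ] H)),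
    R * S = 1 ∧ S * R ≠ 1 ∧ (∀ n : ℕ, Θ (fourier (n : ℤ)) = S ^ n) ∧
    (∀ n : ℕ, Θ (fourier (-(n : ℤ))) = R ^ n) ∧
    ∀ (φ : C(UnitAddCircle, ℂ)) (i j : ℕ), ⟪e i, Θ φ (e j)⟫_ℂ = fourierCoeff φ ((i : ℤ) - (j : ℤ))

/-- the upper Minkowski (box) dimension of `E` is less than two: the closed `δ`-neighbourhood of `E` has
area at most `C δ^ε` for `0 < δ ≤ 1` -/
def Thin (E : Set ℂ) : Prop :=
  ∃ C ε : ℝ, 0 < ε ∧ ∀ δ : ℝ, 0 < δ → δ ≤ 1 →
    volume {z : ℂ | infDist z E ≤ δ} ≤ ENNReal.ofReal (C * δ ^ ε)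

/-- **P_thin**: for a thin set `E` all powers of `log⁺ (1 / dist(z, E))` are integrable on discs.
Proof: `(log⁺ (1/d))^q ≤ C' d^(-ε/2)` for `d > 0`; layers `2^(-k-1) < d ≤ 2^(-k)` have area at most `C 2^(-kε)`,
`E` itself (and `d = 0`) is a null set; geometric series. Measurability: `infDist` is continuous. -/
def P_thin : Prop := ∀ (E : Set ℂ), Thin E → ∀ (q r : ℝ), 0 < q →
  IntegrableOn (fun z : ℂ => (Real.posLog (infDist z E)⁻¹) ^ q) (ball (0 : ℂ) r)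

end Pool.Agent.H933.LL
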