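import Pool.Agent.H933.LL.Stm
import Pool.Agent.H933.LL.Stm2

/-!
# Statements for the perturbation part

`T = S + K`, the resolvent of `S` has finite order off a closed set `E`, `K` is approximated by operators
of finite rank at the corresponding rate, the complement of `E` satisfies the quasi-hyperbolic boundary
condition `QH`. Then `log⁺ log⁺ ‖(z - T)⁻¹‖ ≤ C (1 + log⁺ (1/dist(z, E)))²` if `T` has no eigenvalues.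
-/

set_option autoImplicit false

open MeasureTheory Metric
open scoped Real InnerProductSpace

namespace Pool.Agent.H933.LL

/-- **P_det** (matrices with bounded entries). `Matrix.det_le` (or the permutation expansion):
`|det G| ≤ n! g^n ≤ (n g)^n`; the entries of the adjugate are determinants of matrices with entries bounded
by `g` (`Matrix.adjugate_apply`, `updateRow`), as `g ≥ 1`; `G⁻¹ = (det G)⁻¹ • adjugate G`. -/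
def P_det : Prop := ∀ (n : ℕ) (G : Matrix (Fin n) (Fin n) ℂ) (g : ℝ), 1 ≤ g →
  (∀ i j, ‖G i j‖ ≤ g) →
  ‖G.det‖ ≤ (n * g) ^ n ∧ (G.det ≠ 0 → ∀ i j, ‖(G⁻¹) i j‖ ≤ (n * g) ^ n / ‖G.det‖)

/-- **P_harn** (Harnack's inequality for zero-free functions). `u = log (M/|f|) ≥ 0` is harmonic on the
disc, so `u w ≤ 3 u c` for `|w - c| ≤ R/2`, i.e. `|f w| ≥ |f c|³ / M²`. (Without harmonic functions: `f = exp G`
on the disc, `G` holomorphic; `h = log M - G` has `Re h ≥ 0`; if `Re h > 0` the Cayley transform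
`(h - h c)/(h + conj (h c))` is bounded by `|z - c|/R ≤ 1/2` (Schwarz lemma), so `Re h w ≤ 3 Re h c`.) -/
def P_harn : Prop := ∀ (f : ℂ → ℂ) (c w : ℂ) (R M : ℝ), 0 < R → DifferentiableOn ℂ f (ball c R) →
  (∀ z ∈ ball c R, f z ≠ 0) → (∀ z ∈ ball c R, ‖f z‖ ≤ M) → ‖w - c‖ ≤ R / 2 →
  ‖f c‖ ^ 3 / M ^ 2 ≤ ‖f w‖

/-- **P_loc2** (one step). Put `F = ∑ φ_i ⊗ f_i`, `G₀ = K - F`, for `w ∈ ball z₀ R`: `Rs = resolvent S w`,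
`P = 1 - G₀ Rs` (invertible, `‖P⁻¹‖ ≤ 2`), `Q = Rs P⁻¹` (`‖Q‖ ≤ 2 ρ`), and the `n × n` matrix
`G_ij(w) = δ_ij - φ_i (Q f_j)` (holomorphic in `w`), entries bounded by `g = 1 + 2 ρ³ ≤ 3 ρ³`.
`w - T = (P - F Rs)(w - S)`. If `det G(w) = 0`, there is `c ≠ 0` in `ℂⁿ` with `G c = 0`; then `x = Q (∑ c_j f_j)` is
nonzero (`φ_i x = c_i`) with `(w - T) x = P Rs⁻¹ x - ∑ φ_i(x) f_i = 0`, an eigenvector. So `det G ≠ 0` on the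
disc, and `w - T` is invertible with `(w - T)⁻¹ = Q + ∑_{ij} (G⁻¹)_ij (Q f_i) ⊗ (φ_j ∘ Q)` (Sherman-Morrison-Woodbury)
and `(G⁻¹)_ij = δ_ij + φ_i ((w - T)⁻¹ f_j)`. Put `ℓ(w) = log⁺ ‖(w-T)⁻¹‖`. By `P_det` and `P_harn` (`M = (n g)^n`) for
`|w - z₀| ≤ R/2`:
`1/|det G(z₀)| = |det G(z₀)⁻¹| ≤ (n (1 + ρ² ‖(z₀-T)⁻¹‖))^n`, `1/|det G(w)| ≤ M²/|det G(z₀)|³`,
`|(G(w)⁻¹)_ij| ≤ M/|det G(w)|`, `‖(w-T)⁻¹‖ ≤ 2ρ + n² max |(G⁻¹)_ij| 4 ρ⁴`.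
Taking logarithms (`log n ≤ n`, `log (3ρ³) ≤ 2 + 3 log ρ`, `log (1 + ρ² x) ≤ 1 + 2 log ρ + log⁺ x`) gives the claim with
the constant `100`. (`n = 0` is allowed: then `‖(w-T)⁻¹‖ ≤ 2ρ`.) -/
def P_loc2 : Prop := ∀ (X : Type) [NormedAddCommGroup X] [NormedSpace ℂ X] [CompleteSpace X]
  (S K : X →L[ℂ] X) (z₀ : ℂ) (R ρ : ℝ) (n : ℕ) (φ : Fin n → (X →L[ℂ] ℂ)) (f : Fin n → X),
  0 < R → 1 ≤ ρ → (∀ w ∈ ball z₀ R, w ∈ resolventSet ℂ S ∧ ‖resolvent S w‖ ≤ ρ) →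
  (∀ i, ‖φ i‖ ≤ ρ ∧ ‖f i‖ ≤ ρ) → ‖K - ∑ i, (φ i).smulRight (f i)‖ * ρ ≤ 1 / 2 →
  (∀ w ∈ ball z₀ R, ∀ x : X, (S + K) x = w • x → x = 0) →
  (∀ w ∈ ball z₀ R, w ∈ resolventSet ℂ (S + K)) ∧
  ∀ w : ℂ, ‖w - z₀‖ ≤ R / 2 → 1 + Real.posLog ‖resolvent (S + K) w‖
    ≤ 100 * (n + 1) ^ 2 * (1 + Real.log ρ) * (1 + Real.posLog ‖resolvent (S + K) z₀‖)

/-- `S` has a resolvent of finite order off the set `E`, and `K` is approximated by operators of finite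
rank at this rate: for `0 < d ≤ 1` there are `ρ ≥ 1` with `log ρ ≤ C d^(-A)` and an operator
`F = ∑_{i < n} φ_i ⊗ f_i`, `n ≤ C d^(-A)`, `‖φ_i‖, ‖f_i‖ ≤ ρ`, with `‖(z - S)⁻¹‖ ≤ ρ` if `dist(z, E) ≥ d`, and
`‖K - F‖ ≤ 1/(2ρ)`. -/
structure Rate {X : Type} [NormedAddCommGroup X] [NormedSpace ℂ X] [CompleteSpace X]
    (S K : X →L[ℂ] X) (E : Set ℂ) (C A : ℝ) : Prop where
  res : ∀ z : ℂ, z ∉ E → z ∈ resolventSet ℂ S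
  approx : ∀ d : ℝ, 0 < d → d ≤ 1 → ∃ (n : ℕ) (φ : Fin n → (X →L[ℂ] ℂ)) (f : Fin n → X) (ρ : ℝ),
    1 ≤ ρ ∧ (n : ℝ) ≤ C * d ^ (-A) ∧ Real.log ρ ≤ C * d ^ (-A) ∧ (∀ i, ‖φ i‖ ≤ ρ ∧ ‖f i‖ ≤ ρ) ∧
    (∀ z : ℂ, d ≤ infDist z E → ‖resolvent S z‖ ≤ ρ) ∧
    ‖K - ∑ i, (φ i).smulRight (f i)‖ * ρ ≤ 1 / 2

/-- the quasi-hyperbolic boundary condition (discrete form): every point `z` off `E` is reached from a
finite set of base points off `E` by a chain of at most `C (1 + log⁺ (1/dist(z, E)))` points, each step being at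
most a quarter of the distance from `E`. -/
def QH (E : Set ℂ) : Prop := ∀ r : ℝ, ∃ (B : Finset ℂ) (C : ℝ), (∀ b ∈ B, b ∉ E) ∧
  ∀ z ∈ ball (0 : ℂ) r, z ∉ E → ∃ (N : ℕ) (c : ℕ → ℂ),
    (N : ℝ) ≤ C * (1 + Real.posLog (infDist z E)⁻¹) ∧ c 0 ∈ B ∧ c N = z ∧
    ∀ j < N, ‖c (j + 1) - c j‖ ≤ infDist (c j) E / 4

/-- **P_chb** (chain bound). Let `d_j = dist(c_j, E) > 0` along a chain (`c_j ∉ E` by induction from `c_0 ∉ E`: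
`d_{j+1} ≥ (3/4) d_j`; also `d_{j+1} ≤ (5/4) d_j`, so `d_j ≥ (4/5)^(N-j) dist(z, E)`). Apply `P_loc2` at `c_j` with
`R = d_j/2`, `d = min 1 (d_j/2)` in `Rate.approx` (the points of `ball c_j (d_j/2)` have distance `≥ d_j/2` from `E`):
`1 + ℓ(c_{j+1}) ≤ 100 (C d^(-A) + 1)² (1 + C d^(-A)) (1 + ℓ(c_j)) ≤ C₁ d^(-3A) (1 + ℓ(c_j))` with `C₁, A ≥ 1` w.l.o.g., so
`log (1 + ℓ(c_N)) ≤ log (1 + ℓ(c_0)) + ∑_{j<N} (log C₁ + 3 A (log 2 + log⁺ (1/d_j)))` and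
`log⁺ (1/d_j) ≤ log⁺ (1/dist(z,E)) + N log (5/4)`, `N ≤ C (1 + log⁺ (1/dist(z,E)))`; finally
`log⁺ ℓ ≤ log (1 + ℓ)`, and `ℓ` is bounded on the finite set `B`. Also every `z ∉ E` is in the resolvent set
of `T` (`P_loc2`, first part, at `z₀ = z`). -/
def P_chb : Prop := ∀ (X : Type) [NormedAddCommGroup X] [NormedSpace ℂ X] [CompleteSpace X]
  (S K : X →L[ℂ] X) (E : Set ℂ) (C A : ℝ), IsClosed E → E.Nonempty → QH E → Rate S K E C A →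
  (∀ w : ℂ, w ∉ E → ∀ x : X, (S + K) x = w • x → x = 0) →
  (∀ w : ℂ, w ∉ E → w ∈ resolventSet ℂ (S + K)) ∧
  ∀ r : ℝ, ∃ C' : ℝ, ∀ z ∈ ball (0 : ℂ) r, z ∉ E →
    Real.posLog (Real.posLog ‖resolvent (S + K) z‖) ≤ C' * (1 + Real.posLog (infDist z E)⁻¹) ^ 2

/-- `K` is in the Schatten class `C_p`: it has a singular value decomposition
`K x = ∑ s i ⟪e i, x⟫ f i` with orthonormal families `e`, `f` and `s i ≥ 0`, `∑ (s i) ^ p < ∞`. -/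
def Schatten {H : Type} [NormedAddCommGroup H] [InnerProductSpace ℂ H] (K : H →L[ℂ] H) (p : ℝ) :
    Prop :=
  ∃ (ι : Type) (e f : ι → H) (s : ι → ℝ), Orthonormal ℂ e ∧ Orthonormal ℂ f ∧ (∀ i, 0 ≤ s i) ∧
    (Summable fun i => s i ^ p) ∧ ∀ x, HasSum (fun i => ((s i : ℂ) * ⟪e i, x⟫_ℂ) • f i) (K x)

/-- **P_nor** (normal plus Schatten). `‖(z - N)⁻¹‖ ≤ 1/dist(z, σ(N)) ≤ 1/dist(z, E)` for a normal operator `N` with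
`σ(N) ⊆ E` (`(z - N)⁻¹` is normal, `IsStarNormal.spectralRadius_eq_nnnorm`). Take `ρ = 1/d + ‖K‖ + 1`,
`I = {i : s i > 1/(2ρ)}`, finite with `#I ≤ (2ρ)^p ∑ s^p`, `F = ∑_{i ∈ I} s_i ⟪e_i, ·⟫ f_i` (`‖s_i ⟪e_i,·⟫‖ = s_i ≤ ‖K‖ ≤ ρ`,
`‖f_i‖ = 1`), `‖K - F‖ ≤ 1/(2ρ)` by the orthonormality (Bessel: `‖∑_{i ∉ I} s_i ⟪e_i,x⟫ f_i‖² = ∑ s_i² |⟪e_i,x⟫|²`),
`A = max p 1`. -/
def P_nor : Prop := ∀ (H : Type) [NormedAddCommGroup H] [InnerProductSpace ℂ H] [CompleteSpace H]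
  (N K : H →L[ℂ] H) (E : Set ℂ) (p : ℝ), IsStarNormal N → IsClosed E → E.Nonempty →
  spectrum ℂ N ⊆ E → 0 < p → Schatten K p → ∃ C A : ℝ, Rate N K E C A

end Pool.Agent.H933.LL
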