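import Pool.Agent.H933.LL.Stm3
import Pool.Agent.H933.LL.Stm4

/-!
# Statements for the theorem about almost all couplings
-/

set_option autoImplicit false

open MeasureTheory Metric
open scoped Real InnerProductSpace ENNReal

namespace Pool.Agent.H933.LL

/-- **P_neg** (the logarithm of a holomorphic function is not too negative). `log |f|` has the sub-mean value
property (Jensen), `0 = log |f 0| ≤ (π r²)⁻¹ ∫_{ball 0 r} log |f|`, so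
`∫ log⁺ (1/|f|) = ∫ log⁺ |f| - ∫ log |f| ≤ ∫ log⁺ |f| ≤ π r² log M`. The proof of `P_mean` in
Pool/Agent/H253/LL/Mean.lean (store h253_LL_Mean.lean) can be adapted (Jensen's formula gives the circle
averages, `circleIntegrable` of `log ‖f‖`; polar coordinates). -/
def P_neg : Prop := ∀ (f : ℂ → ℂ) (U : Set ℂ) (r M : ℝ), IsOpen U → 0 < r → closedBall (0 : ℂ) r ⊆ U →
  DifferentiableOn ℂ f U → f 0 = 1 → 1 ≤ M → (∀ z ∈ ball (0 : ℂ) r, ‖f z‖ ≤ M) →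
  IntegrableOn (fun z => Real.posLog ‖f z‖⁻¹) (ball (0 : ℂ) r) ∧
  ∫ z in ball (0 : ℂ) r, Real.posLog ‖f z‖⁻¹ ≤ π * r ^ 2 * Real.log M ∧
  volume {z : ℂ | z ∈ ball (0 : ℂ) r ∧ f z = 0} = 0

/-- **P_fix** (one point `z`, average over the coupling `κ`). `F = ∑ φ_i ⊗ f_i`, `G₀ = K - F`, `Rs = resolvent S z`;
for `|κ| < r + 1`: `P = 1 - κ G₀ Rs` (invertible, `‖P⁻¹‖ ≤ 2`), `Q = Rs P⁻¹`, `‖Q‖ ≤ 2ρ`, and the `n × n` matrix
`G_ij(κ) = δ_ij - κ φ_i (Q f_j)`, holomorphic in `κ`, entries bounded by `g = 1 + 2 (r+1) ρ³ ≤ 3 (r+1) ρ³`;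
`f(κ) = det G(κ)`, `f(0) = 1`, `|f| ≤ M = (n g)^n` (`P_det`; `M = 1` if `n = 0`; use `max 1 M`). If `f(κ) ≠ 0`, then
`z - (S + κ K)` is invertible with inverse `Q + κ ∑_{ij} (G⁻¹)_ij (Q f_i) ⊗ (φ_j ∘ Q)`, of norm
`≤ 2ρ + r n² ((n g)^n / |f(κ)|) 4 ρ⁴`. Take `log⁺`, integrate over `ball 0 r` with `P_neg`. (Compare `P_loc2` in
Stm3.lean: the same algebra; somebody proves it in task 8049.) -/
def P_fix : Prop := ∀ (X : Type) [NormedAddCommGroup X] [NormedSpace ℂ X] [CompleteSpace X]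
  (S K : X →L[ℂ] X) (z : ℂ) (r ρ : ℝ) (n : ℕ) (φ : Fin n → (X →L[ℂ] ℂ)) (f : Fin n → X),
  0 < r → 1 ≤ ρ → z ∈ resolventSet ℂ S → ‖resolvent S z‖ ≤ ρ →
  (∀ i, ‖φ i‖ ≤ ρ ∧ ‖f i‖ ≤ ρ) → ‖K - ∑ i, (φ i).smulRight (f i)‖ * ρ * (r + 1) ≤ 1 / 2 →
  (∀ᵐ κ ∂(volume.restrict (ball (0 : ℂ) r)), z ∈ resolventSet ℂ (S + κ • K)) ∧
  ∫⁻ κ in ball (0 : ℂ) r, ENNReal.ofReal (Real.posLog ‖resolvent (S + κ • K) z‖)
    ≤ ENNReal.ofReal (100 * (π * r ^ 2) * (n + 1) ^ 2 * (1 + Real.log ρ + Real.log (1 + r)))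

/-- **P_jen** (a Jensen type inequality). Split at `x = D²`: on `x ≤ D²` the integrand is `≤ (2 log D)^q`, on
`x > D²` it is `≤ C_q x^{1/2} ≤ C_q x/D`, whose integral is `≤ C_q`. -/
def P_jen : Prop := ∀ q : ℝ, 1 < q → ∃ C : ℝ, 0 < C ∧ ∀ (m : Measure ℂ) (m0 D : ℝ) (x : ℂ → ℝ),
  m Set.univ ≤ ENNReal.ofReal m0 → 0 ≤ m0 → 1 ≤ D → AEMeasurable x m → (∀ k, 0 ≤ x k) →
  ∫⁻ k, ENNReal.ofReal (x k) ∂m ≤ ENNReal.ofReal D →
  ∫⁻ k, ENNReal.ofReal ((Real.posLog (x k)) ^ q) ∂m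
    ≤ ENNReal.ofReal (C * (m0 + 1) * (1 + Real.log D) ^ q)

/-- **P_ae** (almost all couplings). For `z ∉ E`, `d = min 1 (infDist z E)`, apply `Rate.approx` for `(r+1) K`
and divide the `φ_i` by `r + 1`: by `P_fix` `∫_{|κ| < r} log⁺ ‖(z - S - κK)⁻¹‖ dκ ≤ C₁ d^(-A₁) =: D`, and by `P_jen`
`∫_{|κ|<r} (log⁺ log⁺ ‖(z - S - κK)⁻¹‖)^q dκ ≤ C₂ (1 + log⁺ (1/infDist z E))^q`, which is integrable over discs in
`z`. Tonelli: `(z, κ) ↦ resolvent (S + κ K) z` is jointly (strongly) measurable: `Ring.inverse` is continuous at the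
units, the set where `z - S - κK` is invertible is open, and it is `0` elsewhere. So for almost every `κ` the integral
over `z` is finite and almost every `z` is in the resolvent set. (`r → ∞` through the naturals, countably many discs
in `z`.) -/
def P_ae : Prop := ∀ (X : Type) [NormedAddCommGroup X] [NormedSpace ℂ X] [CompleteSpace X]
  (S K : X →L[ℂ] X) (E : Set ℂ) (q : ℝ), 1 < q → IsClosed E → E.Nonempty → volume E = 0 →
  (∀ r : ℝ, IntegrableOn (fun z : ℂ => (Real.posLog (infDist z E)⁻¹) ^ q) (ball (0 : ℂ) r)) →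
  (∀ c : ℝ, 0 < c → ∃ C A : ℝ, Rate S ((c : ℂ) • K) E C A) →
  ∀ᵐ κ : ℂ, LogLog (S + κ • K) q

end Pool.Agent.H933.LL
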