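import Pool.Agent.H933.LL.Stm6

/-!
# Statements for the strong forms: couplings outside a set of capacity zero, integrable quasi-hyperbolic cost
-/

set_option autoImplicit false

open MeasureTheory Metric
open scoped Real InnerProductSpace ENNReal

namespace Pool.Agent.H933.LL

/-- a finite measure carried by the disc `ball 0 r`, without atoms, with bounded logarithmic potential -/
structure Pot (μ : Measure ℂ) (r A : ℝ) : Prop where
  mass : μ Set.univ ≤ ENNReal.ofReal A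
  car : μ (ball (0 : ℂ) r)ᶜ = 0
  atom : ∀ a : ℂ, μ {a} = 0
  pot : ∀ a : ℂ, ∫⁻ κ, ENNReal.ofReal (Real.posLog ‖κ - a‖⁻¹) ∂μ ≤ ENNReal.ofReal A

/-- **P_negmu** (the logarithm of a holomorphic function is not too negative on the average over `μ`).
Proof. `Z` = the zeros of `f` in `closedBall 0 (2r)` with multiplicities, `m` their number; `m log 2 ≤ log M`
by Jensen's formula on `closedBall 0 (4r)` (`MeromorphicOn.circleAverage_log_norm`; or: see below). `g = f / ∏_{u ∈ Z} ((κ - u)/r)` is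
holomorphic near `closedBall 0 (4r)` (`dslope` repeatedly, or the factorization results for divisors in Mathlib), free
of zeros in `closedBall 0 (2r)`; on `|κ| = 3r` the factors have modulus `≥ 1`, so `|g| ≤ M` on `ball 0 (3r)` by the
maximum principle; `|g 0| = ∏ r/|u| ≥ 2^(-m)` (`|u| ≤ 2r`). `P_harn` (`c = 0`, `R = 2r`) gives `|g κ| ≥ 2^(-3m) M^(-2) ≥ M^(-5)` for
`|κ| ≤ r`. Hence `log⁺ (1/|f κ|) ≤ 5 log M + ∑_{u ∈ Z} (log⁺ r + log⁺ (1/|κ - u|))`, integrate: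
`≤ A (5 log M + m log⁺ r) + m A ≤ C log M`. (The bound `m log 2 ≤ log M` without Jensen: the quotient by the product of
`((κ - u)/(4r)) / (1 - conj(u) κ/(16 r²))`, modulus `1` on `|κ| = 4r`, is bounded by `M`, and at `0` its modulus is
`∏ 4r/|u| ≥ 2^m`.) The zeros are finitely many points, so `μ`-null (`Pot.atom`). -/
def P_negmu : Prop := ∀ (r A : ℝ), 0 < r → 0 ≤ A → ∃ C : ℝ, 0 < C ∧
  ∀ (μ : Measure ℂ), Pot μ r A → ∀ (f : ℂ → ℂ) (U : Set ℂ) (M : ℝ), IsOpen U →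
  closedBall (0 : ℂ) (4 * r) ⊆ U → DifferentiableOn ℂ f U → f 0 = 1 → 1 ≤ M →
  (∀ z ∈ ball (0 : ℂ) (4 * r), ‖f z‖ ≤ M) →
  μ {z : ℂ | z ∈ ball (0 : ℂ) r ∧ f z = 0} = 0 ∧
  ∫⁻ z, ENNReal.ofReal (Real.posLog ‖f z‖⁻¹) ∂μ ≤ ENNReal.ofReal (C * Real.log M)

/-- **P_fixmu**: variant of `P_fix` (Stm5.lean), proved in Pool/Agent/H955/LL/Fix.lean (on main): the same proof with
the measure `μ` instead of the area on `ball 0 r`, with `P_negmu` instead of `P_neg`, and the matrix function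
`G(κ)` on `|κ| < 4 r + 1`. -/
def P_fixmu : Prop := ∀ (r A : ℝ), 0 < r → 0 ≤ A → ∃ C : ℝ, 0 < C ∧
  ∀ (X : Type) [NormedAddCommGroup X] [NormedSpace ℂ X] [CompleteSpace X]
  (μ : Measure ℂ) (S K : X →L[ℂ] X) (z : ℂ) (ρ : ℝ) (n : ℕ) (φ : Fin n → (X →L[ℂ] ℂ))
  (f : Fin n → X), Pot μ r A → 1 ≤ ρ → z ∈ resolventSet ℂ S → ‖resolvent S z‖ ≤ ρ →
  (∀ i, ‖φ i‖ ≤ ρ ∧ ‖f i‖ ≤ ρ) → ‖K - ∑ i, (φ i).smulRight (f i)‖ * ρ * (4 * r + 1) ≤ 1 / 2 →
  (∀ᵐ κ ∂μ, z ∈ resolventSet ℂ (S + κ • K)) ∧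
  ∫⁻ κ, ENNReal.ofReal (Real.posLog ‖resolvent (S + κ • K) z‖) ∂μ
    ≤ ENNReal.ofReal (C * (n + 1) ^ 2 * (1 + Real.log ρ))

/-- **P_aemu**: variant of `P_ae` (Stm5.lean), proved in Pool/Agent/H539/LL/Ae.lean (on main): the same proof with the
finite measure `μ` instead of the area on `ball 0 r` (`Rate.approx` for `(4 r + 1) K`). -/
def P_aemu : Prop := ∀ (X : Type) [NormedAddCommGroup X] [NormedSpace ℂ X] [CompleteSpace X]
  (S K : X →L[ℂ] X) (E : Set ℂ) (q : ℝ), 1 < q → IsClosed E → E.Nonempty → volume E = 0 →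
  (∀ r : ℝ, IntegrableOn (fun z : ℂ => (Real.posLog (infDist z E)⁻¹) ^ q) (ball (0 : ℂ) r)) →
  (∀ c : ℝ, 0 < c → ∃ C A : ℝ, Rate S ((c : ℂ) • K) E C A) →
  ∀ (μ : Measure ℂ) (r A : ℝ), 0 < r → 0 ≤ A → Pot μ r A → ∀ᵐ κ ∂μ, LogLog (S + κ • K) q

/-- chains of cost at most a multiple of `1 + g`: every point `z` off `E` is reached from a finite set of
base points in `G` off `E` by a chain of points, each step being at most a quarter of the distance from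
`E`, with `∑ (1 + log⁺ (1/dist(c_j, E))) ≤ C (1 + g z)`. -/
def QHg (E G : Set ℂ) (g : ℂ → ℝ) : Prop := ∀ r : ℝ, ∃ (B : Finset ℂ) (C : ℝ),
  (∀ b ∈ B, b ∈ G ∧ b ∉ E) ∧ ∀ z ∈ ball (0 : ℂ) r, z ∉ E → ∃ (N : ℕ) (c : ℕ → ℂ),
    ∑ j ∈ Finset.range (N + 1), (1 + Real.posLog (infDist (c j) E)⁻¹) ≤ C * (1 + g z) ∧
    c 0 ∈ B ∧ c N = z ∧ ∀ j < N, ‖c (j + 1) - c j‖ ≤ infDist (c j) E / 4

/-- **P_chb4**: variant of `P_chb3` (Stm6.lean), proved in Pool/Agent/H289/LL/Chb3.lean (on main); the bound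
`log (1 + a_N) ≤ log (1 + a_0) + ∑_{j<N} (log C₁ + 3 A (log 2 + log⁺ (1/d_j)))` is now at most `C' (1 + g z)` directly. -/
def P_chb4 : Prop := ∀ (X : Type) [NormedAddCommGroup X] [NormedSpace ℂ X] [CompleteSpace X]
  (S K : X →L[ℂ] X) (E : Set ℂ) (C A : ℝ) (g : ℂ → ℝ), IsClosed E → E.Nonempty → (∀ z, 0 ≤ g z) →
  QHg E (resolventSet ℂ (S + K)) g → Rate S K E C A →
  ∀ r : ℝ, ∃ C' : ℝ, ∀ z ∈ ball (0 : ℂ) r, z ∉ E →
    (∀ᵐ w ∂(volume.restrict (ball z (infDist z E / 4))), w ∈ resolventSet ℂ (S + K)) ∧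
    ∫⁻ w in ball z (infDist z E / 4), ENNReal.ofReal (Real.posLog ‖resolvent (S + K) w‖)
      ≤ ENNReal.ofReal (Real.exp (C' * (1 + g z)))

/-- **P_whit4**: variant of `P_whit` (Stm6.lean), proved in Pool/Agent/H17/LL/Whit.lean (on main), with a general
measurable function `g ≥ 0`, `g^q` integrable on discs, in the place of `(log⁺ (1/dist(z,E)))²`. To compare the
average with `D(z) = exp(...)` one needs `(log⁺ (1/d))^q` integrable too; this is part of the hypotheses. -/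
def P_whit4 : Prop := ∀ (x g : ℂ → ℝ) (E G : Set ℂ) (q : ℝ), 1 < q → Measurable x → (∀ w, 0 ≤ x w) →
  IsClosed E → E.Nonempty → volume E = 0 → Measurable g → (∀ w, 0 ≤ g w) →
  (∀ r : ℝ, IntegrableOn (fun z : ℂ => g z ^ q) (ball (0 : ℂ) r)) →
  (∀ r : ℝ, IntegrableOn (fun z : ℂ => (Real.posLog (infDist z E)⁻¹) ^ q) (ball (0 : ℂ) r)) →
  (∀ r : ℝ, ∃ C' : ℝ, ∀ z ∈ ball (0 : ℂ) r, z ∉ E →
    (∀ᵐ w ∂(volume.restrict (ball z (infDist z E / 4))), w ∈ G) ∧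
    ∫⁻ w in ball z (infDist z E / 4), ENNReal.ofReal (x w)
      ≤ ENNReal.ofReal (Real.exp (C' * (1 + g z)))) →
  (∀ r : ℝ, IntegrableOn (fun w : ℂ => (Real.posLog (x w)) ^ q) (ball (0 : ℂ) r)) ∧
  ∀ᵐ w : ℂ, w ∈ G

/-- **P_graph** (graphs of Hölder functions of an order greater than one half). `E` = the graph of `φ`, `p = 1/α`
in `[1, 2)`. For `z = (x, y)`, `h = |y - φ x|`: `dist(z, E) ≥ c min(h, 1)^p` (a point `(x', φ x')` at a distance `s` from `z`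
has `|x - x'| ≤ s`, so `h ≤ s + L s^α`). Chain (backwards from `z`, say above the graph): go up,
`t_0 = h`, `t_{j+1} = t_j + c' min(t_j, 1)^p` (`t` = the height above the graph; steps at most a quarter of the distances at
both of their ends, after shrinking `c'`), up to the height `Y` (fixed by `r` and `R₀`, large: `Y > R₀`,
`Y ≥ sup_{|x| ≤ r} |φ| + 1`), then horizontally to `± i Y` in a bounded number of steps. The number of steps up from `t ≤ 1`: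
`t^(1-p)` decreases by a positive constant in every step (`p > 1`; for `p = 1` use `log (1/t)`, or replace `α` by a
smaller number still above `1/2`, so that `p > 1` always), hence `N ≤ C h^(1-p)`, and all distances are
`≥ c min(h,1)^p`, so the cost is at most `C (1 + h^(1-p)) (1 + log⁺ (1/h)) ≤ C' (1 + min(h,1)^(-s))` with `p - 1 < s < 1`.
Take `g z = min(h, 1)^(-s)` (`0` on the graph), `q > 1` with `q s < 1`; `g^q` is integrable on discs (Fubini: integrate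
in `y` first), and so is `(log⁺ (1/dist))^q` by `dist ≥ c min(h,1)^p`. -/
def P_graph : Prop := ∀ (φ : ℝ → ℝ) (L α : ℝ), 1 / 2 < α → α ≤ 1 →
  (∀ s t : ℝ, |φ s - φ t| ≤ L * |s - t| ^ α) →
  IsClosed {z : ℂ | z.im = φ z.re} ∧ volume {z : ℂ | z.im = φ z.re} = 0 ∧
  ∃ (q : ℝ) (g : ℂ → ℝ), 1 < q ∧ Measurable g ∧ (∀ z, 0 ≤ g z) ∧
    (∀ r : ℝ, IntegrableOn (fun z : ℂ => g z ^ q) (ball (0 : ℂ) r)) ∧
    (∀ r : ℝ, IntegrableOn
      (fun z : ℂ => (Real.posLog (infDist z {z : ℂ | z.im = φ z.re})⁻¹) ^ q) (ball (0 : ℂ) r)) ∧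
    ∀ R₀ : ℝ, QHg {z : ℂ | z.im = φ z.re} {b : ℂ | R₀ < ‖b‖} g

end Pool.Agent.H933.LL
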