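import Pool.Agent.H933.LL.Stm4

/-!
# Decomposability
-/

set_option autoImplicit false
set_option linter.unusedSectionVars false
set_option linter.unusedVariables false

open MeasureTheory Metric
open scoped Real

namespace Pool.Agent.H933.LL

section Dec

variable {X : Type} [NormedAddCommGroup X] [NormedSpace ℂ X] [CompleteSpace X]

/-- `Y` is a closed subspace, invariant under the commutant of `T`, and the spectrum of the restriction
of `T` to `Y` is contained in `U`: for `z ∉ U` the operator `z - T` maps `Y` bijectively onto `Y` -/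
def SpecSub (T : X →L[ℂ] X) (Y : Submodule ℂ X) (U : Set ℂ) : Prop :=
  IsClosed (Y : Set X) ∧ (∀ Q : X →L[ℂ] X, Q * T = T * Q → ∀ x ∈ Y, Q x ∈ Y) ∧
    ∀ z ∉ U, ∀ y ∈ Y, ∃! x, x ∈ Y ∧ z • x - T x = y

/-- `T` is decomposable: for every open cover of the plane by two sets the space is the sum of two
closed hyperinvariant subspaces on which the spectrum of `T` lies in the one and in the other set -/
def Decomposable (T : X →L[ℂ] X) : Prop := ∀ U₁ U₂ : Set ℂ, IsOpen U₁ → IsOpen U₂ →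
  U₁ ∪ U₂ = Set.univ → ∃ Y₁ Y₂ : Submodule ℂ X, SpecSub T Y₁ U₁ ∧ SpecSub T Y₂ U₂ ∧ Y₁ ⊔ Y₂ = ⊤

lemma LocSpec.mono {T : X →L[ℂ] X} {F F' : Set ℂ} {x : X} (h : LocSpec T F x) (hF : F ⊆ F') :
    LocSpec T F' x := by
  obtain ⟨f, h1, h2⟩ := h
  exact ⟨f, h1.mono (Set.compl_subset_compl.2 hF), fun z hz => h2 z (fun hz' => hz (hF hz'))⟩

theorem decomposable (h1 : P_clos) (h2 : P_split) (T : X →L[ℂ] X) (q : ℝ) (hq : 1 < q)
    (hT : LogLog T q) : Decomposable T := by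
  obtain ⟨c1, c2, c3⟩ := h1 X T q hq hT
  intro U₁ U₂ hU₁ hU₂ hU
  -- the compact set to be covered
  set K0 : Set ℂ := spectrum ℂ T ∩ U₂ᶜ with hK0
  have hK0c : IsCompact K0 := (spectrum.isCompact T).inter_right hU₂.isClosed_compl
  have hK0U : K0 ⊆ U₁ := by
    rintro z ⟨-, hz⟩
    have : z ∈ U₁ ∪ U₂ := by rw [hU]; trivial
    exact this.resolve_right hz
  have hr : ∀ z ∈ K0, ∃ r : ℝ, 0 < r ∧ closedBall z (2 * r) ⊆ U₁ := by
    intro z hz
    obtain ⟨r, hr, hrU⟩ := Metric.isOpen_iff.1 hU₁ z (hK0U hz)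
    refine ⟨r / 4, by positivity, subset_trans (fun w hw => ?_) hrU⟩
    rw [mem_closedBall] at hw
    rw [mem_ball]
    linarith
  choose! r hr0 hrU using hr
  obtain ⟨t, ht1, ht2⟩ := hK0c.elim_nhds_subcover (fun z => ball z (r z))
    (fun z hz => ball_mem_nhds z (hr0 z hz))
  -- the closed sets
  set F₁ : Set ℂ := ⋃ z ∈ t, closedBall z (2 * r z) with hF₁
  have hF₁c : IsClosed F₁ := by
    rw [hF₁]
    exact isClosed_biUnion_finset fun z _ => isClosed_closedBall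
  have hF₁U : F₁ ⊆ U₁ := by
    rw [hF₁]
    exact Set.iUnion₂_subset fun z hz => hrU z (ht1 z hz)
  set F₂ : Set ℂ := spectrum ℂ T ∩ (⋃ z ∈ t, ball z (r z))ᶜ with hF₂
  have hF₂c : IsClosed F₂ :=
    (spectrum.isClosed T).inter (isOpen_biUnion fun z _ => isOpen_ball).isClosed_compl
  have hF₂U : F₂ ⊆ U₂ := by
    rintro z ⟨hz1, hz2⟩
    by_contra hz3
    exact hz2 (ht2 ⟨hz1, hz3⟩)
  obtain ⟨Y₁, y1, y2, y3, y4⟩ := c1 F₁ hF₁c
  obtain ⟨Y₂, w1, w2, w3, w4⟩ := c1 F₂ hF₂c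
  refine ⟨Y₁, Y₂, ⟨y2, y3, fun z hz => y4 z (fun h => hz (hF₁U h))⟩,
    ⟨w2, w3, fun z hz => w4 z (fun h => hz (hF₂U h))⟩, ?_⟩
  rw [eq_top_iff]
  rintro x -
  -- the splitting
  have key : ∀ s : Finset ℂ, s ⊆ t → ∃ x₁ x₂ : X, x = x₁ + x₂ ∧ x₁ ∈ Y₁ ∧
      ∀ z ∈ s, LocSpec T (ball z (r z))ᶜ x₂ := by
    intro s
    induction s using Finset.induction_on with
    | empty => intro _; exact ⟨0, x, by simp, Y₁.zero_mem, fun z hz => absurd hz (by simp)⟩
    | insert z s hz ih =>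
      intro hs
      obtain ⟨x₁, x₂, e1, e2, e3⟩ := ih (fun w hw => hs (Finset.mem_insert_of_mem hw))
      have hzt : z ∈ t := hs (Finset.mem_insert_self z s)
      have hz0 : 0 < r z := hr0 z (ht1 z hzt)
      obtain ⟨A, a1, a2⟩ := h2 X T q hq hT z (r z) (2 * r z) hz0 (by linarith)
      have hAT : A * T = T * A := (a1 T rfl).symm
      refine ⟨x₁ + A x₂, x₂ - A x₂, by rw [e1]; abel, Y₁.add_mem e2 ?_, ?_⟩
      · rw [y1]
        refine (a2 x₂).1.mono ?_
        rw [hF₁]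
        exact Set.subset_biUnion_of_mem (u := fun z => closedBall z (2 * r z)) hzt
      · intro w hw
        rcases Finset.mem_insert.1 hw with rfl | hw
        · exact (a2 x₂).2
        · obtain ⟨Y, v1, v2, v3, v4⟩ := c1 (ball w (r w))ᶜ isOpen_ball.isClosed_compl
          rw [← v1]
          exact Y.sub_mem ((v1 _).2 (e3 w hw)) (v3 A hAT _ ((v1 _).2 (e3 w hw)))
  obtain ⟨x₁, x₂, e1, e2, e3⟩ := key t (Finset.Subset.refl t)
  have hx₂ : ∀ s : Finset ℂ, s ⊆ t →
      LocSpec T (spectrum ℂ T ∩ (⋃ z ∈ s, ball z (r z))ᶜ) x₂ := by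
    intro s
    induction s using Finset.induction_on with
    | empty => intro _; simpa using c3 x₂
    | insert z s hz ih =>
      intro hs
      have h4 := ih (fun w hw => hs (Finset.mem_insert_of_mem hw))
      have h5 := e3 z (hs (Finset.mem_insert_self z s))
      have h6 := c2 _ _ x₂ ((spectrum.isClosed T).inter
        (isOpen_biUnion fun z _ => isOpen_ball).isClosed_compl) isOpen_ball.isClosed_compl h4 h5
      refine h6.mono ?_
      rintro w ⟨⟨hw1, hw2⟩, hw3⟩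
      refine ⟨hw1, fun hw4 => ?_⟩
      rw [Set.mem_iUnion₂] at hw4
      obtain ⟨u, hu1, hu2⟩ := hw4
      rcases Finset.mem_insert.1 hu1 with rfl | hu1
      · exact hw3 hu2
      · exact hw2 (Set.mem_iUnion₂.2 ⟨u, hu1, hu2⟩)
  rw [e1]
  exact Submodule.add_mem_sup e2 ((w1 _).2 (hx₂ t (Finset.Subset.refl t)))

end Dec

end Pool.Agent.H933.LL
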