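import Pool.Agent.H933.LL.Log
import Pool.Agent.H933.LL.Gen
import Pool.Agent.H51.LL.Avg
import Pool.Agent.H571.LL.Hilb
import Pool.Agent.H665.LL.Thin

/-!
# Toeplitz operators with continuous symbols: the chain
-/

set_option autoImplicit false
set_option linter.unusedSectionVars false
set_option linter.deprecated false
set_option linter.unusedVariables false

open scoped BigOperators Nat
open MeasureTheory AddCircle Pool.Agent.Results.MP_f981b0_an.LogIntegrableNests
open Pool.Agent.H933.TI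

namespace Pool.Agent.H933.LL

lemma add_rpow_le {x y q : ℝ} (hx : 0 ≤ x) (hy : 0 ≤ y) (hq : 1 ≤ q) :
    (x + y) ^ q ≤ 2 ^ (q - 1) * (x ^ q + y ^ q) := by
  lift x to NNReal using hx
  lift y to NNReal using hy
  exact_mod_cast NNReal.rpow_add_le_mul_rpow_add_rpow x y hq

section Calc

variable {X : Type} [NormedAddCommGroup X] [NormedSpace ℂ X] [CompleteSpace X]
variable {S R : X →L[ℂ] X} {Θ : C(UnitAddCircle, ℂ) →L[ℂ] (X →L[ℂ] X)}

/-- the modulus function `δ` of the symbol `a` at the level `η` -/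
def Modulus (a : UnitAddCircle → ℂ) (η : ℝ) (δ : ℂ → ℝ) : Prop :=
  ∀ᵐ z : ℂ, 0 < δ z ∧ δ z ≤ 1 ∧ (∀ t : UnitAddCircle, δ z ≤ ‖a t - z‖) ∧
    ∀ s t : ℝ, |s - t| ≤ δ z →
      ‖a (s : UnitAddCircle) - a (t : UnitAddCircle)‖ ≤ η * ‖a (s : UnitAddCircle) - z‖

lemma posLog_posLog_le {x C δ : ℝ} (hC : 1 ≤ C) (hδ : 0 < δ) (hδ1 : δ ≤ 1) (hx0 : 0 ≤ x)
    (hx : x ≤ 2 * Real.exp (C / δ ^ 2)) :
    Real.posLog (Real.posLog x) ≤ Real.log (C + 1) + 2 * Real.posLog δ⁻¹ := by
  have hl2 : Real.log 2 ≤ 1 := by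
    have := Real.log_le_sub_one_of_pos (show (0 : ℝ) < 2 by norm_num); linarith
  have hd : (1 : ℝ) ≤ 1 / δ ^ 2 := by
    rw [le_div_iff₀ (by positivity)]
    nlinarith
  have h1 : Real.posLog x ≤ (C + 1) / δ ^ 2 := by
    rw [Real.posLog, max_le_iff]
    refine ⟨by positivity, ?_⟩
    rcases eq_or_lt_of_le hx0 with h0 | h0
    · rw [← h0, Real.log_zero]; positivity
    · refine (Real.log_le_log h0 hx).trans ?_
      rw [Real.log_mul (by norm_num) (Real.exp_ne_zero _), Real.log_exp]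
      have : (C + 1) / δ ^ 2 = C / δ ^ 2 + 1 / δ ^ 2 := by ring
      rw [this]
      linarith
  have h2 : Real.posLog (Real.posLog x) ≤ Real.posLog ((C + 1) / δ ^ 2) :=
    Real.posLog_le_posLog Real.posLog_nonneg h1
  refine h2.trans ?_
  have h3 : (1 : ℝ) ≤ (C + 1) / δ ^ 2 := by
    rw [le_div_iff₀ (by positivity)]
    nlinarith
  rw [Real.posLog_eq_log (by rw [abs_of_pos (by linarith)]; exact h3)]
  rw [Real.log_div (by linarith) (by positivity), Real.log_pow]
  have h4 : -Real.log δ ≤ Real.posLog δ⁻¹ := by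
    rw [← Real.log_inv]; exact le_max_right _ _
  push_cast
  linarith

theorem Calc.chain (hC : Calc S R Θ) (a : C(UnitAddCircle, ℂ))
    (hne : ∃ s t : UnitAddCircle, a s ≠ a t) (q : ℝ) (hq : 1 < q)
    (hmod : ∀ η : ℝ, 0 < η → ∃ δ : ℂ → ℝ, Modulus a η δ ∧
      ∀ r : ℝ, IntegrableOn (fun z : ℂ => (Real.posLog (δ z)⁻¹) ^ q) (Metric.ball (0 : ℂ) r)) :
    InfiniteChain (Θ a) := by
  by_contra hno
  have hΘ := norm_nonneg Θ
  obtain ⟨δ, hδ, hδI⟩ := hmod (1 / (16 * (‖Θ‖ + 1))) (by positivity)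
  set r0 : ℝ := ‖a 0‖ + 1 with hr0
  have hr0' : 0 < r0 := by have := norm_nonneg (a 0); linarith
  set C : ℝ := 3 * ‖Θ‖ * (6 + Real.posLog (‖a‖ + r0)) + 1 with hCdef
  have hC1 : 1 ≤ C := by
    have : 0 ≤ 3 * ‖Θ‖ * (6 + Real.posLog (‖a‖ + r0)) := by
      have := Real.posLog_nonneg (x := ‖a‖ + r0)
      positivity
    linarith
  set D := Metric.ball (0 : ℂ) r0 with hD
  have hDo : IsOpen D := Metric.isOpen_ball
  have hkey : ∀ᵐ z ∂(volume.restrict D), z ∉ spectrum ℂ (Θ a) ∧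
      Real.posLog (Real.posLog ‖resolvent (Θ a) z‖)
        ≤ Real.log (C + 1) + 2 * Real.posLog (δ z)⁻¹ := by
    have hD2 : ∀ᵐ z ∂(volume.restrict D), z ∈ D := ae_restrict_mem hDo.measurableSet
    filter_upwards [ae_restrict_of_ae hδ, hD2] with z hz hzD
    obtain ⟨z1, z2, z3, z4⟩ := hz
    obtain ⟨b1, b2⟩ := hC.bound Pool.Agent.H51.LL.p_avg a hno z z1 z2 (by positivity) le_rfl z3 z4
    refine ⟨b1, posLog_posLog_le hC1 z1 z2 (norm_nonneg _) (b2.trans ?_)⟩
    refine mul_le_mul_of_nonneg_left (Real.exp_le_exp.2 ?_) (by norm_num)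
    rw [hD, mem_ball_zero_iff] at hzD
    have hp : Real.posLog (‖a‖ + ‖z‖) ≤ Real.posLog (‖a‖ + r0) := by
      refine Real.posLog_le_posLog ?_ (by linarith)
      positivity
    gcongr
    rw [hCdef]
    have : 3 * ‖Θ‖ * (6 + Real.posLog (‖a‖ + ‖z‖))
        ≤ 3 * ‖Θ‖ * (6 + Real.posLog (‖a‖ + r0)) := by gcongr
    linarith
  have hσ : volume (spectrum ℂ (Θ a) ∩ D) = 0 := by
    have h1 : volume.restrict D (spectrum ℂ (Θ a)) = 0 := by
      rw [← compl_compl (spectrum ℂ (Θ a))]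
      rw [← mem_ae_iff]
      filter_upwards [hkey] with z hz
      exact hz.1
    rwa [Measure.restrict_apply (spectrum.isClosed (Θ a)).measurableSet] at h1
  have hlC : 0 ≤ Real.log (C + 1) := Real.log_nonneg (by linarith)
  have hI : IntegrableOn (fun z : ℂ =>
      (Real.posLog (Real.posLog ‖resolvent (Θ a) z‖)) ^ q) D := by
    have hmaj : Integrable (fun z : ℂ => (2 : ℝ) ^ (q - 1) * ((Real.log (C + 1)) ^ q
        + (2 : ℝ) ^ q * (Real.posLog (δ z)⁻¹) ^ q)) (volume.restrict D) := by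
      refine Integrable.const_mul ?_ _
      refine Integrable.add ?_ ?_
      · have : IsFiniteMeasure (volume.restrict D) :=
          ⟨by rw [Measure.restrict_apply_univ]; exact measure_ball_lt_top⟩
        exact integrable_const _
      · exact (hδI r0).const_mul _
    refine hmaj.mono' ?_ ?_
    · have h1 : AEMeasurable (fun z : ℂ => ‖resolvent (Θ a) z‖) (volume.restrict D) :=
        (Pool.Agent.H571.LL.aesm_resolvent (Θ a) _).norm.aemeasurable
      have h2 : Measurable Real.posLog := Real.continuous_posLog.measurable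
      exact ((h2.comp_aemeasurable (h2.comp_aemeasurable h1)).pow_const q).aestronglyMeasurable
    · filter_upwards [hkey] with z hz
      have h0 : 0 ≤ Real.posLog (Real.posLog ‖resolvent (Θ a) z‖) := Real.posLog_nonneg
      rw [Real.norm_of_nonneg (Real.rpow_nonneg h0 _)]
      refine (Real.rpow_le_rpow h0 hz.2 (by linarith)).trans ?_
      have h3 := Real.posLog_nonneg (x := (δ z)⁻¹)
      have h4 := add_rpow_le hlC (by positivity :
        0 ≤ 2 * Real.posLog (δ z)⁻¹) hq.le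
      refine h4.trans (le_of_eq ?_)
      rw [Real.mul_rpow (by norm_num) h3]
  -- the image of the symbol is connected and not a point
  have hacc : ∀ ε : ℝ, 0 < ε → ∃ μ ∈ spectrum ℂ (Θ a), μ ≠ a 0 ∧ ‖μ - a 0‖ < ε := by
    intro r hr
    have hcon : IsPreconnected (Set.range fun t : UnitAddCircle => a t) :=
      isPreconnected_range a.continuous
    have hnt : (Set.range fun t : UnitAddCircle => a t).Nontrivial := by
      obtain ⟨s, t, hst⟩ := hne
      exact ⟨a s, ⟨s, rfl⟩, a t, ⟨t, rfl⟩, hst⟩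
    have hperf := hcon.preperfect_of_nontrivial hnt (a 0) ⟨0, rfl⟩
    rw [accPt_iff_nhds] at hperf
    obtain ⟨y, ⟨hy1, t, rfl⟩, hy2⟩ := hperf (Metric.ball (a 0) r) (Metric.ball_mem_nhds _ hr)
    refine ⟨a t, hC.mem_spec a t, hy2, ?_⟩
    rw [← dist_eq_norm]
    exact hy1
  obtain ⟨V, hV1, hV2⟩ := infinite_chain (Θ a) D hDo q hq hσ hI (a 0)
    (by rw [hD, mem_ball_zero_iff]; linarith) hacc
  exact hno ⟨V, hV1, Or.inr hV2⟩

end Calc

end Pool.Agent.H933.LL
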