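import Pool.Agent.H933.LL.Stm5

/-!
# Statements for the perturbation theorem without exceptional eigenvalues

`x(w) = log⁺ ‖(w - T)⁻¹‖`, `T = S + K`. The chain argument of `P_chb` with averages of `x` over discs instead of
values; zeros of the determinant (eigenvalues of `T`) are harmless.
-/

set_option autoImplicit false

open MeasureTheory Metric
open scoped Real InnerProductSpace ENNReal

namespace Pool.Agent.H933.LL

/-- **P_loc3** (one step, averages). Notation of `P_loc2` (Stm3.lean, proved in Pool/Agent/H183/LL/Loc2.lean):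
`f(w) = det G(w)`, holomorphic on `ball z₀ R`, `|f| ≤ (n g)^n`, `g = 3 ρ³`. `f(w) ≠ 0` implies that `w` is in the resolvent
set of `T` and `‖(w-T)⁻¹‖ ≤ 2ρ + n² ((n g)^n/|f(w)|) 4ρ⁴`; at `v` (in the resolvent set of `T`) `(G⁻¹)_ij = δ_ij + φ_i((v-T)⁻¹ f_j)`, so
`1/|f(v)| ≤ (n (1 + ρ² ‖(v-T)⁻¹‖))^n`. Apply `P_neg` to `κ ↦ f(v + κ)/f(v)` on `ball 0 (3R/4)` (`M = max 1 ((n g)^n/|f(v)|)`):
the zeros of `f` are null and `∫_{ball v (3R/4)} log⁺(1/|f|) ≤ π (3R/4)² (log M + log⁺ (1/|f v|))`. Use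
`ball z₀ (11R/16) ⊆ ball v (3R/4) ⊆ ball z₀ (13R/16)`. With `L = log ρ`, `A = π R²`: the integral of `x` is at most
`A [4 + 10 n + 4 n² + (5 + 10 n) L + 4 n a] ≤ 100 A (n+1)² (1+L) (1+a)`. -/
def P_loc3 : Prop := ∀ (X : Type) [NormedAddCommGroup X] [NormedSpace ℂ X] [CompleteSpace X]
  (S K : X →L[ℂ] X) (z₀ v : ℂ) (R ρ a : ℝ) (n : ℕ) (φ : Fin n → (X →L[ℂ] ℂ)) (f : Fin n → X),
  0 < R → 1 ≤ ρ → (∀ w ∈ ball z₀ R, w ∈ resolventSet ℂ S ∧ ‖resolvent S w‖ ≤ ρ) →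
  (∀ i, ‖φ i‖ ≤ ρ ∧ ‖f i‖ ≤ ρ) → ‖K - ∑ i, (φ i).smulRight (f i)‖ * ρ ≤ 1 / 2 →
  ‖v - z₀‖ < R / 16 → v ∈ resolventSet ℂ (S + K) → Real.posLog ‖resolvent (S + K) v‖ ≤ a →
  (∀ᵐ w ∂(volume.restrict (ball z₀ (11 * R / 16))), w ∈ resolventSet ℂ (S + K)) ∧
  ∫⁻ w in ball z₀ (11 * R / 16), ENNReal.ofReal (Real.posLog ‖resolvent (S + K) w‖)
    ≤ ENNReal.ofReal (100 * (π * R ^ 2) * (n + 1) ^ 2 * (1 + Real.log ρ) * (1 + a))

/-- the quasi-hyperbolic boundary condition (discrete form) with base points in `G`: every point `z` off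
`E` is reached from a finite set of base points in `G` off `E` by a chain of at most
`C (1 + log⁺ (1/dist(z, E)))` points, each step being at most a quarter of the distance from `E`. -/
def QHb (E G : Set ℂ) : Prop := ∀ r : ℝ, ∃ (B : Finset ℂ) (C : ℝ), (∀ b ∈ B, b ∈ G ∧ b ∉ E) ∧
  ∀ z ∈ ball (0 : ℂ) r, z ∉ E → ∃ (N : ℕ) (c : ℕ → ℂ),
    (N : ℝ) ≤ C * (1 + Real.posLog (infDist z E)⁻¹) ∧ c 0 ∈ B ∧ c N = z ∧
    ∀ j < N, ‖c (j + 1) - c j‖ ≤ infDist (c j) E / 4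

/-- **P_chb3** (chain of averages). Model: Pool/Agent/H277/LL/Chb.lean (the pointwise version `P_chb`).
`d_j = dist(c_j, E)`. Claim: for every `j ≤ N` there is `v_j ∈ ball c_j (d_j/32)` in the resolvent set of `T` with
`x(v_j) ≤ a_j`; `v_0 = c_0 ∈ B` (resolvent set by hypothesis). Step: `P_loc3` with `z₀ = c_j`, `R = d_j/2`,
`d = min 1 (d_j/2)` in `Rate.approx`; `ball c_{j+1} (d_{j+1}/32) ⊆ ball c_j (11 d_j/32)` as `d_{j+1} ≤ (5/4) d_j`; the average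
of `x` over this disc is at most `a' = 100·(16/(3/4))²·(n+1)² (1 + log ρ)(1 + a_j)` (`d_{j+1} ≥ (3/4) d_j`), so there is a point `v_{j+1}` of the
resolvent set in it with `x ≤ a' + 1 =: a_{j+1}`. The rest as in `P_chb`: `log (1 + a_N) ≤ C (1 + log⁺ (1/dist(z,E)))²`; a last
application of `P_loc3` at `c_N = z` (`11 d/32 ≥ d/4`) gives the claim. -/
def P_chb3 : Prop := ∀ (X : Type) [NormedAddCommGroup X] [NormedSpace ℂ X] [CompleteSpace X]
  (S K : X →L[ℂ] X) (E : Set ℂ) (C A : ℝ), IsClosed E → E.Nonempty →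
  QHb E (resolventSet ℂ (S + K)) → Rate S K E C A →
  ∀ r : ℝ, ∃ C' : ℝ, ∀ z ∈ ball (0 : ℂ) r, z ∉ E →
    (∀ᵐ w ∂(volume.restrict (ball z (infDist z E / 4))), w ∈ resolventSet ℂ (S + K)) ∧
    ∫⁻ w in ball z (infDist z E / 4), ENNReal.ofReal (Real.posLog ‖resolvent (S + K) w‖)
      ≤ ENNReal.ofReal (Real.exp (C' * (1 + Real.posLog (infDist z E)⁻¹) ^ 2))

/-- **P_whit** (from averages over Whitney discs to integrability). For `z ∉ E`, `d = dist(z,E)`, apply `P_jen` to the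
measure `(π (d/4)²)⁻¹ · area` on `ball z (d/4)`: the average of `(log⁺ x)^q` is at most `C (1 + log⁺ (1/d))^{2q}`.
Integrate over `z ∈ ball 0 (r+1)` off `E` and exchange the integrals (Tonelli): for `w ∈ ball 0 r` off `E`, with `d' = dist(w,E)`
(and `d' ≤ 4` say; otherwise use discs of radius `min`), the points `z ∈ ball w (min d' 1/8)` satisfy `|z - w| < dist(z,E)/4`, and their share is
bounded below: `∫ (π dist(z,E)²/16)⁻¹ dz ≥ c > 0` as `dist(z,E) ≤ C_r` is comparable with `d'`. Hence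
`∫_{ball 0 r} (log⁺ x)^q ≤ C ∫_{ball 0 (r+1)} (1 + log⁺ (1/dist(z,E)))^{2q} dz < ∞`.
(Any other covering argument is fine.) The second claim: countably many of the discs `ball z (d/4)` cover the
complement of `E` (Lindelöf). -/
def P_whit : Prop := ∀ (x : ℂ → ℝ) (E G : Set ℂ) (q : ℝ), 1 < q → Measurable x → (∀ w, 0 ≤ x w) →
  IsClosed E → E.Nonempty → volume E = 0 →
  (∀ r : ℝ, IntegrableOn (fun z : ℂ => (Real.posLog (infDist z E)⁻¹) ^ (2 * q)) (ball (0 : ℂ) r)) →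
  (∀ r : ℝ, ∃ C' : ℝ, ∀ z ∈ ball (0 : ℂ) r, z ∉ E →
    (∀ᵐ w ∂(volume.restrict (ball z (infDist z E / 4))), w ∈ G) ∧
    ∫⁻ w in ball z (infDist z E / 4), ENNReal.ofReal (x w)
      ≤ ENNReal.ofReal (Real.exp (C' * (1 + Real.posLog (infDist z E)⁻¹) ^ 2))) →
  (∀ r : ℝ, IntegrableOn (fun w : ℂ => (Real.posLog (x w)) ^ q) (ball (0 : ℂ) r)) ∧
  ∀ᵐ w : ℂ, w ∈ G

end Pool.Agent.H933.LL
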