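import Pool.Agent.H933.LL.Pert
import Pool.Agent.H933.LL.Stm6
import Pool.Agent.H784.LL.Cut
import Pool.Agent.H271.LL.Clos
import Pool.Agent.H356.LL.Split
import Pool.Agent.H870.LL.Det
import Pool.Agent.H722.LL.Neg
import Pool.Agent.H955.LL.Fix
import Pool.Agent.H914.LL.Jen
import Pool.Agent.H539.LL.Ae
import Pool.Agent.H548.LL.Nor

/-!
# Decomposability, perturbations, almost all couplings: assembly
-/

set_option autoImplicit false
set_option linter.unusedSectionVars false
set_option linter.unusedVariables false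

open MeasureTheory Metric
open scoped Real InnerProductSpace

namespace Pool.Agent.H933.LL

theorem domar : P_domar := Pool.Agent.H337.LL.p_domar Pool.Agent.H253.LL.p_mean

theorem clos : P_clos := Pool.Agent.H271.LL.p_clos domar

theorem split : P_split := Pool.Agent.H356.LL.p_split (Pool.Agent.H784.LL.p_cut domar)

section Fin2

variable {X : Type} [NormedAddCommGroup X] [NormedSpace ℂ X] [CompleteSpace X]

/-- operators with a log-log-integrable resolvent are decomposable -/
theorem dec (T : X →L[ℂ] X) (q : ℝ) (hq : 1 < q) (hT : LogLog T q) : Decomposable T :=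
  decomposable clos split T q hq hT

/-- almost all couplings -/
theorem ae_dec (S K : X →L[ℂ] X) (E : Set ℂ) (q : ℝ) (hq : 1 < q) (hE : IsClosed E)
    (hne : E.Nonempty) (hthin : LogThin E q)
    (hR : ∀ c : ℝ, 0 < c → ∃ C A : ℝ, Rate S ((c : ℂ) • K) E C A) :
    ∀ᵐ κ : ℂ, LogLog (S + κ • K) q :=
  Pool.Agent.H539.LL.p_ae (Pool.Agent.H955.LL.p_fix Pool.Agent.H870.LL.p_det
    Pool.Agent.H722.LL.p_neg) Pool.Agent.H914.LL.p_jen X S K E q hq hE hne hthin.1 hthin.2 hR

lemma measurable_resolvent_norm (T : X →L[ℂ] X) : Measurable fun z : ℂ => ‖resolvent T z‖ := by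
  classical
  have h1 : ∀ z, resolvent T z = Set.piecewise (resolventSet ℂ T) (resolvent T) (fun _ => 0) z := by
    intro z
    by_cases hz : z ∈ resolventSet ℂ T
    · rw [Set.piecewise_eq_of_mem _ _ _ hz]
    · rw [Set.piecewise_eq_of_notMem _ _ _ hz, resolvent]
      exact Ring.inverse_non_unit _ hz
  have h2 : (fun z : ℂ => resolvent T z)
      = Set.piecewise (resolventSet ℂ T) (resolvent T) (fun _ => 0) := funext h1
  have ho : IsOpen (resolventSet ℂ T) := spectrum.isOpen_resolventSet T
  have h3 : Measurable fun z : ℂ => resolvent T z := by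
    rw [h2]
    refine measurable_of_restrict_of_restrict_compl ho.measurableSet ?_ ?_
    · rw [Set.restrict_piecewise]
      have : ContinuousOn (resolvent T) (resolventSet ℂ T) := fun z hz =>
        (spectrum.hasDerivAt_resolvent_const_left hz).continuousAt.continuousWithinAt
      exact (continuousOn_iff_continuous_restrict.1 this).measurable
    · rw [Set.restrict_piecewise_compl]
      exact measurable_const
  exact h3.norm

/-- far base points are in the resolvent set -/
lemma QHb.of_far {E : Set ℂ} (h : ∀ R₀ : ℝ, QHb E {b : ℂ | R₀ < ‖b‖}) (T : X →L[ℂ] X) :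
    QHb E (resolventSet ℂ T) := by
  intro r
  obtain ⟨B, C, h1, h2⟩ := h (‖T‖ * ‖(1 : X →L[ℂ] X)‖) r
  refine ⟨B, C, fun b hb => ⟨?_, (h1 b hb).2⟩, h2⟩
  have h3 : ‖T‖ * ‖(1 : X →L[ℂ] X)‖ < ‖b‖ := (h1 b hb).1
  exact spectrum.mem_resolventSet_of_norm_lt_mul h3

/-- perturbations, without exceptions -/
theorem pert_logLog (hc : P_chb3) (hw : P_whit) (S K : X →L[ℂ] X) (E : Set ℂ) (C A q : ℝ)
    (hq : 1 < q) (hE : IsClosed E) (hne : E.Nonempty) (hthin : LogThin E (2 * q))
    (hQ : QHb E (resolventSet ℂ (S + K))) (hR : Rate S K E C A) : LogLog (S + K) q := by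
  have hpm : Measurable Real.posLog := Real.continuous_posLog.measurable
  have hm : Measurable fun z : ℂ => Real.posLog ‖resolvent (S + K) z‖ :=
    hpm.comp (measurable_resolvent_norm (S + K))
  obtain ⟨h1, h2⟩ := hw (fun z => Real.posLog ‖resolvent (S + K) z‖) E
    (resolventSet ℂ (S + K)) q hq hm (fun _ => Real.posLog_nonneg) hE hne hthin.1 hthin.2
    (hc X S K E C A hE hne hQ hR)
  refine ⟨?_, h1⟩
  rw [ae_iff] at h2
  exact h2

end Fin2

end Pool.Agent.H933.LL
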