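import Pool.Agent.H933.LL.Fin2
import Pool.Agent.H289.LL.Chb3
import Pool.Agent.H47.LL.Loc3
import Pool.Agent.H17.LL.Whit

/-!
# Additions to the general theorem, final form of the perturbation theorem
-/

set_option autoImplicit false
set_option linter.unusedSectionVars false
set_option linter.unusedVariables false

open MeasureTheory Metric
open scoped Real InnerProductSpace

namespace Pool.Agent.H933.LL

section Gen2

variable {X : Type} [NormedAddCommGroup X] [NormedSpace ℂ X] [CompleteSpace X]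

/-- an infinite chain if the spectrum in `U` is infinite -/
theorem infinite_chain' (T : X →L[ℂ] X) (U : Set ℂ) (hU : IsOpen U) (q : ℝ) (hq : 1 < q)
    (hσ : volume (spectrum ℂ T ∩ U) = 0)
    (hI : IntegrableOn (fun z => (Real.posLog (Real.posLog ‖resolvent T z‖)) ^ q) U)
    (hinf : (spectrum ℂ T ∩ U).Infinite) :
    ∃ V : ℕ → Submodule ℂ X, (∀ n, Hyper T (V n)) ∧ StrictAnti V := by
  obtain ⟨p, -, hacc⟩ := hinf.exists_accPt_of_subset_isCompact (spectrum.isCompact T)
    Set.inter_subset_left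
  rw [accPt_iff_nhds] at hacc
  have hp : ∀ ε : ℝ, 0 < ε → ∃ μ : ℂ, (μ ∈ spectrum ℂ T ∧ μ ∈ U) ∧ μ ≠ p ∧ ‖μ - p‖ < ε := by
    intro ε hε
    obtain ⟨y, ⟨hy1, hy2⟩, hy3⟩ := hacc (ball p ε) (ball_mem_nhds p hε)
    exact ⟨y, hy2, hy3, by rwa [mem_ball, dist_eq_norm] at hy1⟩
  choose! f hf1 hf2 hf3 using hp
  let l : ℕ → ℂ := fun n => Nat.rec (f 1) (fun _ z => f (‖z - p‖ / 4)) n
  have hl0 : l 0 = f 1 := rfl
  have hls : ∀ n, l (n + 1) = f (‖l n - p‖ / 4) := fun n => rfl
  have hpos : ∀ n, 0 < ‖l n - p‖ := by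
    intro n
    induction n with
    | zero => rw [hl0]; exact norm_pos_iff.2 (sub_ne_zero.2 (hf2 _ (by positivity)))
    | succ n ih => rw [hls]; exact norm_pos_iff.2 (sub_ne_zero.2 (hf2 _ (by positivity)))
  have hlσ : ∀ n, l n ∈ spectrum ℂ T ∧ l n ∈ U := by
    intro n
    cases n with
    | zero => rw [hl0]; exact hf1 _ (by positivity)
    | succ n => rw [hls]; exact hf1 _ (by have := hpos n; positivity)
  have hdec : ∀ n, ‖l (n + 1) - p‖ < ‖l n - p‖ / 4 := by
    intro n
    rw [hls]; exact hf3 _ (by have := hpos n; positivity)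
  have hdec' : ∀ m n, m < n → ‖l n - p‖ < ‖l m - p‖ / 4 := by
    intro m n hmn
    induction n with
    | zero => omega
    | succ n ih =>
      rcases Nat.lt_succ_iff_lt_or_eq.1 hmn with h | h
      · have := ih h; have := hdec n; have := hpos n; linarith
      · subst h; exact hdec m
  have hsep : ∀ m n, m < n → ‖l m - p‖ / 4 + ‖l n - p‖ / 4 < ‖l m - l n‖ := by
    intro m n hmn
    have h1 := hdec' m n hmn
    have h2 : ‖l m - p‖ ≤ ‖l m - l n‖ + ‖l n - p‖ := by
      have : l m - p = (l m - l n) + (l n - p) := by ring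
      rw [this]; exact norm_add_le _ _
    have := hpos m
    have := hpos n
    linarith
  have hball : ∀ n, ∃ ρ : ℝ, 0 < ρ ∧ ball (l n) ρ ⊆ U := fun n =>
    Metric.isOpen_iff.1 hU (l n) (hlσ n).2
  choose ρ hρ hρU using hball
  obtain ⟨B, hB1, hB2, hB3⟩ := two_points T U hU q hq hσ hI (ι := ℕ) l
    (fun n => min (‖l n - p‖ / 4) (ρ n)) (fun n => lt_min (by have := hpos n; positivity) (hρ n))
    (fun n => (hlσ n).1)
    (fun n => (ball_subset_ball (min_le_right _ _)).trans (hρU n))
    (fun i j hij => by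
      have h1 := min_le_left (‖l i - p‖ / 4) (ρ i)
      have h2 := min_le_left (‖l j - p‖ / 4) (ρ j)
      rcases lt_or_gt_of_ne hij with h | h
      · have := hsep i j h; linarith
      · have := hsep j i h
        rw [norm_sub_rev (l i) (l j)]; linarith)
  refine ⟨fun n => ⨅ i ∈ Finset.range (n + 1), LinearMap.ker (B i : X →ₗ[ℂ] X), fun n => ⟨?_, ?_⟩, ?_⟩
  · simp only [Submodule.coe_iInf]
    exact isClosed_iInter fun i => isClosed_iInter fun _ => (hyper_ker (hB1 i)).1
  · intro Q hQ x hx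
    simp only [Submodule.mem_iInf] at hx ⊢
    exact fun i hi => (hyper_ker (hB1 i)).2 Q hQ x (hx i hi)
  · refine strictAnti_nat_of_succ_lt fun n => lt_of_le_of_ne ?_ ?_
    · intro x hx
      simp only [Submodule.mem_iInf] at hx ⊢
      exact fun i hi => hx i (by simp only [Finset.mem_range] at hi ⊢; omega)
    · intro heq
      apply hB2 (n + 1)
      ext x
      have h1 : B (n + 1) x ∈ ⨅ i ∈ Finset.range (n + 1), LinearMap.ker (B i : X →ₗ[ℂ] X) := by
        simp only [Submodule.mem_iInf]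
        intro i hi
        simp only [LinearMap.mem_ker, ContinuousLinearMap.coe_coe]
        rw [← mul_apply_eq_comp, hB3 i (n + 1) (by
          simp only [Finset.mem_range] at hi; omega)]
        rfl
      rw [← heq] at h1
      simp only [Submodule.mem_iInf] at h1
      have h2 := h1 (n + 1) (by simp)
      simpa using h2

theorem chb3 : P_chb3 := Pool.Agent.H289.LL.p_chb3
  (Pool.Agent.H47.LL.p_loc3 Pool.Agent.H870.LL.p_det Pool.Agent.H722.LL.p_neg)

theorem whit : P_whit := Pool.Agent.H17.LL.p_whit Pool.Agent.H914.LL.p_jen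

theorem pert_fin (S K : X →L[ℂ] X) (E : Set ℂ) (C A q : ℝ)
    (hq : 1 < q) (hE : IsClosed E) (hne : E.Nonempty) (hthin : LogThin E (2 * q))
    (hQ : QHb E (resolventSet ℂ (S + K))) (hR : Rate S K E C A) : LogLog (S + K) q :=
  pert_logLog chb3 whit S K E C A q hq hE hne hthin hQ hR

end Gen2

end Pool.Agent.H933.LL
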