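import Mathlib

/-!
# Sets of logarithmic capacity zero
-/

set_option autoImplicit false

open MeasureTheory Metric
open scoped Real ENNReal

namespace Pool.Agent.H933.LL

/-- `s` is a null set for every finite measure without atoms, carried by a disc, with bounded logarithmic
potential (logarithmic capacity zero) -/
def CapNull (s : Set ℂ) : Prop := ∀ μ : Measure ℂ, IsFiniteMeasure μ →
  (∃ r : ℝ, μ (ball (0 : ℂ) r)ᶜ = 0) → (∀ a : ℂ, μ {a} = 0) →
  (∃ A : ℝ, ∀ a : ℂ, ∫⁻ κ, ENNReal.ofReal (Real.posLog ‖κ - a‖⁻¹) ∂μ ≤ ENNReal.ofReal A) → μ s = 0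

/-- **P_cap**: sets of capacity zero are null for the area and meet the real line in a null set. Apply the
definition to the area on `ball 0 n` and to the image of the Lebesgue measure on `[-n, n]` under `t ↦ (t : ℂ)` (for this one
`‖κ - a‖ ≥ |κ - a.re|`; `μ s` is an outer measure value: use `toMeasurable` or `Measure.map` and null-measurability:
`{t | (t : ℂ) ∈ s} ⊆ preimage of a measurable μ-null set containing s`). -/
def P_cap : Prop := ∀ s : Set ℂ, CapNull s → volume s = 0 ∧ volume {t : ℝ | (t : ℂ) ∈ s} = 0

end Pool.Agent.H933.LL
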