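import Pool.Agent.H933.LL.Stm8

/-!
# Statements for the local theorem with general rates

`w : (0, 1] → [0, ∞)` measures the logarithm of the rank and the double logarithm of the resolvent of `S` at the
distance `d` from `E` (`w d = log (1/d)` for Schatten classes, `w d = d ^ (-η)` for `s_n(K) = O((log n) ^ (-1/η))`).
-/

set_option autoImplicit false

open MeasureTheory Metric
open scoped Real InnerProductSpace ENNReal

namespace Pool.Agent.H933.LL

/-- `S` and `K` have the rate `w` off the closed set `E` (compare `Rate` in Stm3.lean) -/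
structure RateW {X : Type} [NormedAddCommGroup X] [NormedSpace ℂ X] [CompleteSpace X]
    (S K : X →L[ℂ] X) (E : Set ℂ) (w : ℝ → ℝ) (C : ℝ) : Prop where
  res : ∀ z : ℂ, z ∉ E → z ∈ resolventSet ℂ S
  approx : ∀ d : ℝ, 0 < d → d ≤ 1 → ∃ (n : ℕ) (φ : Fin n → (X →L[ℂ] ℂ)) (f : Fin n → X) (ρ : ℝ),
    1 ≤ ρ ∧ Real.log (n + 1) ≤ C * (1 + w d) ∧ Real.log (1 + Real.log ρ) ≤ C * (1 + w d) ∧
    (∀ i, ‖φ i‖ ≤ ρ ∧ ‖f i‖ ≤ ρ) ∧ (∀ z : ℂ, d ≤ infDist z E → ‖resolvent S z‖ ≤ ρ) ∧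
    ‖K - ∑ i, (φ i).smulRight (f i)‖ * ρ ≤ 1 / 2

/-- every point `z ∈ V` off `E` is reached from a finite set of base points in `G` off `E` by a chain, each
step being at most a quarter of the distance from `E`, of cost `∑ (1 + w (min 1 (dist/2))) ≤ C (1 + g z)` -/
def Chains (E G V : Set ℂ) (w : ℝ → ℝ) (g : ℂ → ℝ) : Prop := ∃ (B : Finset ℂ) (C : ℝ),
  (∀ b ∈ B, b ∈ G ∧ b ∉ E) ∧ ∀ z ∈ V, z ∉ E → ∃ (N : ℕ) (c : ℕ → ℂ),
    ∑ j ∈ Finset.range (N + 1), (1 + w (min 1 (infDist (c j) E / 2))) ≤ C * (1 + g z) ∧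
    c 0 ∈ B ∧ c N = z ∧ ∀ j < N, ‖c (j + 1) - c j‖ ≤ infDist (c j) E / 4

/-- **P_chb5**: local variant of `P_chb4` (Stm8.lean; proved in Pool/Agent/H353/LL/Chb4.lean) with the rate `w`. The
logarithm of the factor of one step (`P_loc3` at `c_j`, `R = d_j/2`, `d = min 1 (d_j/2)`) is at most
`const + 2 log (n+1) + log (1 + log ρ) ≤ C'' (1 + w (min 1 (d_j/2)))`. -/
def P_chb5 : Prop := ∀ (X : Type) [NormedAddCommGroup X] [NormedSpace ℂ X] [CompleteSpace X]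
  (S K : X →L[ℂ] X) (E : Set ℂ) (w : ℝ → ℝ) (C : ℝ) (g : ℂ → ℝ) (l : ℂ) (r : ℝ), IsClosed E →
  E.Nonempty → (∀ d, 0 ≤ w d) → (∀ z, 0 ≤ g z) → Chains E (resolventSet ℂ (S + K)) (ball l r) w g →
  RateW S K E w C → ∃ C' : ℝ, ∀ z ∈ ball l r, z ∉ E →
    (∀ᵐ v ∂(volume.restrict (ball z (infDist z E / 4))), v ∈ resolventSet ℂ (S + K)) ∧
    ∫⁻ v in ball z (infDist z E / 4), ENNReal.ofReal (Real.posLog ‖resolvent (S + K) v‖)
      ≤ ENNReal.ofReal (Real.exp (C' * (1 + g z)))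

/-- **P_whit5**: local variant of `P_whit4` (Stm8.lean; proved in Pool/Agent/H662/LL/Whit4.lean): hypotheses on
`ball l r`, conclusion on `ball l (r/2)` (for `v ∈ ball l (r/2)` off `E` use the points `z` with
`|z - v| ≤ min (dist(v,E)) r / 8`). -/
def P_whit5 : Prop := ∀ (x g : ℂ → ℝ) (E G : Set ℂ) (q : ℝ) (l : ℂ) (r : ℝ), 1 < q → 0 < r →
  Measurable x → (∀ v, 0 ≤ x v) → IsClosed E → E.Nonempty → volume (E ∩ ball l r) = 0 →
  Measurable g → (∀ v, 0 ≤ g v) → IntegrableOn (fun z : ℂ => g z ^ q) (ball l r) →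
  IntegrableOn (fun z : ℂ => (Real.posLog (infDist z E)⁻¹) ^ q) (ball l r) →
  (∃ C' : ℝ, ∀ z ∈ ball l r, z ∉ E →
    (∀ᵐ v ∂(volume.restrict (ball z (infDist z E / 4))), v ∈ G) ∧
    ∫⁻ v in ball z (infDist z E / 4), ENNReal.ofReal (x v)
      ≤ ENNReal.ofReal (Real.exp (C' * (1 + g z)))) →
  IntegrableOn (fun v : ℂ => (Real.posLog (x v)) ^ q) (ball l (r / 2)) ∧
  ∀ᵐ v ∂(volume.restrict (ball l (r / 2))), v ∈ G

/-- **P_aeloc**: local variant of `P_aemu` (Stm8.lean; proved in Pool/Agent/H390/LL/Aemu.lean) with the rate `w`: by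
`P_fixmu` `∫ log⁺ ‖(z - S - κK)⁻¹‖ dμ(κ) ≤ C₁ (n+1)² (1 + log ρ) ≤ exp (C₂ (1 + w (min 1 (dist(z,E)))))`. -/
def P_aeloc : Prop := ∀ (X : Type) [NormedAddCommGroup X] [NormedSpace ℂ X] [CompleteSpace X]
  (S K : X →L[ℂ] X) (E : Set ℂ) (w : ℝ → ℝ) (q : ℝ) (l : ℂ) (R : ℝ), 1 < q → IsClosed E →
  E.Nonempty → (∀ d, 0 ≤ w d) → volume (E ∩ ball l R) = 0 →
  IntegrableOn (fun z : ℂ => (w (min 1 (infDist z E))) ^ q) (ball l R) →
  (∀ c : ℝ, 0 < c → ∃ C : ℝ, RateW S ((c : ℂ) • K) E w C) →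
  ∀ (μ : Measure ℂ) (r A : ℝ), 0 < r → 0 ≤ A → Pot μ r A →
    ∀ᵐ κ ∂μ, volume (spectrum ℂ (S + κ • K) ∩ ball l R) = 0 ∧
      IntegrableOn (fun z => (Real.posLog (Real.posLog ‖resolvent (S + κ • K) z‖)) ^ q) (ball l R)

/-- `s_n(K) = O((log n) ^ (-1/η))`: `K` has a singular value decomposition, at most `exp (C δ ^ (-η))` singular
values are greater than `δ` -/
def LogSchatten {H : Type} [NormedAddCommGroup H] [InnerProductSpace ℂ H] (K : H →L[ℂ] H) (η : ℝ) :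
    Prop :=
  ∃ (ι : Type) (e f : ι → H) (s : ι → ℝ), Orthonormal ℂ e ∧ Orthonormal ℂ f ∧ (∀ i, 0 ≤ s i) ∧
    (∃ C : ℝ, ∀ δ : ℝ, 0 < δ → δ ≤ 1 → {i | δ < s i}.Finite ∧
      ({i | δ < s i}.ncard : ℝ) ≤ Real.exp (C * δ ^ (-η))) ∧
    ∀ x, HasSum (fun i => ((s i : ℂ) * ⟪e i, x⟫_ℂ) • f i) (K x)

/-- **P_nor5**: variant of `P_nor` (Stm3.lean; proved in Pool/Agent/H548/LL/Nor.lean); `ρ = 1/d + ‖c K‖ + 1`,
`I = {i : c s_i > 1/(2ρ)}`. And Schatten classes: at most `δ^(-p) ∑ s^p` singular values are greater than `δ`. And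
compactness: `K` is the norm limit of operators of finite rank. -/
def P_nor5 : Prop :=
  (∀ (H : Type) [NormedAddCommGroup H] [InnerProductSpace ℂ H] [CompleteSpace H]
    (N K : H →L[ℂ] H) (E : Set ℂ) (η : ℝ), IsStarNormal N → IsClosed E → E.Nonempty →
    spectrum ℂ N ⊆ E → 0 < η → LogSchatten K η →
    ∀ c : ℝ, 0 < c → ∃ C : ℝ, RateW N ((c : ℂ) • K) E (fun d => d ^ (-η)) C) ∧
  (∀ (H : Type) [NormedAddCommGroup H] [InnerProductSpace ℂ H] [CompleteSpace H]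
    (K : H →L[ℂ] H) (p η : ℝ), 0 < p → 0 < η → Schatten K p → LogSchatten K η) ∧
  ∀ (H : Type) [NormedAddCommGroup H] [InnerProductSpace ℂ H] [CompleteSpace H]
    (K : H →L[ℂ] H) (η : ℝ), 0 < η → LogSchatten K η → IsCompactOperator K

/-- **P_weyl**: accumulation points of the spectrum of a normal operator stay in the spectrum under compact
perturbations. Proof: let `μ_n → l` be distinct points of `σ(N)`, `f_n ≥ 0` continuous with disjoint supports,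
`f_n(μ_n) = 1`, supported in small discs around `μ_n` (radius tending to `0`); `f_n(N) ≠ 0` (continuous functional
calculus, `cfc`), `f_n(N) f_m(N) = 0`; unit vectors `x_n` in the closed range of `f_n(N)` (e.g. normalized `f_n(N) y`) are
orthonormal and `‖(N - l) x_n‖ → 0` (with `h_n = 1` on the support of `f_n`, `(N - l) x_n = ((· - l) h_n)(N) x_n`). So `x_n → 0`
weakly, `K x_n → 0` for a subsequence (compactness: `K x_n` has a convergent subsequence with limit `0`, as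
`⟪K x_n, y⟫ = ⟪x_n, K† y⟫ → 0` by Bessel), hence `(N + K - l) x_n → 0` along it and `N + K - l` is not invertible. -/
def P_weyl : Prop := ∀ (H : Type) [NormedAddCommGroup H] [InnerProductSpace ℂ H] [CompleteSpace H]
  (N K : H →L[ℂ] H) (l : ℂ), IsStarNormal N → IsCompactOperator K →
  (∀ ε : ℝ, 0 < ε → ∃ μ ∈ spectrum ℂ N, μ ≠ l ∧ ‖μ - l‖ < ε) → l ∈ spectrum ℂ (N + K)

/-- **P_gloc** (local, with the cost `w d = d ^ (-η)`, `η < 2 α - 1`): near `l` the closed set `E` is the graph of a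
Hölder function of order `α` in the coordinates `u z`, `|u| = 1`. Variant of `P_graph` (Stm8.lean; proved in
Pool/Agent/H295/LL/Graph.lean; rotate by `u` first). For `z ∈ ball l ρ`, `ρ` small, `h` = the vertical distance from the
graph; chain: up to the height `R'` above the graph (`R' ≪ R`), inside of `ball l (R/2)`, where
`dist(·, E) ≥ min(dist(·, graph), R/2) ≥ c min(t,1)^p`, `p = 1/α`; then in a bounded number of steps to one of finitely
many base points (e.g. two, one above and one below the graph). The cost of the heights `t ≤ R'` is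
`∑_j t_j^(-pη) ≤ C ∑_j t_j^(-pη-p) (t_{j+1} - t_j) ≤ C' h^(1 - p(1+η))`, and `p (1 + η) - 1 < 1`. Take
`g z = C h^(1-p(1+η))` (`0` for `h = 0`), `q > 1` close to `1`. -/
def P_gloc : Prop := ∀ (φ : ℝ → ℝ) (L α η R : ℝ) (u l : ℂ) (E : Set ℂ), 1 / 2 < α → α ≤ 1 →
  0 < η → η < 2 * α - 1 → (∀ s t : ℝ, |φ s - φ t| ≤ L * |s - t| ^ α) → IsClosed E → E.Nonempty →
  ‖u‖ = 1 → 0 < R → (∀ z ∈ ball l R, z ∈ E ↔ (u * z).im = φ (u * z).re) →
  ∃ (ρ q : ℝ) (g : ℂ → ℝ), 0 < ρ ∧ 1 < q ∧ volume (E ∩ ball l ρ) = 0 ∧ Measurable g ∧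
    (∀ z, 0 ≤ g z) ∧ IntegrableOn (fun z : ℂ => g z ^ q) (ball l ρ) ∧
    IntegrableOn (fun z : ℂ => (Real.posLog (infDist z E)⁻¹) ^ q) (ball l ρ) ∧
    Chains E Set.univ (ball l ρ) (fun d => d ^ (-η)) g

/-- **P_glue5**: from local integrability at the points of the spectrum (compact; cover it by finitely many of the
discs, `q` = the smallest of the exponents, `x^q ≤ 1 + x^(q_i)`; on the rest of a disc the resolvent is bounded by
compactness) to `LogLog`. -/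
def P_glue5 : Prop := ∀ (X : Type) [NormedAddCommGroup X] [NormedSpace ℂ X] [CompleteSpace X]
  (T : X →L[ℂ] X), (∀ l ∈ spectrum ℂ T, ∃ q r : ℝ, 1 < q ∧ 0 < r ∧
    volume (spectrum ℂ T ∩ ball l r) = 0 ∧
    IntegrableOn (fun z => (Real.posLog (Real.posLog ‖resolvent T z‖)) ^ q) (ball l r)) →
  ∃ q : ℝ, 1 < q ∧ LogLog T q

/-- **P_box5**: if the `δ`-neighbourhood of `E` has area at most `C δ^ε`, then `dist(z,E)^(-s)` is integrable over discs for
`0 < s < ε` (layers). -/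
def P_box5 : Prop := ∀ (E : Set ℂ) (C ε s r : ℝ), 0 < s → s < ε →
  (∀ δ : ℝ, 0 < δ → δ ≤ 1 → volume {z : ℂ | infDist z E ≤ δ} ≤ ENNReal.ofReal (C * δ ^ ε)) →
  IntegrableOn (fun z : ℂ => (infDist z E) ^ (-s)) (ball (0 : ℂ) r)

end Pool.Agent.H933.LL
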