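import Pool.Agent.H933.LL.Gen2
import Pool.Agent.H933.LL.Stm9
import Pool.Agent.H933.LL.Stm10
import Pool.Agent.H591.LL.Harn
import Pool.Agent.H183.LL.Loc2

/-!
# The local theorem and its consequences for perturbations
-/

set_option autoImplicit false
set_option linter.unusedSectionVars false
set_option linter.unusedVariables false

open MeasureTheory Metric
open scoped Real InnerProductSpace ENNReal

namespace Pool.Agent.H933.LL

section Local

variable {X : Type} [NormedAddCommGroup X] [NormedSpace ℂ X] [CompleteSpace X]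

/-- the condition at a point -/
def LogLogAt (T : X →L[ℂ] X) (l : ℂ) : Prop := ∃ q r : ℝ, 1 < q ∧ 0 < r ∧
  volume (spectrum ℂ T ∩ ball l r) = 0 ∧
  IntegrableOn (fun z => (Real.posLog (Real.posLog ‖resolvent T z‖)) ^ q) (ball l r)

lemma LogLogAt.small {T : X →L[ℂ] X} {l : ℂ} (h : LogLogAt T l) (ρ : ℝ) (hρ : 0 < ρ) :
    ∃ q r : ℝ, 1 < q ∧ 0 < r ∧ r ≤ ρ ∧ volume (spectrum ℂ T ∩ ball l r) = 0 ∧
      IntegrableOn (fun z => (Real.posLog (Real.posLog ‖resolvent T z‖)) ^ q) (ball l r) := by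
  obtain ⟨q, r, hq, hr, h1, h2⟩ := h
  refine ⟨q, min r ρ, hq, lt_min hr hρ, min_le_right _ _, ?_, ?_⟩
  · exact measure_mono_null (Set.inter_subset_inter_right _ (ball_subset_ball (min_le_left _ _))) h1
  · exact h2.mono_set (ball_subset_ball (min_le_left _ _))

theorem two_points' (T : X →L[ℂ] X) {ι : Type} (l : ι → ℂ) (r : ι → ℝ) (hr : ∀ i, 0 < r i)
    (hl : ∀ i, l i ∈ spectrum ℂ T) (hL : ∀ i, LogLogAt T (l i))
    (hd : ∀ i j, i ≠ j → r i + r j < ‖l i - l j‖) :
    ∃ B : ι → (X →L[ℂ] X), (∀ i, Bicomm T (B i)) ∧ (∀ i, B i * B i ≠ 0) ∧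
      ∀ i j, i ≠ j → B i * B j = 0 := by
  choose q s hq hs hsr hσ hI using fun i => (hL i).small (r i) (hr i)
  choose h hh using fun i => exists_adm T (l i) (s i) (q i) (hs i) (hq i) (hl i) (hσ i) (hI i)
  refine ⟨fun i => Op T (l i) (s i) (h i), fun i Q hQ =>
    Pool.Agent.H571.LL.p_comm X T _ _ _ (hσ i) (hh i) Q hQ, fun i =>
    Pool.Agent.H665.LL.p_sq X T _ _ _ (hs i) (hl i) (hσ i) (hh i), fun i j hij =>
    Pool.Agent.H122.LL.p_prod X T _ _ _ _ _ _ (hs i) (hs j) ?_ (hσ i) (hσ j)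
      (hh i) (hh j)⟩
  have := hd i j hij
  have := hsr i
  have := hsr j
  linarith

/-- localized operators -/
theorem localized' (T : X →L[ℂ] X) (l : ℂ) (hl : l ∈ spectrum ℂ T) (hL : LogLogAt T l) (ε : ℝ)
    (hε : 0 < ε) : ∃ B : X →L[ℂ] X, Bicomm T B ∧ B * B ≠ 0 ∧
      ∃ C : ℝ, ∀ n : ℕ, ‖(T - l • (1 : X →L[ℂ] X)) ^ n * B‖ ≤ C * ε ^ n := by
  obtain ⟨q, r, hq, hr, h1, h2⟩ := hL
  exact localized T (ball l r) isOpen_ball q hq h1 h2 l hl (mem_ball_self hr) ε hε

theorem nontrivial_hyper' (T : X →L[ℂ] X) (a b : ℂ) (hab : a ≠ b) (ha : a ∈ spectrum ℂ T)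
    (hb : b ∈ spectrum ℂ T) (hA : LogLogAt T a) (hB : LogLogAt T b) :
    ∃ V : Submodule ℂ X, Hyper T V ∧ V ≠ ⊥ ∧ V ≠ ⊤ := by
  have hd : 0 < ‖a - b‖ := norm_pos_iff.2 (sub_ne_zero.2 hab)
  obtain ⟨B, hB1, hB2, hB3⟩ := two_points' T (ι := Bool)
    (fun i => if i then a else b) (fun _ => ‖a - b‖ / 3) (fun _ => by positivity)
    (fun i => by cases i <;> simp [ha, hb])
    (fun i => by cases i <;> simp [hA, hB])
    (fun i j hij => by
      cases i <;> cases j
      · exact absurd rfl hij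
      · simp only [Bool.false_eq_true, if_false, if_true]
        rw [norm_sub_rev b a]; linarith
      · simp only [Bool.false_eq_true, if_false, if_true]
        linarith
      · exact absurd rfl hij)
  refine ⟨LinearMap.ker (B true : X →ₗ[ℂ] X), hyper_ker (hB1 true), ?_, ?_⟩
  · intro hbot
    have hne : B false ≠ 0 := fun h0 => hB2 false (by rw [h0, mul_zero])
    apply hne
    ext x
    have : B false x ∈ LinearMap.ker (B true : X →ₗ[ℂ] X) := by
      simp only [LinearMap.mem_ker, ContinuousLinearMap.coe_coe]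
      rw [← mul_apply_eq_comp, hB3 true false (by decide)]
      rfl
    rw [hbot, Submodule.mem_bot] at this
    simpa using this
  · intro htop
    have hne : B true ≠ 0 := fun h0 => hB2 true (by rw [h0, mul_zero])
    apply hne
    ext x
    have : x ∈ LinearMap.ker (B true : X →ₗ[ℂ] X) := by rw [htop]; trivial
    simpa using this

theorem infinite_chain_at (T : X →L[ℂ] X)
    (hinf : {l : ℂ | l ∈ spectrum ℂ T ∧ LogLogAt T l}.Infinite) :
    ∃ V : ℕ → Submodule ℂ X, (∀ n, Hyper T (V n)) ∧ StrictAnti V := by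
  obtain ⟨p, -, hacc⟩ := hinf.exists_accPt_of_subset_isCompact (spectrum.isCompact T)
    (fun z hz => hz.1)
  rw [accPt_iff_nhds] at hacc
  have hp : ∀ ε : ℝ, 0 < ε → ∃ μ : ℂ, (μ ∈ spectrum ℂ T ∧ LogLogAt T μ) ∧ μ ≠ p ∧ ‖μ - p‖ < ε := by
    intro ε hε
    obtain ⟨y, ⟨hy1, hy2⟩, hy3⟩ := hacc (ball p ε) (ball_mem_nhds p hε)
    exact ⟨y, hy2, hy3, by rwa [mem_ball, dist_eq_norm] at hy1⟩
  choose! f hf1 hf2 hf3 using hp
  let l : ℕ → ℂ := fun n => Nat.rec (f 1) (fun _ z => f (‖z - p‖ / 4)) n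
  have hl0 : l 0 = f 1 := rfl
  have hls : ∀ n, l (n + 1) = f (‖l n - p‖ / 4) := fun n => rfl
  have hpos : ∀ n, 0 < ‖l n - p‖ := by
    intro n
    induction n with
    | zero => rw [hl0]; exact norm_pos_iff.2 (sub_ne_zero.2 (hf2 _ (by positivity)))
    | succ n ih => rw [hls]; exact norm_pos_iff.2 (sub_ne_zero.2 (hf2 _ (by positivity)))
  have hlσ : ∀ n, l n ∈ spectrum ℂ T ∧ LogLogAt T (l n) := by
    intro n
    cases n with
    | zero => rw [hl0]; exact hf1 _ (by positivity)
    | succ n => rw [hls]; exact hf1 _ (by have := hpos n; positivity)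
  have hdec : ∀ n, ‖l (n + 1) - p‖ < ‖l n - p‖ / 4 := by
    intro n
    rw [hls]; exact hf3 _ (by have := hpos n; positivity)
  have hdec' : ∀ m n, m < n → ‖l n - p‖ < ‖l m - p‖ / 4 := by
    intro m n hmn
    induction n with
    | zero => omega
    | succ n ih =>
      rcases Nat.lt_succ_iff_lt_or_eq.1 hmn with h | h
      · have := ih h; have := hdec n; have := hpos n; linarith
      · subst h; exact hdec m
  have hsep : ∀ m n, m < n → ‖l m - p‖ / 4 + ‖l n - p‖ / 4 < ‖l m - l n‖ := by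
    intro m n hmn
    have h1 := hdec' m n hmn
    have h2 : ‖l m - p‖ ≤ ‖l m - l n‖ + ‖l n - p‖ := by
      have : l m - p = (l m - l n) + (l n - p) := by ring
      rw [this]; exact norm_add_le _ _
    have := hpos m
    have := hpos n
    linarith
  obtain ⟨B, hB1, hB2, hB3⟩ := two_points' T (ι := ℕ) l
    (fun n => ‖l n - p‖ / 4) (fun n => by have := hpos n; positivity)
    (fun n => (hlσ n).1) (fun n => (hlσ n).2)
    (fun i j hij => by
      rcases lt_or_gt_of_ne hij with h | h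
      · exact hsep i j h
      · have := hsep j i h
        rw [norm_sub_rev (l i) (l j)]; linarith)
  refine ⟨fun n => ⨅ i ∈ Finset.range (n + 1), LinearMap.ker (B i : X →ₗ[ℂ] X), fun n => ⟨?_, ?_⟩, ?_⟩
  · simp only [Submodule.coe_iInf]
    exact isClosed_iInter fun i => isClosed_iInter fun _ => (hyper_ker (hB1 i)).1
  · intro Q hQ x hx
    simp only [Submodule.mem_iInf] at hx ⊢
    exact fun i hi => (hyper_ker (hB1 i)).2 Q hQ x (hx i hi)
  · refine strictAnti_nat_of_succ_lt fun n => lt_of_le_of_ne ?_ ?_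
    · intro x hx
      simp only [Submodule.mem_iInf] at hx ⊢
      exact fun i hi => hx i (by simp only [Finset.mem_range] at hi ⊢; omega)
    · intro heq
      apply hB2 (n + 1)
      ext x
      have h1 : B (n + 1) x ∈ ⨅ i ∈ Finset.range (n + 1), LinearMap.ker (B i : X →ₗ[ℂ] X) := by
        simp only [Submodule.mem_iInf]
        intro i hi
        simp only [LinearMap.mem_ker, ContinuousLinearMap.coe_coe]
        rw [← mul_apply_eq_comp, hB3 i (n + 1) (by
          simp only [Finset.mem_range] at hi; omega)]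
        rfl
      rw [← heq] at h1
      simp only [Submodule.mem_iInf] at h1
      have h2 := h1 (n + 1) (by simp)
      simpa using h2

theorem dec_at (hg : P_glue5) (T : X →L[ℂ] X) (h : ∀ l ∈ spectrum ℂ T, LogLogAt T l) :
    Decomposable T := by
  obtain ⟨q, hq, hL⟩ := hg X T h
  exact dec T q hq hL

end Local

section Pert

variable {X : Type} [NormedAddCommGroup X] [NormedSpace ℂ X] [CompleteSpace X]

theorem pert_at (hc : P_chb5) (hw : P_whit5) (S K : X →L[ℂ] X) (E : Set ℂ) (w : ℝ → ℝ) (C : ℝ)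
    (g : ℂ → ℝ) (l : ℂ) (r q : ℝ) (hq : 1 < q) (hr : 0 < r) (hE : IsClosed E) (hne : E.Nonempty)
    (hw0 : ∀ d, 0 ≤ w d) (hg0 : ∀ z, 0 ≤ g z) (hgm : Measurable g)
    (hnull : volume (E ∩ ball l r) = 0) (hgI : IntegrableOn (fun z : ℂ => g z ^ q) (ball l r))
    (hdI : IntegrableOn (fun z : ℂ => (Real.posLog (infDist z E)⁻¹) ^ q) (ball l r))
    (hch : Chains E (resolventSet ℂ (S + K)) (ball l r) w g) (hR : RateW S K E w C) :
    LogLogAt (S + K) l := by
  have hpm : Measurable Real.posLog := Real.continuous_posLog.measurable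
  have hm : Measurable fun z : ℂ => Real.posLog ‖resolvent (S + K) z‖ :=
    hpm.comp (measurable_resolvent_norm (S + K))
  obtain ⟨h1, h2⟩ := hw (fun z => Real.posLog ‖resolvent (S + K) z‖) g E
    (resolventSet ℂ (S + K)) q l r hq hr hm (fun _ => Real.posLog_nonneg) hE hne hnull hgm hg0
    hgI hdI (hc X S K E w C g l r hE hne hw0 hg0 hch hR)
  refine ⟨q, r / 2, hq, by positivity, ?_, h1⟩
  have h3 : (volume.restrict (ball l (r / 2))) (spectrum ℂ (S + K)) = 0 := by
    rw [ae_iff] at h2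
    exact h2
  rwa [Measure.restrict_apply (spectrum.isClosed (S + K)).measurableSet] at h3

/-- base points may be moved into a dense set -/
lemma Chains.dense {E G V : Set ℂ} {w : ℝ → ℝ} {g : ℂ → ℝ} (hE : IsClosed E) (hne : E.Nonempty)
    (hw0 : ∀ d, 0 ≤ w d) (hg0 : ∀ z, 0 ≤ g z) (hG : Dense G) (h : Chains E Set.univ V w g) :
    Chains E G V w g := by
  classical
  obtain ⟨B, C, hB, hch⟩ := h
  have hB' : ∀ b ∈ B, ∃ b' : ℂ, b' ∈ G ∧ b' ∉ E ∧ ‖b - b'‖ ≤ infDist b' E / 4 := by
    intro b hb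
    have hd : 0 < infDist b E := (hE.notMem_iff_infDist_pos hne).1 (hB b hb).2
    obtain ⟨b', hb'1, hb'2⟩ := hG.exists_dist_lt b (show 0 < infDist b E / 8 by positivity)
    rw [dist_eq_norm] at hb'2
    have h1 : infDist b E ≤ infDist b' E + ‖b - b'‖ := by
      rw [← dist_eq_norm]; exact infDist_le_infDist_add_dist
    have h2 : 7 / 8 * infDist b E ≤ infDist b' E := by linarith
    refine ⟨b', hb'1, ?_, by linarith⟩
    rw [hE.notMem_iff_infDist_pos hne]
    linarith
  choose! f hf1 hf2 hf3 using hB'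
  set M : ℝ := ∑ b ∈ B, (1 + w (min 1 (infDist (f b) E / 2))) with hM
  have hterm : ∀ b, 0 ≤ 1 + w (min 1 (infDist (f b) E / 2)) := fun b => by
    have := hw0 (min 1 (infDist (f b) E / 2)); linarith
  have hM0 : 0 ≤ M := Finset.sum_nonneg fun b _ => hterm b
  refine ⟨B.image f, max C 0 + M, ?_, ?_⟩
  · intro b hb
    obtain ⟨b0, hb0, rfl⟩ := Finset.mem_image.1 hb
    exact ⟨hf1 b0 hb0, hf2 b0 hb0⟩
  · intro z hz hzE
    obtain ⟨N, c, h1, h2, h3, h4⟩ := hch z hz hzE
    refine ⟨N + 1, fun j => if j = 0 then f (c 0) else c (j - 1), ?_, ?_, ?_, ?_⟩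
    · rw [Finset.sum_range_succ']
      simp only [Nat.add_sub_cancel, if_true]
      have hif : ∀ j : ℕ, (if j + 1 = 0 then f (c 0) else c j) = c j := fun j => by simp
      simp only [hif]
      have h5 : 1 + w (min 1 (infDist (f (c 0)) E / 2)) ≤ M :=
        Finset.single_le_sum (f := fun b => 1 + w (min 1 (infDist (f b) E / 2)))
          (fun b _ => hterm b) h2
      have h6 := hg0 z
      have h7 : C * (1 + g z) ≤ max C 0 * (1 + g z) :=
        mul_le_mul_of_nonneg_right (le_max_left _ _) (by linarith)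
      have h8 : M ≤ M * (1 + g z) := by nlinarith
      nlinarith
    · simp only [if_true]
      exact Finset.mem_image_of_mem f h2
    · simp [h3]
    · intro j hj
      rcases Nat.eq_zero_or_pos j with rfl | hj0
      · simpa using hf3 (c 0) h2
      · obtain ⟨k, rfl⟩ : ∃ k, j = k + 1 := ⟨j - 1, by omega⟩
        simpa using h4 k (by omega)

/-- without eigenvalues off `E` there is no spectrum off `E` -/
theorem res_of_no_eig (S K : X →L[ℂ] X) (E : Set ℂ) (w : ℝ → ℝ) (C : ℝ) (hE : IsClosed E)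
    (hne : E.Nonempty) (hR : RateW S K E w C)
    (hno : ∀ v : ℂ, v ∉ E → ∀ x : X, (S + K) x = v • x → x = 0) :
    ∀ v : ℂ, v ∉ E → v ∈ resolventSet ℂ (S + K) := by
  intro v hv
  set δ := infDist v E with hδ
  have hδ0 : 0 < δ := (hE.notMem_iff_infDist_pos hne).1 hv
  have hin : ∀ u ∈ ball v (δ / 2), δ / 2 ≤ infDist u E := by
    intro u hu
    rw [mem_ball, dist_comm] at hu
    have : infDist v E ≤ infDist u E + dist v u := infDist_le_infDist_add_dist
    linarith
  obtain ⟨n, φ, f, ρ, h1, h2, h3, h4, h5, h6⟩ := hR.approx (min 1 (δ / 2))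
    (lt_min one_pos (by positivity)) (min_le_left _ _)
  refine (Pool.Agent.H183.LL.p_loc2 Pool.Agent.H870.LL.p_det Pool.Agent.H591.LL.p_harn X S K v
    (δ / 2) ρ n φ f (by positivity) h1 (fun u hu => ⟨hR.res u ?_, h5 u ?_⟩) h4 h6 ?_).1 v
    (mem_ball_self (by positivity))
  · rw [hE.notMem_iff_infDist_pos hne]
    have := hin u hu; linarith
  · exact (min_le_right _ _).trans (hin u hu)
  · intro u hu x hx
    refine hno u ?_ x hx
    rw [hE.notMem_iff_infDist_pos hne]
    have := hin u hu; linarith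

/-- an eigenvalue gives a hyperinvariant subspace -/
theorem hyper_of_eig (T : X →L[ℂ] X) (v : ℂ) (x : X) (hx : x ≠ 0) (hv : T x = v • x)
    (hn : (spectrum ℂ T).Nontrivial) : ∃ V : Submodule ℂ X, Hyper T V ∧ V ≠ ⊥ ∧ V ≠ ⊤ := by
  refine ⟨LinearMap.ker ((T - v • (1 : X →L[ℂ] X) : X →L[ℂ] X) : X →ₗ[ℂ] X),
    ⟨isClosed_eq (T - v • (1 : X →L[ℂ] X)).continuous continuous_const, fun Q hQ y hy => ?_⟩,
    ?_, ?_⟩
  · simp only [LinearMap.mem_ker, ContinuousLinearMap.coe_coe] at hy ⊢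
    have h3 : T (Q y) = Q (T y) := by
      have := congrArg (fun A : X →L[ℂ] X => A y) hQ
      simpa using this.symm
    have h4 : T y = v • y := by
      have : T y - v • y = 0 := by simpa using hy
      exact sub_eq_zero.1 this
    change T (Q y) - v • Q y = 0
    rw [h3, h4, map_smul, sub_self]
  · intro hbot
    apply hx
    have : x ∈ LinearMap.ker ((T - v • (1 : X →L[ℂ] X) : X →L[ℂ] X) : X →ₗ[ℂ] X) := by
      simp only [LinearMap.mem_ker, ContinuousLinearMap.coe_coe]
      change T x - v • x = 0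
      rw [hv, sub_self]
    rw [hbot, Submodule.mem_bot] at this
    exact this
  · intro htop
    have hTw : T = v • (1 : X →L[ℂ] X) := by
      ext y
      have : y ∈ LinearMap.ker ((T - v • (1 : X →L[ℂ] X) : X →L[ℂ] X) : X →ₗ[ℂ] X) := by
        rw [htop]; trivial
      simp only [LinearMap.mem_ker, ContinuousLinearMap.coe_coe] at this
      have h5 : T y - v • y = 0 := this
      exact sub_eq_zero.1 h5
    obtain ⟨a, ha, b, hb, hab⟩ := hn
    have hone : ∀ a ∈ spectrum ℂ T, a = v := by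
      intro a ha
      by_contra haw
      apply ha
      rw [hTw]
      change IsUnit (algebraMap ℂ (X →L[ℂ] X) a - v • (1 : X →L[ℂ] X))
      rw [Algebra.algebraMap_eq_smul_one, ← sub_smul, ← Algebra.algebraMap_eq_smul_one]
      exact (isUnit_iff_ne_zero.2 (sub_ne_zero.2 haw)).map (algebraMap ℂ (X →L[ℂ] X))
    exact hab ((hone a ha).trans (hone b hb).symm)

end Pert

end Pool.Agent.H933.LL
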