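import Pool.Agent.H933.LL.Loc
import Pool.Agent.H295.LL.Graph

/-!
# Perturbations: graphs, all couplings outside a set of capacity zero
-/

set_option autoImplicit false
set_option linter.unusedSectionVars false
set_option linter.unusedVariables false

open MeasureTheory Metric
open scoped Real InnerProductSpace ENNReal

namespace Pool.Agent.H933.LL

/-- near `l` the set `E` lies on the graph of a Hölder function of order `α > (1 + η)/2` in the coordinates
`u z` -/
def GraphAt (E : Set ℂ) (l : ℂ) (η : ℝ) : Prop := ∃ (φ : ℝ → ℝ) (L α R : ℝ) (u : ℂ),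
  1 / 2 < α ∧ α ≤ 1 ∧ η < 2 * α - 1 ∧ (∀ s t : ℝ, |φ s - φ t| ≤ L * |s - t| ^ α) ∧ ‖u‖ = 1 ∧
  0 < R ∧ ∀ z ∈ E, z ∈ ball l R → (u * z).im = φ (u * z).re

lemma Chains.congr {E G V : Set ℂ} {w w' : ℝ → ℝ} {g : ℂ → ℝ} (hw : ∀ d, 0 ≤ d → w d = w' d)
    (h : Chains E G V w g) : Chains E G V w' g := by
  obtain ⟨B, C, hB, hch⟩ := h
  refine ⟨B, C, hB, fun z hz hzE => ?_⟩
  obtain ⟨N, c, h1, h2, h3, h4⟩ := hch z hz hzE
  refine ⟨N, c, ?_, h2, h3, h4⟩
  refine le_of_eq_of_le (Finset.sum_congr rfl fun j _ => ?_) h1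
  rw [hw _ (le_min zero_le_one (by have := infDist_nonneg (x := c j) (s := E); positivity))]

lemma Chains.base {E E₀ G V : Set ℂ} {w : ℝ → ℝ} {g : ℂ → ℝ} (hE : E₀ ⊆ E)
    (hG : ∀ b, b ∉ E₀ → b ∈ G) (h : Chains E Set.univ V w g) : Chains E G V w g := by
  obtain ⟨B, C, hB, hch⟩ := h
  exact ⟨B, C, fun b hb => ⟨hG b (fun h => (hB b hb).2 (hE h)), (hB b hb).2⟩, hch⟩

section A

variable {X : Type} [NormedAddCommGroup X] [NormedSpace ℂ X] [CompleteSpace X]

lemma RateW.congr {S K : X →L[ℂ] X} {E : Set ℂ} {w w' : ℝ → ℝ} {C : ℝ}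
    (hw : ∀ d, 0 ≤ d → w d = w' d) (h : RateW S K E w C) : RateW S K E w' C := by
  refine ⟨h.res, fun d hd hd1 => ?_⟩
  obtain ⟨n, φ, f, ρ, h1, h2, h3, h4⟩ := h.approx d hd hd1
  rw [hw d hd.le] at h2 h3
  exact ⟨n, φ, f, ρ, h1, h2, h3, h4⟩

lemma RateW.mono {S K : X →L[ℂ] X} {E E' : Set ℂ} {w : ℝ → ℝ} {C : ℝ} (hne : E.Nonempty)
    (hEE : E ⊆ E') (h : RateW S K E w C) : RateW S K E' w C := by
  refine ⟨fun z hz => h.res z (fun h => hz (hEE h)), fun d hd hd1 => ?_⟩
  obtain ⟨n, φ, f, ρ, h1, h2, h3, h4, h5, h6⟩ := h.approx d hd hd1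
  exact ⟨n, φ, f, ρ, h1, h2, h3, h4, fun z hz => h5 z (hz.trans (infDist_le_infDist_of_subset hEE hne)),
    h6⟩

/-- the weight -/
noncomputable def pw (η : ℝ) : ℝ → ℝ := fun d => |d| ^ (-η)

lemma pw_nonneg (η : ℝ) (d : ℝ) : 0 ≤ pw η d := Real.rpow_nonneg (abs_nonneg d) _

lemma pw_eq (η : ℝ) (d : ℝ) (hd : 0 ≤ d) : (fun d : ℝ => d ^ (-η)) d = pw η d := by
  simp only [pw, abs_of_nonneg hd]

theorem graph_at (hc : P_chb5) (hw : P_whit5) (hgl : P_gloc) (S K : X →L[ℂ] X) (E : Set ℂ)
    (η C : ℝ) (hη : 0 < η) (hE : IsClosed E) (hne : E.Nonempty)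
    (hR : RateW S K E (fun d => d ^ (-η)) C) (l : ℂ) (hG : GraphAt E l η)
    (hd : (∀ b, b ∉ E → b ∈ resolventSet ℂ (S + K)) ∨ Dense (resolventSet ℂ (S + K))) :
    LogLogAt (S + K) l := by
  obtain ⟨φ, L, α, R, u, h1, h2, h3, h4, h5, h6, h7⟩ := hG
  have hφ : Continuous φ := Pool.Agent.H295.LL.GraphAux.cont (by linarith) h4
  set E' : Set ℂ := E ∪ {z : ℂ | z ∈ closedBall l (R / 2) ∧ (u * z).im = φ (u * z).re} with hE'
  have hE'c : IsClosed E' := by
    refine hE.union (isClosed_closedBall.inter ?_)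
    exact isClosed_eq (Complex.continuous_im.comp (continuous_const.mul continuous_id))
      (hφ.comp (Complex.continuous_re.comp (continuous_const.mul continuous_id)))
  have hsub : E ⊆ E' := Set.subset_union_left
  have hne' : E'.Nonempty := hne.mono hsub
  have hiff : ∀ z ∈ ball l (R / 2), z ∈ E' ↔ (u * z).im = φ (u * z).re := by
    intro z hz
    constructor
    · rintro (h | h)
      · exact h7 z h (ball_subset_ball (by linarith) hz)
      · exact h.2
    · intro h
      exact Or.inr ⟨ball_subset_closedBall hz, h⟩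
  obtain ⟨ρ, q, g, k1, k2, k3, k4, k5, k6, k7, k8⟩ := hgl φ L α η (R / 2) u l E' h1 h2 hη h3 h4
    hE'c hne' h5 (by positivity) hiff
  have k9 : Chains E' Set.univ (ball l ρ) (pw η) g := k8.congr (pw_eq η)
  have hR' : RateW S K E' (pw η) C := (hR.mono hne hsub).congr (pw_eq η)
  refine pert_at hc hw S K E' (pw η) C g l ρ q k2 k1 hE'c hne' (pw_nonneg η) k5 k4 k3 k6 k7 ?_ hR'
  rcases hd with hd | hd
  · exact k9.base hsub hd
  · exact k9.dense hE'c hne' (pw_nonneg η) k5 hd

/-- points off `E` -/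
theorem off_at (hc : P_chb5) (hw : P_whit5) (S K : X →L[ℂ] X) (E : Set ℂ)
    (η C : ℝ) (hη : 0 < η) (hE : IsClosed E) (hne : E.Nonempty)
    (hR : RateW S K E (fun d => d ^ (-η)) C) (l : ℂ) (hl : l ∉ E)
    (hd : Dense (resolventSet ℂ (S + K))) : LogLogAt (S + K) l := by
  set δ := infDist l E with hδ
  have hδ0 : 0 < δ := (hE.notMem_iff_infDist_pos hne).1 hl
  have hfar : ∀ z ∈ ball l (δ / 16), 15 / 16 * δ ≤ infDist z E := by
    intro z hz
    rw [mem_ball, dist_comm] at hz
    have : infDist l E ≤ infDist z E + dist l z := infDist_le_infDist_add_dist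
    linarith
  obtain ⟨b, hb1, hb2⟩ := hd.exists_dist_lt l (show 0 < δ / 16 by positivity)
  have hbb : b ∈ ball l (δ / 16) := by rw [mem_ball, dist_comm]; exact hb2
  have hnull : E ∩ ball l (δ / 16) = ∅ := by
    ext z
    simp only [Set.mem_inter_iff, Set.mem_empty_iff_false, iff_false, not_and]
    intro hz hz2
    have := hfar z hz2
    rw [infDist_zero_of_mem hz] at this
    linarith
  set m : ℝ := min 1 (δ / 4) with hm
  have hm0 : 0 < m := lt_min one_pos (by positivity)
  have hcost : ∀ z ∈ ball l (δ / 16), 1 + pw η (min 1 (infDist z E / 2)) ≤ 1 + m ^ (-η) := by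
    intro z hz
    have h1 : m ≤ min 1 (infDist z E / 2) := by
      refine le_min (min_le_left _ _) ((min_le_right _ _).trans ?_)
      have := hfar z hz; linarith
    have h2 : pw η (min 1 (infDist z E / 2)) ≤ m ^ (-η) := by
      rw [pw, abs_of_nonneg (hm0.le.trans h1)]
      exact Real.rpow_le_rpow_of_nonpos hm0 h1 (by linarith)
    linarith
  refine pert_at hc hw S K E (pw η) C (fun _ => 0) l (δ / 16) 2 (by norm_num) (by positivity) hE hne
    (pw_nonneg η) (fun _ => le_rfl) measurable_const (by rw [hnull]; simp) ?_ ?_ ?_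
    (hR.congr (pw_eq η))
  · simp
  · -- bounded
    have hb : ∀ z ∈ ball l (δ / 16), ‖(Real.posLog (infDist z E)⁻¹) ^ (2 : ℝ)‖
        ≤ (Real.posLog (15 / 16 * δ)⁻¹) ^ (2 : ℝ) := by
      intro z hz
      have h1 := hfar z hz
      rw [Real.norm_of_nonneg (Real.rpow_nonneg Real.posLog_nonneg _)]
      refine Real.rpow_le_rpow Real.posLog_nonneg
        (Real.posLog_le_posLog (inv_nonneg.2 infDist_nonneg) ?_) (by norm_num)
      exact inv_anti₀ (by positivity) h1
    refine IntegrableOn.of_bound measure_ball_lt_top ?_ _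
      (ae_restrict_of_forall_mem measurableSet_ball hb)
    have hpm : Measurable Real.posLog := Real.continuous_posLog.measurable
    exact ((hpm.comp (measurable_infDist.inv)).pow_const _).aestronglyMeasurable
  · refine ⟨{b}, 2 * (1 + m ^ (-η)), fun b' hb' => ?_, fun z hz hzE => ?_⟩
    · rw [Finset.mem_singleton] at hb'
      subst hb'
      refine ⟨hb1, fun hbE => ?_⟩
      have : b' ∈ E ∩ ball l (δ / 16) := ⟨hbE, hbb⟩
      rw [hnull] at this
      exact this
    · refine ⟨1, fun j => if j = 0 then b else z, ?_, by simp, by simp, fun j hj => ?_⟩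
      · rw [Finset.sum_range_succ, Finset.sum_range_one]
        simp only [if_true, one_ne_zero, if_false]
        have h1 := hcost b hbb
        have h2 := hcost z hz
        linarith
      · obtain rfl : j = 0 := by omega
        simp only [zero_add, one_ne_zero, if_false, if_true]
        have h1 := hfar b hbb
        rw [mem_ball] at hz hbb
        have h2 : ‖z - b‖ ≤ dist z l + dist b l := by
          rw [← dist_eq_norm]
          exact (dist_triangle z l b).trans (by rw [dist_comm l b])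
        linarith

/-- all couplings outside a set of capacity zero -/
theorem qe_at (hae : P_aeloc) (S K : X →L[ℂ] X) (E : Set ℂ) (η s : ℝ) (l : ℂ) (R : ℝ)
    (hη : 0 < η) (hs : η < s) (hE : IsClosed E) (hne : E.Nonempty)
    (hnull : volume (E ∩ ball l R) = 0)
    (hI : IntegrableOn (fun z : ℂ => (infDist z E) ^ (-s)) (ball l R))
    (hR : ∀ c : ℝ, 0 < c → ∃ C : ℝ, RateW S ((c : ℂ) • K) E (fun d => d ^ (-η)) C) :
    CapNull {κ : ℂ | ¬ ∀ z ∈ ball l R, LogLogAt (S + κ • K) z} := by
  intro μ hμ hcar hatom hpot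
  obtain ⟨r, hr⟩ := hcar
  obtain ⟨A, hA⟩ := hpot
  set q := s / η with hq
  have hq1 : 1 < q := by rw [hq, one_lt_div hη]; exact hs
  have hPot : Pot μ (max r 1) (max A (μ Set.univ).toReal) := by
    refine ⟨?_, ?_, hatom, fun a => (hA a).trans (ENNReal.ofReal_le_ofReal (le_max_left _ _))⟩
    · calc μ Set.univ = ENNReal.ofReal (μ Set.univ).toReal :=
          (ENNReal.ofReal_toReal (measure_ne_top μ _)).symm
        _ ≤ _ := ENNReal.ofReal_le_ofReal (le_max_right _ _)
    · refine measure_mono_null ?_ hr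
      exact Set.compl_subset_compl.2 (ball_subset_ball (le_max_left _ _))
  have hint : IntegrableOn (fun z : ℂ => (pw η (min 1 (infDist z E))) ^ q) (ball l R) := by
    have h1 : IntegrableOn (fun z : ℂ => 1 + (infDist z E) ^ (-s)) (ball l R) := by
      refine Integrable.add ?_ hI
      have : IsFiniteMeasure (volume.restrict (ball l R)) :=
        ⟨by rw [Measure.restrict_apply_univ]; exact measure_ball_lt_top⟩
      exact integrable_const _
    refine Integrable.mono' h1 ?_ (Filter.Eventually.of_forall fun z => ?_)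
    · have hm : Measurable fun z : ℂ => min (1 : ℝ) (infDist z E) :=
        measurable_const.min measurable_infDist
      have : Measurable fun z : ℂ => (pw η (min 1 (infDist z E))) ^ q := by
        unfold pw
        exact (((continuous_abs.measurable.comp hm)).pow_const (-η)).pow_const q
      exact this.aestronglyMeasurable
    · have h0 : 0 ≤ min (1 : ℝ) (infDist z E) := le_min zero_le_one infDist_nonneg
      rw [Real.norm_of_nonneg (Real.rpow_nonneg (pw_nonneg _ _) _), pw, abs_of_nonneg h0,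
        ← Real.rpow_mul h0]
      have h2 : -η * q = -s := by rw [hq]; field_simp
      rw [h2]
      rcases le_total 1 (infDist z E) with h3 | h3
      · rw [min_eq_left h3, Real.one_rpow]
        have : 0 ≤ (infDist z E) ^ (-s) := Real.rpow_nonneg infDist_nonneg _
        linarith
      · rw [min_eq_right h3]
        linarith
  have h := hae X S K E (pw η) q l R hq1 hE hne (pw_nonneg η) hnull hint
    (fun c hc => by
      obtain ⟨C, hC⟩ := hR c hc
      exact ⟨C, hC.congr (pw_eq η)⟩) μ (max r 1) (max A (μ Set.univ).toReal)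
    (lt_max_of_lt_right one_pos) (le_max_of_le_right ENNReal.toReal_nonneg) hPot
  have h' : ∀ᵐ κ ∂μ, ∀ z ∈ ball l R, LogLogAt (S + κ • K) z := by
    filter_upwards [h] with κ hκ z hz
    rw [mem_ball] at hz
    have hsub : ball z (R - dist z l) ⊆ ball l R := ball_subset_ball' (by linarith)
    exact ⟨q, R - dist z l, hq1, by linarith,
      measure_mono_null (Set.inter_subset_inter_right _ hsub) hκ.1, hκ.2.mono_set hsub⟩
  exact h'

lemma CapNull.mono {s t : Set ℂ} (h : CapNull t) (hst : s ⊆ t) : CapNull s :=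
  fun μ h1 h2 h3 h4 => measure_mono_null hst (h μ h1 h2 h3 h4)

lemma CapNull.iUnion {s : ℕ → Set ℂ} (h : ∀ n, CapNull (s n)) : CapNull (⋃ n, s n) :=
  fun μ h1 h2 h3 h4 => measure_iUnion_null fun n => h n μ h1 h2 h3 h4

end A

end Pool.Agent.H933.LL
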