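import Pool.Agent.H933.LL.Loc2
import Pool.Agent.H181.LL.Chb5
import Pool.Agent.H740.LL.Whit5
import Pool.Agent.H271.LL.Aeloc
import Pool.Agent.H363.LL.Weyl
import Pool.Agent.H734.LL.Glue5
import Pool.Agent.H903.LL.Box5

/-!
# Compact perturbations of normal operators
-/

set_option autoImplicit false
set_option linter.unusedSectionVars false
set_option linter.unusedVariables false

open MeasureTheory Metric
open scoped Real InnerProductSpace ENNReal

namespace Pool.Agent.H933.LL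

theorem chb5 : P_chb5 := Pool.Agent.H181.LL.p_chb5
  (Pool.Agent.H47.LL.p_loc3 Pool.Agent.H870.LL.p_det Pool.Agent.H722.LL.p_neg)

theorem whit5 : P_whit5 := Pool.Agent.H740.LL.p_whit5 Pool.Agent.H914.LL.p_jen

section H

variable {H : Type} [NormedAddCommGroup H] [InnerProductSpace ℂ H] [CompleteSpace H]

/-- accumulation point of the spectrum of `N` -/
def Acc (N : H →L[ℂ] H) (l : ℂ) : Prop :=
  ∀ ε : ℝ, 0 < ε → ∃ μ ∈ spectrum ℂ N, μ ≠ l ∧ ‖μ - l‖ < ε

lemma acc_mem {N K : H →L[ℂ] H} {l : ℂ} (hN : IsStarNormal N) (hK : IsCompactOperator K)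
    (h : Acc N l) : l ∈ spectrum ℂ (N + K) := Pool.Agent.H363.LL.p_weyl H N K l hN hK h

lemma acc_ne {N : H →L[ℂ] H} {l : ℂ} (h : Acc N l) : (spectrum ℂ N).Nonempty := by
  obtain ⟨μ, hμ, -⟩ := h 1 one_pos
  exact ⟨μ, hμ⟩

/-- no eigenvalues off the spectrum of `N`, or two points of the spectrum and an eigenvalue -/
theorem normal_graph (hgl : P_gloc) (hnor : P_nor5) (N K : H →L[ℂ] H) (η : ℝ) (hη : 0 < η)
    (hN : IsStarNormal N) (hK : LogSchatten K η) (a b : ℂ) (hab : a ≠ b) (ha : Acc N a)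
    (hb : Acc N b) (hGa : GraphAt (spectrum ℂ N) a η) (hGb : GraphAt (spectrum ℂ N) b η) :
    ∃ V : Submodule ℂ H, Hyper (N + K) V ∧ V ≠ ⊥ ∧ V ≠ ⊤ := by
  have hKc : IsCompactOperator K := hnor.2.2 H K η hη hK
  have ha' := acc_mem hN hKc ha
  have hb' := acc_mem hN hKc hb
  have hE : IsClosed (spectrum ℂ N) := spectrum.isClosed N
  obtain ⟨C, hR⟩ := hnor.1 H N K (spectrum ℂ N) η hN hE (acc_ne ha) le_rfl hη hK 1 one_pos
  rw [Complex.ofReal_one, one_smul] at hR
  by_cases hev : ∀ v : ℂ, v ∉ spectrum ℂ N → ∀ x : H, (N + K) x = v • x → x = 0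
  · have hres := res_of_no_eig N K (spectrum ℂ N) (fun d => d ^ (-η)) C hE (acc_ne ha) hR hev
    exact nontrivial_hyper' (N + K) a b hab ha' hb'
      (graph_at chb5 whit5 hgl N K _ η C hη hE (acc_ne ha) hR a hGa (Or.inl hres))
      (graph_at chb5 whit5 hgl N K _ η C hη hE (acc_ne ha) hR b hGb (Or.inl hres))
  · push_neg at hev
    obtain ⟨v, hv, x, hx, hx0⟩ := hev
    exact hyper_of_eig (N + K) v x hx0 hx ⟨a, ha', b, hb', hab⟩

theorem normal_graph_dec (hgl : P_gloc) (hnor : P_nor5) (N K : H →L[ℂ] H) (η : ℝ) (hη : 0 < η)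
    (hN : IsStarNormal N) (hK : LogSchatten K η)
    (hG : ∀ l ∈ spectrum ℂ N, GraphAt (spectrum ℂ N) l η)
    (hd : interior (spectrum ℂ (N + K)) = ∅) : Decomposable (N + K) := by
  have hE : IsClosed (spectrum ℂ N) := spectrum.isClosed N
  have hdense : Dense (resolventSet ℂ (N + K)) := by
    have h1 : resolventSet ℂ (N + K) = (spectrum ℂ (N + K))ᶜ := by
      rw [spectrum, compl_compl]
    rw [h1]
    exact interior_eq_empty_iff_dense_compl.1 hd
  rcases subsingleton_or_nontrivial H with hs | hs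
  · refine dec_at Pool.Agent.H734.LL.p_glue5 (N + K) fun l hl => ?_
    exact absurd (spectrum.of_subsingleton (R := ℂ) (N + K) ▸ hl) (Set.notMem_empty l)
  have hne : (spectrum ℂ N).Nonempty := spectrum.nonempty N
  obtain ⟨C, hR⟩ := hnor.1 H N K (spectrum ℂ N) η hN hE hne le_rfl hη hK 1 one_pos
  rw [Complex.ofReal_one, one_smul] at hR
  refine dec_at Pool.Agent.H734.LL.p_glue5 (N + K) fun l _ => ?_
  by_cases hl : l ∈ spectrum ℂ N
  · exact graph_at chb5 whit5 hgl N K _ η C hη hE hne hR l (hG l hl) (Or.inr hdense)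
  · exact off_at chb5 whit5 N K _ η C hη hE hne hR l hl hdense

theorem normal_qe (hfm : P_fixmu) (hnor : P_nor5) (N K : H →L[ℂ] H) (η s : ℝ) (l : ℂ) (R : ℝ)
    (hη : 0 < η) (hs : η < s) (hN : IsStarNormal N) (hK : LogSchatten K η)
    (hnull : volume (spectrum ℂ N ∩ ball l R) = 0)
    (hI : IntegrableOn (fun z : ℂ => (infDist z (spectrum ℂ N)) ^ (-s)) (ball l R)) :
    CapNull {κ : ℂ | ¬ ∀ z ∈ ball l R, LogLogAt (N + κ • K) z} := by
  rcases subsingleton_or_nontrivial H with hs' | hs'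
  · refine CapNull.mono (t := ∅) (fun μ _ _ _ _ => by simp) ?_
    intro κ hκ
    exfalso
    apply hκ
    intro z _
    have he : spectrum ℂ (N + κ • K) = ∅ := spectrum.of_subsingleton (R := ℂ) (N + κ • K)
    refine ⟨2, 1, by norm_num, by norm_num, by rw [he]; simp, ?_⟩
    have : ∀ z : ℂ, ‖resolvent (N + κ • K) z‖ = 0 := fun z => by
      rw [Subsingleton.elim (resolvent (N + κ • K) z) 0, norm_zero]
    simp [this]
  · exact qe_at (Pool.Agent.H271.LL.p_aeloc hfm Pool.Agent.H914.LL.p_jen) N K (spectrum ℂ N) η s l R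
      hη hs (spectrum.isClosed N) (spectrum.nonempty N) hnull hI
      (fun c hc => hnor.1 H N K (spectrum ℂ N) η hN (spectrum.isClosed N) (spectrum.nonempty N)
        le_rfl hη hK c hc)

theorem normal_qe_hyper (hfm : P_fixmu) (hnor : P_nor5) (N K : H →L[ℂ] H) (η s : ℝ) (l : ℂ) (R : ℝ)
    (hη : 0 < η) (hs : η < s) (hN : IsStarNormal N) (hK : LogSchatten K η)
    (hnull : volume (spectrum ℂ N ∩ ball l R) = 0)
    (hI : IntegrableOn (fun z : ℂ => (infDist z (spectrum ℂ N)) ^ (-s)) (ball l R))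
    (a b : ℂ) (hab : a ≠ b) (ha : Acc N a) (hb : Acc N b) (haR : a ∈ ball l R) (hbR : b ∈ ball l R) :
    CapNull {κ : ℂ | ¬ ∃ V : Submodule ℂ H, Hyper (N + κ • K) V ∧ V ≠ ⊥ ∧ V ≠ ⊤} := by
  refine (normal_qe hfm hnor N K η s l R hη hs hN hK hnull hI).mono fun κ hκ h => hκ ?_
  have hKc : IsCompactOperator (κ • K) := (hnor.2.2 H K η hη hK).smul κ
  exact nontrivial_hyper' (N + κ • K) a b hab (acc_mem hN hKc ha) (acc_mem hN hKc hb)
    (h a haR) (h b hbR)

theorem normal_qe_dec (hfm : P_fixmu) (hnor : P_nor5) (N K : H →L[ℂ] H) (η s : ℝ)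
    (hη : 0 < η) (hs : η < s) (hN : IsStarNormal N) (hK : LogSchatten K η)
    (hnull : volume (spectrum ℂ N) = 0)
    (hI : ∀ r : ℝ, IntegrableOn (fun z : ℂ => (infDist z (spectrum ℂ N)) ^ (-s)) (ball (0 : ℂ) r)) :
    CapNull {κ : ℂ | ¬ Decomposable (N + κ • K)} := by
  have h1 : CapNull (⋃ n : ℕ, {κ : ℂ | ¬ ∀ z ∈ ball (0 : ℂ) (n : ℝ), LogLogAt (N + κ • K) z}) :=
    CapNull.iUnion fun n => normal_qe hfm hnor N K η s 0 n hη hs hN hK
      (measure_mono_null Set.inter_subset_left hnull) (hI n)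
  refine h1.mono fun κ hκ => ?_
  by_contra h
  apply hκ
  refine dec_at Pool.Agent.H734.LL.p_glue5 (N + κ • K) fun l _ => ?_
  obtain ⟨n, hn⟩ := exists_nat_gt ‖l‖
  by_contra hl
  apply h
  rw [Set.mem_iUnion]
  exact ⟨n, fun h2 => hl (h2 l (by rw [mem_ball_zero_iff]; exact hn))⟩

end H

end Pool.Agent.H933.LL
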