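import Pool.Agent.H933.LL.Stm4

/-!
# Statement: separation of a point of the spectrum from the rest
-/

set_option autoImplicit false

open MeasureTheory Metric
open scoped Real

namespace Pool.Agent.H933.LL

/-- **P_sep**. Proof. Let `r' = r₂/2`, `B = Op T l r'' h₁` with `h₁` admissible on the small disc `D = ball l r''`, `r'' < r'`
(`Pool.Agent.H933.LL.exists_adm`, `Pool.Agent.H571.LL.p_comm`, `Pool.Agent.H665.LL.p_sq` as in the proof of
`Pool.Agent.H933.LL.localized`, file Gen.lean). Let `h` be the density of `P_cut` (Stm4.lean) on the annulus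
`W = ann l r' r₂` for `M = ‖resolvent T ·‖` (as in `P_split`, Pool/Agent/H356/LL/Split.lean; there `T` satisfies the
condition on the whole plane, here only on `ball l r`, which contains the annulus), `A = ∫_W h(w) R(w) dA(w)`,
`R = resolvent T`.
* `A` is in the bicommutant: as in Split.lean.
* `A B = B`: for `z ∈ D` off the spectrum, by `R(z) R(w) = (R(w) - R(z))/(z - w)`,
  `R(z) A = ∫_W h(w) R(w)/(z - w) dA(w) - (∫_W h(w)/(z - w) dA(w)) R(z) = ∫_W h(w) R(w)/(z - w) dA(w) + R(z)`, since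
  `∫_W h(w)/(z - w) dA(w) = (2πi)⁻¹ ∮ dw/(z - w) = -1`. So `B A = ∫_D h₁(z) R(z) A = B + ∫_W h(w) R(w) (∫_D h₁(z)/(z - w) dA(z)) dA(w)`
  (Fubini, as in Pool/Agent/H122/LL/Prod.lean) and the inner integral vanishes (`Adm.orth`). `A`, `B` commute.
* If `A = 1`: for `|v - l| > r₂` the operator `f = ∫_W h(z) (v - z)⁻¹ R(z) dA(z)` satisfies
  `(v - T) f = A + (∫_W h(z)/(v - z) dA(z)) = A = 1` (the contour integral of `(v - z)⁻¹` over the circle is `0`) and commutes
  with `T`, so `v` is in the resolvent set. -/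
def P_sep : Prop := ∀ (X : Type) [NormedAddCommGroup X] [NormedSpace ℂ X] [CompleteSpace X]
  (T : X →L[ℂ] X) (l : ℂ) (q r r₂ : ℝ), 1 < q → 0 < r₂ → r₂ < r → l ∈ spectrum ℂ T →
  volume (spectrum ℂ T ∩ ball l r) = 0 →
  IntegrableOn (fun z => (Real.posLog (Real.posLog ‖resolvent T z‖)) ^ q) (ball l r) →
  ∃ A B : X →L[ℂ] X, (∀ Q : X →L[ℂ] X, Q * T = T * Q → Q * A = A * Q) ∧
    (∀ Q : X →L[ℂ] X, Q * T = T * Q → Q * B = B * Q) ∧ B ≠ 0 ∧ A * B = B ∧
    (A = 1 → spectrum ℂ T ⊆ closedBall l r₂)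

end Pool.Agent.H933.LL
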