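import Pool.Agent.H933.LL.Loc4
import Pool.Agent.H933.LL.Stm11
import Pool.Agent.H21.LL.Nor5
import Pool.Agent.H686.LL.Gloc
import Pool.Agent.H337.LL.Cap
import Pool.Agent.H788.LL.Negmu
import Pool.Graph.R_seed8.W577.HI.G1
import Pool.Graph.R_seed8.W806.HI.G2

/-!
# One point of the spectrum with a log-log-integrable resolvent is enough; scalar or hyperinvariant
-/

set_option autoImplicit false
set_option linter.unusedSectionVars false
set_option linter.unusedVariables false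

open MeasureTheory Metric
open scoped Real InnerProductSpace ENNReal

namespace Pool.Agent.H933.LL

section A

variable {X : Type} [NormedAddCommGroup X] [NormedSpace ℂ X] [CompleteSpace X]

/-- one point with the local condition and another point of the spectrum -/
theorem hyper_one (hs : P_sep) (T : X →L[ℂ] X) (l : ℂ) (hl : l ∈ spectrum ℂ T) (hL : LogLogAt T l)
    (hn : (spectrum ℂ T).Nontrivial) : ∃ V : Submodule ℂ X, Hyper T V ∧ V ≠ ⊥ ∧ V ≠ ⊤ := by
  obtain ⟨b, hb, hbl⟩ := hn.exists_ne l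
  obtain ⟨q, r, hq, hr, h1, h2⟩ := hL
  have hd : 0 < ‖b - l‖ := norm_pos_iff.2 (sub_ne_zero.2 hbl)
  have hm : 0 < min r ‖b - l‖ := lt_min hr hd
  obtain ⟨A, B, hA, hB, hB0, hAB, hA1⟩ := hs X T l q r (min r ‖b - l‖ / 2) hq (by positivity)
    (by have := min_le_left r ‖b - l‖; linarith) hl h1 h2
  have hA1' : A ≠ 1 := by
    intro h
    have h3 := hA1 h hb
    rw [mem_closedBall, dist_eq_norm] at h3
    have := min_le_right r ‖b - l‖
    linarith
  have hbi : Bicomm T (1 - A) := by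
    intro Q hQ
    rw [mul_sub, sub_mul, hA Q hQ, mul_one, one_mul]
  refine ⟨LinearMap.ker ((1 - A : X →L[ℂ] X) : X →ₗ[ℂ] X), hyper_ker hbi, ?_, ?_⟩
  · intro hbot
    apply hB0
    ext x
    have : B x ∈ LinearMap.ker ((1 - A : X →L[ℂ] X) : X →ₗ[ℂ] X) := by
      simp only [LinearMap.mem_ker, ContinuousLinearMap.coe_coe]
      have h3 := congrArg (fun C : X →L[ℂ] X => C x) hAB
      have h4 : A (B x) = B x := h3
      change B x - A (B x) = 0
      rw [h4, sub_self]
    rw [hbot, Submodule.mem_bot] at this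
    simpa using this
  · intro htop
    apply hA1'
    ext x
    have : x ∈ LinearMap.ker ((1 - A : X →L[ℂ] X) : X →ₗ[ℂ] X) := by rw [htop]; trivial
    simp only [LinearMap.mem_ker, ContinuousLinearMap.coe_coe] at this
    have h5 : x - A x = 0 := this
    exact (sub_eq_zero.1 h5).symm

theorem hyper_of_eig' (T : X →L[ℂ] X) (v : ℂ) (x : X) (hx : x ≠ 0) (hv : T x = v • x)
    (hn : ¬ ∃ c : ℂ, T = c • (1 : X →L[ℂ] X)) : ∃ V : Submodule ℂ X, Hyper T V ∧ V ≠ ⊥ ∧ V ≠ ⊤ := by
  refine ⟨LinearMap.ker ((T - v • (1 : X →L[ℂ] X) : X →L[ℂ] X) : X →ₗ[ℂ] X),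
    ⟨isClosed_eq (T - v • (1 : X →L[ℂ] X)).continuous continuous_const, fun Q hQ y hy => ?_⟩,
    ?_, ?_⟩
  · simp only [LinearMap.mem_ker, ContinuousLinearMap.coe_coe] at hy ⊢
    have h3 : T (Q y) = Q (T y) := by
      have := congrArg (fun A : X →L[ℂ] X => A y) hQ
      simpa using this.symm
    have h4 : T y = v • y := by
      have : T y - v • y = 0 := by simpa using hy
      exact sub_eq_zero.1 this
    change T (Q y) - v • Q y = 0
    rw [h3, h4, map_smul, sub_self]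
  · intro hbot
    apply hx
    have : x ∈ LinearMap.ker ((T - v • (1 : X →L[ℂ] X) : X →L[ℂ] X) : X →ₗ[ℂ] X) := by
      simp only [LinearMap.mem_ker, ContinuousLinearMap.coe_coe]
      change T x - v • x = 0
      rw [hv, sub_self]
    rw [hbot, Submodule.mem_bot] at this
    exact this
  · intro htop
    apply hn
    refine ⟨v, ?_⟩
    ext y
    have : y ∈ LinearMap.ker ((T - v • (1 : X →L[ℂ] X) : X →L[ℂ] X) : X →ₗ[ℂ] X) := by
      rw [htop]; trivial
    simp only [LinearMap.mem_ker, ContinuousLinearMap.coe_coe] at this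
    have h5 : T y - v • y = 0 := this
    exact sub_eq_zero.1 h5

end A

section H

variable {H : Type} [NormedAddCommGroup H] [InnerProductSpace ℂ H] [CompleteSpace H]

theorem scalar_or_hyper (hs : P_sep) (N K : H →L[ℂ] H) (hN : IsStarNormal N)
    (hK : IsCompactOperator K) (l : ℂ) (hl : l ∈ spectrum ℂ (N + K)) (hL : LogLogAt (N + K) l) :
    (∃ c : ℂ, N + K = c • (1 : H →L[ℂ] H)) ∨
      ∃ V : Submodule ℂ H, Hyper (N + K) V ∧ V ≠ ⊥ ∧ V ≠ ⊤ := by
  by_cases hn : (spectrum ℂ (N + K)).Nontrivial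
  · exact Or.inr (hyper_one hs (N + K) l hl hL hn)
  · by_cases hsc : ∃ c : ℂ, N + K = c • (1 : H →L[ℂ] H)
    · exact Or.inl hsc
    · right
      have heq : spectrum ℂ (N + K) = {l} :=
        (Set.not_nontrivial_iff.1 hn).eq_singleton_of_mem hl
      have h1 := Pool.Agent.W806.HI.main H N K l hN hK heq
      have h2 : IsCompactOperator (N + K - l • (1 : H →L[ℂ] H) : H →L[ℂ] H) := by
        have h3 : (N + K - l • (1 : H →L[ℂ] H) : H →L[ℂ] H)
            = (N - l • (1 : H →L[ℂ] H)) + K := by abel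
        rw [h3]
        exact h1.add hK
      have h4 : ¬ Pool.Agent.W402.HI.IsScalar (N + K - l • (1 : H →L[ℂ] H)) := by
        rintro ⟨c, hc⟩
        apply hsc
        refine ⟨c + l, ?_⟩
        rw [sub_eq_iff_eq_add] at hc
        rw [hc, add_smul]
      obtain ⟨V, v1, v2, v3, v4⟩ := Pool.Agent.W577.HI.G1.main H _ h2 h4
      refine ⟨V, ⟨v1, fun Q hQ => v4 Q ?_⟩, v2, v3⟩
      rw [mul_sub, sub_mul, hQ, mul_smul_comm, smul_mul_assoc, mul_one, one_mul]

/-- individual perturbations -/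
theorem individual (hs : P_sep) (N K : H →L[ℂ] H) (η : ℝ) (hη : 0 < η) (hN : IsStarNormal N)
    (hK : LogSchatten K η) (l : ℂ) (hl : l ∈ spectrum ℂ (N + K))
    (hG : GraphAt (spectrum ℂ N) l η) :
    (∃ c : ℂ, N + K = c • (1 : H →L[ℂ] H)) ∨
      ∃ V : Submodule ℂ H, Hyper (N + K) V ∧ V ≠ ⊥ ∧ V ≠ ⊤ := by
  have hnor := Pool.Agent.H21.LL.p_nor5
  have hgl := Pool.Agent.H686.LL.p_gloc
  have hKc : IsCompactOperator K := hnor.2.2 H K η hη hK
  have hH : Nontrivial H := by
    by_contra hH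
    rw [not_nontrivial_iff_subsingleton] at hH
    exact absurd (spectrum.of_subsingleton (R := ℂ) (N + K) ▸ hl) (Set.notMem_empty l)
  have hE : IsClosed (spectrum ℂ N) := spectrum.isClosed N
  have hne : (spectrum ℂ N).Nonempty := spectrum.nonempty N
  obtain ⟨C, hR⟩ := hnor.1 H N K (spectrum ℂ N) η hN hE hne le_rfl hη hK 1 one_pos
  rw [Complex.ofReal_one, one_smul] at hR
  by_cases hsc : ∃ c : ℂ, N + K = c • (1 : H →L[ℂ] H)
  · exact Or.inl hsc
  by_cases hev : ∀ v : ℂ, v ∉ spectrum ℂ N → ∀ x : H, (N + K) x = v • x → x = 0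
  · have hres := res_of_no_eig N K (spectrum ℂ N) (fun d => d ^ (-η)) C hE hne hR hev
    exact scalar_or_hyper hs N K hN hKc l hl
      (graph_at chb5 whit5 hgl N K _ η C hη hE hne hR l hG (Or.inl hres))
  · push Not at hev
    obtain ⟨v, hv, x, hx, hx0⟩ := hev
    exact Or.inr (hyper_of_eig' (N + K) v x hx0 hx hsc)

/-- couplings outside a set of capacity zero -/
theorem couplings (hfm : P_fixmu) (hs' : P_sep) (N K : H →L[ℂ] H) (η s : ℝ) (l : ℂ) (R : ℝ)
    (hη : 0 < η) (hs : η < s) (hN : IsStarNormal N) (hK : LogSchatten K η)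
    (hnull : volume (spectrum ℂ N ∩ ball l R) = 0)
    (hI : IntegrableOn (fun z : ℂ => (infDist z (spectrum ℂ N)) ^ (-s)) (ball l R)) :
    CapNull {κ : ℂ | (spectrum ℂ (N + κ • K) ∩ ball l R).Nonempty ∧
      ¬ ((∃ c : ℂ, N + κ • K = c • (1 : H →L[ℂ] H)) ∨
        ∃ V : Submodule ℂ H, Hyper (N + κ • K) V ∧ V ≠ ⊥ ∧ V ≠ ⊤)} := by
  have hnor := Pool.Agent.H21.LL.p_nor5
  refine (normal_qe hfm hnor N K η s l R hη hs hN hK hnull hI).mono fun κ hκ h => ?_
  obtain ⟨⟨z, hz1, hz2⟩, h2⟩ := hκ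
  exact h2 (scalar_or_hyper hs' N (κ • K) hN ((hnor.2.2 H K η hη hK).smul κ) z hz1 (h z hz2))

end H

end Pool.Agent.H933.LL
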