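import Pool.Agent.H933.LL.Loc5
import Pool.Agent.H277.LL.Fixmu

/-!
# Accessible points
-/

set_option autoImplicit false
set_option linter.unusedSectionVars false
set_option linter.unusedVariables false

open MeasureTheory Metric
open scoped Real InnerProductSpace ENNReal

namespace Pool.Agent.H933.LL

theorem fixmu : P_fixmu :=
  Pool.Agent.H277.LL.p_fixmu Pool.Agent.H870.LL.p_det Pool.Agent.H788.LL.p_negmu

/-- integrable quasi-hyperbolic cost near `l` -/
def AccAt (E : Set ℂ) (l : ℂ) (η : ℝ) : Prop := ∃ (E' : Set ℂ) (ρ q : ℝ) (g : ℂ → ℝ),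
  IsClosed E' ∧ E ⊆ E' ∧ 0 < ρ ∧ 1 < q ∧ volume (E' ∩ ball l ρ) = 0 ∧ Measurable g ∧
  (∀ z, 0 ≤ g z) ∧ IntegrableOn (fun z : ℂ => g z ^ q) (ball l ρ) ∧
  IntegrableOn (fun z : ℂ => (Real.posLog (infDist z E')⁻¹) ^ q) (ball l ρ) ∧
  Chains E' Set.univ (ball l ρ) (pw η) g

lemma graph_acc (E : Set ℂ) (l : ℂ) (η : ℝ) (hη : 0 < η) (hE : IsClosed E) (hne : E.Nonempty)
    (hG : GraphAt E l η) : AccAt E l η := by
  obtain ⟨φ, L, α, R, u, h1, h2, h3, h4, h5, h6, h7⟩ := hG
  have hφ : Continuous φ := Pool.Agent.H295.LL.GraphAux.cont (by linarith) h4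
  set E' : Set ℂ := E ∪ {z : ℂ | z ∈ closedBall l (R / 2) ∧ (u * z).im = φ (u * z).re} with hE'
  have hE'c : IsClosed E' := by
    refine hE.union (isClosed_closedBall.inter ?_)
    exact isClosed_eq (Complex.continuous_im.comp (continuous_const.mul continuous_id))
      (hφ.comp (Complex.continuous_re.comp (continuous_const.mul continuous_id)))
  have hsub : E ⊆ E' := Set.subset_union_left
  have hiff : ∀ z ∈ ball l (R / 2), z ∈ E' ↔ (u * z).im = φ (u * z).re := by
    intro z hz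
    constructor
    · rintro (h | h)
      · exact h7 z h (ball_subset_ball (by linarith) hz)
      · exact h.2
    · intro h
      exact Or.inr ⟨ball_subset_closedBall hz, h⟩
  obtain ⟨ρ, q, g, k1, k2, k3, k4, k5, k6, k7, k8⟩ := Pool.Agent.H686.LL.p_gloc φ L α η (R / 2) u l
    E' h1 h2 hη h3 h4 hE'c (hne.mono hsub) h5 (by positivity) hiff
  exact ⟨E', ρ, q, g, hE'c, hsub, k1, k2, k3, k4, k5, k6, k7, k8.congr (pw_eq η)⟩

section A

variable {X : Type} [NormedAddCommGroup X] [NormedSpace ℂ X] [CompleteSpace X]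

theorem acc_at (S K : X →L[ℂ] X) (E : Set ℂ) (η C : ℝ) (hη : 0 < η) (hne : E.Nonempty)
    (hR : RateW S K E (fun d => d ^ (-η)) C) (l : ℂ) (hG : AccAt E l η)
    (hd : (∀ b, b ∉ E → b ∈ resolventSet ℂ (S + K)) ∨ Dense (resolventSet ℂ (S + K))) :
    LogLogAt (S + K) l := by
  obtain ⟨E', ρ, q, g, hE'c, hsub, k1, k2, k3, k4, k5, k6, k7, k9⟩ := hG
  have hne' : E'.Nonempty := hne.mono hsub
  have hR' : RateW S K E' (pw η) C := (hR.mono hne hsub).congr (pw_eq η)
  refine pert_at chb5 whit5 S K E' (pw η) C g l ρ q k2 k1 hE'c hne' (pw_nonneg η) k5 k4 k3 k6 k7 ?_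
    hR'
  rcases hd with hd | hd
  · exact k9.base hsub hd
  · exact k9.dense hE'c hne' (pw_nonneg η) k5 hd

end A

section H

variable {H : Type} [NormedAddCommGroup H] [InnerProductSpace ℂ H] [CompleteSpace H]

/-- individual perturbations -/
theorem individual' (hs : P_sep) (N K : H →L[ℂ] H) (η : ℝ) (hη : 0 < η) (hN : IsStarNormal N)
    (hK : LogSchatten K η) (l : ℂ) (hl : l ∈ spectrum ℂ (N + K))
    (hG : AccAt (spectrum ℂ N) l η) :
    (∃ c : ℂ, N + K = c • (1 : H →L[ℂ] H)) ∨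
      ∃ V : Submodule ℂ H, Hyper (N + K) V ∧ V ≠ ⊥ ∧ V ≠ ⊤ := by
  have hnor := Pool.Agent.H21.LL.p_nor5
  have hKc : IsCompactOperator K := hnor.2.2 H K η hη hK
  have hH : Nontrivial H := by
    by_contra hH
    rw [not_nontrivial_iff_subsingleton] at hH
    exact absurd (spectrum.of_subsingleton (R := ℂ) (N + K) ▸ hl) (Set.notMem_empty l)
  have hE : IsClosed (spectrum ℂ N) := spectrum.isClosed N
  have hne : (spectrum ℂ N).Nonempty := spectrum.nonempty N
  obtain ⟨C, hR⟩ := hnor.1 H N K (spectrum ℂ N) η hN hE hne le_rfl hη hK 1 one_pos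
  rw [Complex.ofReal_one, one_smul] at hR
  by_cases hsc : ∃ c : ℂ, N + K = c • (1 : H →L[ℂ] H)
  · exact Or.inl hsc
  by_cases hev : ∀ v : ℂ, v ∉ spectrum ℂ N → ∀ x : H, (N + K) x = v • x → x = 0
  · have hres := res_of_no_eig N K (spectrum ℂ N) (fun d => d ^ (-η)) C hE hne hR hev
    exact scalar_or_hyper hs N K hN hKc l hl (acc_at N K _ η C hη hne hR l hG (Or.inl hres))
  · push Not at hev
    obtain ⟨v, hv, x, hx, hx0⟩ := hev
    exact Or.inr (hyper_of_eig' (N + K) v x hx0 hx hsc)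

theorem individual_dec (N K : H →L[ℂ] H) (η : ℝ) (hη : 0 < η)
    (hN : IsStarNormal N) (hK : LogSchatten K η)
    (hG : ∀ l ∈ spectrum ℂ N, AccAt (spectrum ℂ N) l η)
    (hd : interior (spectrum ℂ (N + K)) = ∅) : Decomposable (N + K) := by
  have hnor := Pool.Agent.H21.LL.p_nor5
  have hE : IsClosed (spectrum ℂ N) := spectrum.isClosed N
  have hdense : Dense (resolventSet ℂ (N + K)) := by
    have h1 : resolventSet ℂ (N + K) = (spectrum ℂ (N + K))ᶜ := by
      rw [spectrum, compl_compl]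
    rw [h1]
    exact interior_eq_empty_iff_dense_compl.1 hd
  rcases subsingleton_or_nontrivial H with hs | hs
  · refine dec_at Pool.Agent.H734.LL.p_glue5 (N + K) fun l hl => ?_
    exact absurd (spectrum.of_subsingleton (R := ℂ) (N + K) ▸ hl) (Set.notMem_empty l)
  have hne : (spectrum ℂ N).Nonempty := spectrum.nonempty N
  obtain ⟨C, hR⟩ := hnor.1 H N K (spectrum ℂ N) η hN hE hne le_rfl hη hK 1 one_pos
  rw [Complex.ofReal_one, one_smul] at hR
  refine dec_at Pool.Agent.H734.LL.p_glue5 (N + K) fun l _ => ?_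
  by_cases hl : l ∈ spectrum ℂ N
  · exact acc_at N K _ η C hη hne hR l (hG l hl) (Or.inr hdense)
  · exact off_at chb5 whit5 N K _ η C hη hE hne hR l hl hdense

end H

end Pool.Agent.H933.LL
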