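import Pool.Agent.H933.LL.Loc6

/-!
# Accessible points: a simple form of the condition
-/

set_option autoImplicit false
set_option linter.unusedSectionVars false
set_option linter.unusedVariables false

open MeasureTheory Metric
open scoped Real InnerProductSpace ENNReal

namespace Pool.Agent.H933.LL

/-- simple form -/
def Accessible (E : Set ℂ) (l : ℂ) (η : ℝ) : Prop := ∃ (E' : Set ℂ) (ρ q : ℝ) (g : ℂ → ℝ)
  (B : Finset ℂ), IsClosed E' ∧ E ⊆ E' ∧ 0 < ρ ∧ 1 < q ∧ volume (E' ∩ ball l ρ) = 0 ∧
  Measurable g ∧ IntegrableOn (fun z : ℂ => |g z| ^ q) (ball l ρ) ∧ (∀ b ∈ B, b ∉ E') ∧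
  ∀ z ∈ ball l ρ, z ∉ E' → ∃ (N : ℕ) (c : ℕ → ℂ), c 0 ∈ B ∧ c N = z ∧
    (∀ j < N, ‖c (j + 1) - c j‖ ≤ infDist (c j) E' / 4) ∧
    ∑ j ∈ Finset.range (N + 1), (min 1 (infDist (c j) E')) ^ (-η) ≤ g z

lemma acc_of_accessible {E : Set ℂ} {l : ℂ} {η : ℝ} (hη : 0 < η) (hne : E.Nonempty)
    (h : Accessible E l η) : AccAt E l η := by
  obtain ⟨E', ρ, q, g, B, h1, h2, h3, h4, h5, h6, h7, h8, h9⟩ := h
  have hne' : E'.Nonempty := hne.mono h2
  -- chains stay off E'
  have hoff : ∀ (N : ℕ) (c : ℕ → ℂ), c 0 ∈ B → (∀ j < N, ‖c (j + 1) - c j‖ ≤ infDist (c j) E' / 4) →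
      ∀ j, j ≤ N → 0 < infDist (c j) E' := by
    intro N c hc0 hc j
    induction j with
    | zero => intro _; exact (h1.notMem_iff_infDist_pos hne').1 (h8 _ hc0)
    | succ j ih =>
      intro hj
      have k1 := ih (by omega)
      have k2 := hc j (by omega)
      have k3 := infDist_le_infDist_add_dist (s := E') (x := c j) (y := c (j + 1))
      rw [dist_comm, dist_eq_norm] at k3
      linarith
  have hterm : ∀ d : ℝ, 0 < d → 1 + pw η (min 1 (d / 2)) ≤ (1 + 2 ^ η) * (min 1 d) ^ (-η) := by
    intro d hd
    have k1 : 0 < min 1 (d / 2) := lt_min one_pos (by positivity)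
    have k2 : 0 < min 1 d := lt_min one_pos hd
    have k3 : min 1 d / 2 ≤ min 1 (d / 2) := by
      refine le_min ?_ ?_
      · have := min_le_left 1 d; linarith
      · have := min_le_right 1 d; linarith
    have k4 : pw η (min 1 (d / 2)) ≤ (min 1 d / 2) ^ (-η) := by
      rw [pw, abs_of_pos k1]
      exact Real.rpow_le_rpow_of_nonpos (by positivity) k3 (by linarith)
    have k5 : (min 1 d / 2) ^ (-η) = 2 ^ η * (min 1 d) ^ (-η) := by
      rw [Real.div_rpow k2.le (by norm_num), Real.rpow_neg (by norm_num : (0 : ℝ) ≤ 2)]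
      field_simp
    have k6 : 1 ≤ (min 1 d) ^ (-η) :=
      Real.one_le_rpow_of_pos_of_le_one_of_nonpos k2 (min_le_left _ _) (by linarith)
    rw [k5] at k4
    linarith
  refine ⟨E', ρ, q, fun z => |g z|, h1, h2, h3, h4, h5, measurable_norm.comp h6, fun z => abs_nonneg _,
    h7, ?_, B, 1 + 2 ^ η, fun b hb => ⟨trivial, h8 b hb⟩, fun z hz hzE => ?_⟩
  · -- integrability of the logarithm
    have hq0 : 0 < q := by linarith
    have hbd : ∀ z ∈ ball l ρ, Real.posLog (infDist z E')⁻¹ ≤ η⁻¹ * |g z| := by
      intro z hz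
      by_cases hzE : z ∈ E'
      · rw [infDist_zero_of_mem hzE, inv_zero, Real.posLog_zero]
        positivity
      · obtain ⟨N, c, k1, k2, k3, k4⟩ := h9 z hz hzE
        have hd : 0 < infDist z E' := (h1.notMem_iff_infDist_pos hne').1 hzE
        have hm : 0 < min 1 (infDist z E') := lt_min one_pos hd
        have k5 : (min 1 (infDist z E')) ^ (-η) ≤ g z := by
          refine le_trans ?_ k4
          have := Finset.single_le_sum (f := fun j => (min 1 (infDist (c j) E')) ^ (-η))
            (s := Finset.range (N + 1))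
            (fun j hj => Real.rpow_nonneg (le_min zero_le_one infDist_nonneg) _)
            (Finset.mem_range.2 (Nat.lt_succ_self N))
          simpa only [k2] using this
        have k6 : Real.posLog (infDist z E')⁻¹ ≤ η⁻¹ * (min 1 (infDist z E')) ^ (-η) := by
          rw [Real.posLog, max_le_iff]
          refine ⟨by positivity, ?_⟩
          rw [Real.log_inv]
          rcases le_total (infDist z E') 1 with h | h
          · rw [min_eq_right h]
            have k7 := Real.log_le_rpow_div (x := (infDist z E')⁻¹) (by positivity) hη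
            rw [Real.log_inv, Real.inv_rpow hd.le, ← Real.rpow_neg hd.le] at k7
            rw [inv_mul_eq_div]
            exact k7
          · have : 0 ≤ Real.log (infDist z E') := Real.log_nonneg h
            have : 0 ≤ η⁻¹ * (min 1 (infDist z E')) ^ (-η) := by positivity
            linarith
        refine k6.trans (mul_le_mul_of_nonneg_left (k5.trans (le_abs_self _)) (by positivity))
    have hmaj : IntegrableOn (fun z : ℂ => (η⁻¹) ^ q * |g z| ^ q) (ball l ρ) := h7.const_mul _
    refine Integrable.mono' hmaj ?_ ?_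
    · have hpm : Measurable Real.posLog := Real.continuous_posLog.measurable
      exact ((hpm.comp (measurable_infDist.inv)).pow_const _).aestronglyMeasurable
    · filter_upwards [ae_restrict_mem measurableSet_ball] with z hz
      rw [Real.norm_of_nonneg (Real.rpow_nonneg Real.posLog_nonneg _),
        ← Real.mul_rpow (by positivity) (abs_nonneg _)]
      exact Real.rpow_le_rpow Real.posLog_nonneg (hbd z hz) hq0.le
  · obtain ⟨N, c, k1, k2, k3, k4⟩ := h9 z hz hzE
    refine ⟨N, c, ?_, k1, k2, k3⟩
    have hpos := hoff N c k1 k3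
    calc ∑ j ∈ Finset.range (N + 1), (1 + pw η (min 1 (infDist (c j) E' / 2)))
        ≤ ∑ j ∈ Finset.range (N + 1), (1 + 2 ^ η) * (min 1 (infDist (c j) E')) ^ (-η) :=
          Finset.sum_le_sum fun j hj => hterm _ (hpos j (by
            have := Finset.mem_range.1 hj; omega))
      _ = (1 + 2 ^ η) * ∑ j ∈ Finset.range (N + 1), (min 1 (infDist (c j) E')) ^ (-η) := by
          rw [Finset.mul_sum]
      _ ≤ (1 + 2 ^ η) * (1 + |g z|) := by
          refine mul_le_mul_of_nonneg_left ?_ (by positivity)
          have := le_abs_self (g z)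
          linarith

lemma accessible_of_graph (E : Set ℂ) (l : ℂ) (η : ℝ) (hη : 0 < η) (hE : IsClosed E)
    (hne : E.Nonempty) (hG : GraphAt E l η) : Accessible E l η := by
  obtain ⟨E', ρ, q, g, h1, h2, h3, h4, h5, h6, h7, h8, h9, B, C, h10, h11⟩ :=
    graph_acc E l η hη hE hne hG
  have hne' : E'.Nonempty := hne.mono h2
  refine ⟨E', ρ, q, fun z => |C| * (1 + g z), B, h1, h2, h3, h4, h5,
    (measurable_const.add h6).const_mul _, ?_, fun b hb => (h10 b hb).2, fun z hz hzE => ?_⟩
  · have hmaj : IntegrableOn (fun z : ℂ => |C| ^ q * ((2 : ℝ) ^ (q - 1) * ((1 : ℝ) ^ q + g z ^ q)))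
        (ball l ρ) := by
      refine Integrable.const_mul (Integrable.const_mul (Integrable.add ?_ h8) _) _
      have : IsFiniteMeasure (volume.restrict (ball l ρ)) :=
        ⟨by rw [Measure.restrict_apply_univ]; exact measure_ball_lt_top⟩
      exact integrable_const _
    refine Integrable.mono' hmaj ?_ (Filter.Eventually.of_forall fun z => ?_)
    · have : Measurable fun z : ℂ => |(|C| * (1 + g z))| ^ q :=
        (measurable_norm.comp ((measurable_const.add h6).const_mul |C|)).pow_const q
      exact this.aestronglyMeasurable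
    · have hg := h7 z
      rw [Real.norm_of_nonneg (Real.rpow_nonneg (abs_nonneg _) _),
        abs_of_nonneg (by positivity : 0 ≤ |C| * (1 + g z)),
        Real.mul_rpow (abs_nonneg _) (by positivity)]
      exact mul_le_mul_of_nonneg_left (add_rpow_le zero_le_one hg h4.le)
        (Real.rpow_nonneg (abs_nonneg _) _)
  · obtain ⟨N, c, k1, k2, k3, k4⟩ := h11 z hz hzE
    refine ⟨N, c, k2, k3, k4, ?_⟩
    have hg := h7 z
    calc ∑ j ∈ Finset.range (N + 1), (min 1 (infDist (c j) E')) ^ (-η)
        ≤ ∑ j ∈ Finset.range (N + 1), (1 + pw η (min 1 (infDist (c j) E' / 2))) := by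
          refine Finset.sum_le_sum fun j hj => ?_
          have hp := pw_nonneg η (min 1 (infDist (c j) E' / 2))
          rcases (infDist_nonneg (x := c j) (s := E')).eq_or_lt with h | h
          · rw [← h, min_eq_right zero_le_one, Real.zero_rpow (by linarith)]
            rw [← h] at hp
            linarith
          · have e1 : 0 < min 1 (infDist (c j) E' / 2) := lt_min one_pos (by positivity)
            have e2 : min 1 (infDist (c j) E' / 2) ≤ min 1 (infDist (c j) E') :=
              min_le_min le_rfl (by linarith)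
            have e3 : (min 1 (infDist (c j) E')) ^ (-η) ≤ pw η (min 1 (infDist (c j) E' / 2)) := by
              rw [pw, abs_of_pos e1]
              exact Real.rpow_le_rpow_of_nonpos e1 e2 (by linarith)
            linarith
      _ ≤ C * (1 + g z) := k1
      _ ≤ |C| * (1 + g z) := mul_le_mul_of_nonneg_right (le_abs_self _) (by positivity)

end Pool.Agent.H933.LL
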