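import Pool.Agent.H933.LL.Cal
import Pool.Agent.H933.LL.Stm2
import Pool.Agent.H933.TI.Core

/-!
# Logarithms of `a - z` and the resolvent of a Toeplitz operator
-/

set_option autoImplicit false
set_option linter.unusedSectionVars false
set_option linter.deprecated false
set_option linter.unusedVariables false

open scoped BigOperators Nat
open MeasureTheory AddCircle Pool.Agent.Results.MP_f981b0_an.LogIntegrableNests
open Pool.Agent.H933.TI

namespace Pool.Agent.H933.LL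

lemma fourier_coe (k : ℤ) (t : ℝ) :
    (fourier k (t : UnitAddCircle) : ℂ) = Complex.exp (k * (2 * Real.pi * Complex.I) * t) := by
  rw [fourier_coe_apply]
  congr 1
  push_cast
  ring

/-- oscillation of the logarithm, both orders -/
lemma osc_both {G w : ℝ → ℂ} (hG : Continuous G) (hexp : ∀ t, Complex.exp (G t) = w t)
    {δ η : ℝ} (hη0 : 0 ≤ η) (hη : η < 1 / 2) (hw0 : ∀ t, 0 < ‖w t‖)
    (hmod : ∀ s t : ℝ, |s - t| ≤ δ → ‖w s - w t‖ ≤ η * ‖w s‖) :
    ∀ s t : ℝ, |s - t| ≤ δ → ‖G s - G t‖ ≤ 2 * η := by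
  have key : ∀ s t : ℝ, s ≤ t → t - s ≤ δ → ‖G t - G s‖ ≤ 2 * η := by
    intro s t hst hd
    have h1 := osc_good hG hexp (a := s) (b := t) (r := η * ‖w s‖)
      (fun u hu1 hu2 => by
        have := hmod s u (by rw [abs_sub_comm, abs_of_nonneg (by linarith)]; linarith)
        rw [norm_sub_rev]; exact this)
      (by have := hw0 s; nlinarith) (by have := hw0 s; positivity) hst le_rfl
    have h2 : η * ‖w s‖ / ‖w s‖ = η := mul_div_cancel_right₀ _ (hw0 s).ne'
    rw [h2] at h1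
    linarith
  intro s t hst
  rcases le_total s t with h | h
  · rw [norm_sub_rev]
    exact key s t h (by rw [abs_sub_comm, abs_of_nonneg (by linarith)] at hst; exact hst)
  · exact key t s h (by rw [abs_of_nonneg (by linarith)] at hst; exact hst)

/-- growth of a function with small oscillation -/
lemma growth {G : ℝ → ℂ} {δ ω : ℝ} (hδ : 0 < δ) (hδ1 : δ ≤ 1) (hω : 0 ≤ ω)
    (hosc : ∀ s t : ℝ, |s - t| ≤ δ → ‖G s - G t‖ ≤ ω) (t : ℝ) (h0 : 0 ≤ t) (h1 : t ≤ 1) :
    ‖G t - G 0‖ ≤ 2 * ω / δ := by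
  have hN : ∀ n : ℕ, ∀ t : ℝ, 0 ≤ t → t ≤ n * δ → ‖G t - G 0‖ ≤ n * ω := by
    intro n
    induction n with
    | zero =>
      intro t ht0 ht
      have : t = 0 := by
        simp only [Nat.cast_zero, zero_mul] at ht; linarith
      subst this; simp
    | succ n ih =>
      intro t ht0 ht
      push_cast at ht ⊢
      rcases le_total t δ with hd | hd
      · have := hosc t 0 (by rw [sub_zero, abs_of_nonneg ht0]; exact hd)
        have h2 : 0 ≤ (n : ℝ) * ω := by positivity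
        linarith
      · have h2 := ih (t - δ) (by linarith) (by linarith)
        have h3 := hosc t (t - δ) (by rw [sub_sub_cancel, abs_of_pos hδ])
        have h4 : G t - G 0 = (G t - G (t - δ)) + (G (t - δ) - G 0) := by ring
        rw [h4]
        refine (norm_add_le _ _).trans ?_
        linarith
  obtain ⟨n, hn⟩ := exists_nat_ge (1 / δ)
  have hn' : (Nat.ceil (1 / δ) : ℝ) < 1 / δ + 1 := Nat.ceil_lt_add_one (by positivity)
  have h2 := hN (Nat.ceil (1 / δ)) t h0 (by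
    have := Nat.le_ceil (1 / δ)
    calc t ≤ 1 := h1
      _ = (1 / δ) * δ := by field_simp
      _ ≤ _ := mul_le_mul_of_nonneg_right this hδ.le)
  refine h2.trans ?_
  have h3 : (1 : ℝ) ≤ 1 / δ := by rw [le_div_iff₀ hδ]; linarith
  have h4 : (Nat.ceil (1 / δ) : ℝ) ≤ 2 / δ := by
    have : 2 / δ = 1 / δ + 1 / δ := by ring
    linarith
  calc (Nat.ceil (1 / δ) : ℝ) * ω ≤ 2 / δ * ω := mul_le_mul_of_nonneg_right h4 hω
    _ = 2 * ω / δ := by ring

/-- the logarithm of `a - z` -/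
lemma log_data (a : C(UnitAddCircle, ℂ)) (z : ℂ) {δ η : ℝ} (hδ : 0 < δ) (hδ1 : δ ≤ 1)
    (hη0 : 0 ≤ η) (hη : η < 1 / 4)
    (hlow : ∀ t : UnitAddCircle, δ ≤ ‖a t - z‖)
    (hmod : ∀ s t : ℝ, |s - t| ≤ δ →
      ‖a (s : UnitAddCircle) - a (t : UnitAddCircle)‖ ≤ η * ‖a (s : UnitAddCircle) - z‖) :
    ∃ (k : ℤ) (g : C(UnitAddCircle, ℂ)),
      (∀ t, a t - z = fourier k t * Complex.exp (g t)) ∧
      (k = 0 → (∀ s t : ℝ, |s - t| ≤ δ →
        ‖g (s : UnitAddCircle) - g (t : UnitAddCircle)‖ ≤ 2 * η) ∧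
        ‖g‖ ≤ (6 + Real.posLog (‖a‖ + ‖z‖)) / δ) := by
  set w : ℝ → ℂ := fun t => a (t : UnitAddCircle) - z with hw
  have hwc : Continuous w := by
    have : Continuous fun t : ℝ => (t : UnitAddCircle) := AddCircle.continuous_mk' 1
    exact (a.continuous.comp this).sub continuous_const
  have hw0 : ∀ t, 0 < ‖w t‖ := fun t => lt_of_lt_of_le hδ (hlow _)
  obtain ⟨G, hG, hexp, hG0⟩ := exists_log w hwc (fun t => norm_pos_iff.1 (hw0 t))
  have hwp : ∀ t, w (t + 1) = w t := by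
    intro t
    simp only [hw]
    congr 2
    rw [AddCircle.coe_add, AddCircle.coe_period, add_zero]
  obtain ⟨k, hk⟩ := exists_winding hG (fun t => by rw [hexp, hexp, hwp])
  have hosc := osc_both hG hexp hη0 (by linarith) hw0 (fun s t hst => by
    have := hmod s t hst
    simp only [hw]
    rw [sub_sub_sub_cancel_right]
    exact this)
  obtain ⟨g, hg⟩ := exists_circle (f := fun t => G t - k * (2 * Real.pi * Complex.I) * t)
    (by fun_prop) (fun t => by
      rw [hk t]; push_cast; ring)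
  refine ⟨k, g, ?_, ?_⟩
  · intro t
    induction t using QuotientAddGroup.induction_on with
    | H t =>
      have h1 := hg t
      have h2 : (fourier k ((t : ℝ) : UnitAddCircle) : ℂ)
        = Complex.exp (k * (2 * Real.pi * Complex.I) * t) := fourier_coe k t
      change a (t : UnitAddCircle) - z = (fourier k ((t : ℝ) : UnitAddCircle) : ℂ)
        * Complex.exp (g (t : UnitAddCircle))
      rw [h1, h2, ← Complex.exp_add]
      have h3 : (k : ℂ) * (2 * Real.pi * Complex.I) * t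
          + (G t - k * (2 * Real.pi * Complex.I) * t) = G t := by ring
      rw [h3, hexp]
  · intro hk0
    subst hk0
    have hg' : ∀ t : ℝ, g (t : UnitAddCircle) = G t := by
      intro t; rw [hg t]; simp
    refine ⟨fun s t hst => by rw [hg', hg']; exact hosc s t hst, ?_⟩
    have hz : 0 ≤ Real.posLog (‖a‖ + ‖z‖) := Real.posLog_nonneg
    -- the value at zero
    have hG00 : ‖G 0‖ ≤ (5 + Real.posLog (‖a‖ + ‖z‖)) / δ := by
      rw [hG0]
      have hpi := Real.pi_lt_four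
      have h1 : ‖Complex.log (w 0)‖ ≤ |Real.log ‖w 0‖| + Real.pi := by
        refine (Complex.norm_le_abs_re_add_abs_im _).trans ?_
        rw [Complex.log_re, Complex.log_im]
        exact add_le_add le_rfl (Complex.abs_arg_le_pi _)
      have h2 : |Real.log ‖w 0‖| ≤ 1 / δ + Real.posLog (‖a‖ + ‖z‖) := by
        rw [abs_le]
        constructor
        · have h3 : Real.log δ ≤ Real.log ‖w 0‖ := Real.log_le_log hδ (hlow _)
          have h4 : -(1 / δ) ≤ Real.log δ := by
            have := Real.log_le_sub_one_of_pos (show 0 < 1 / δ by positivity)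
            rw [Real.log_div one_ne_zero hδ.ne', Real.log_one] at this
            linarith
          linarith
        · have h3 : ‖w 0‖ ≤ ‖a‖ + ‖z‖ := by
            refine (norm_sub_le _ _).trans (add_le_add (a.norm_coe_le_norm _) le_rfl)
          have h4 : Real.log ‖w 0‖ ≤ Real.posLog (‖a‖ + ‖z‖) :=
            (Real.log_le_log (hw0 0) h3).trans (le_max_right _ _)
          have : 0 < 1 / δ := by positivity
          linarith
      have h5 : (1 : ℝ) ≤ 1 / δ := by rw [le_div_iff₀ hδ]; linarith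
      rw [show (5 + Real.posLog (‖a‖ + ‖z‖)) / δ
        = 5 * (1 / δ) + Real.posLog (‖a‖ + ‖z‖) * (1 / δ) by ring]
      nlinarith
    rw [ContinuousMap.norm_le _ (by positivity)]
    intro t
    obtain ⟨u, hu, rfl⟩ : ∃ u ∈ Set.Icc (0 : ℝ) 1, (u : UnitAddCircle) = t := by
      have := AddCircle.coe_image_Icc_eq (p := (1 : ℝ)) 0
      have ht : t ∈ (fun x : ℝ => (x : UnitAddCircle)) '' Set.Icc 0 (0 + 1) := by
        rw [this]; trivial
      obtain ⟨u, hu1, hu2⟩ := ht
      rw [zero_add] at hu1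
      exact ⟨u, hu1, hu2⟩
    rw [hg' u]
    have h6 := growth hδ hδ1 (by positivity : (0 : ℝ) ≤ 2 * η) hosc u hu.1 hu.2
    have h7 : ‖G u‖ ≤ ‖G u - G 0‖ + ‖G 0‖ := by
      have : G u = (G u - G 0) + G 0 := by ring
      calc ‖G u‖ = ‖(G u - G 0) + G 0‖ := by rw [← this]
        _ ≤ _ := norm_add_le _ _
    have h8 : 2 * (2 * η) / δ ≤ 1 / δ := by
      gcongr; linarith
    calc ‖G u‖ ≤ 1 / δ + (5 + Real.posLog (‖a‖ + ‖z‖)) / δ := by linarith
      _ = _ := by ring

/-- small exponentials -/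
lemma norm_exp_sub_one (r : C(UnitAddCircle, ℂ)) {ω : ℝ} (hω : ω ≤ 1) (hr : ‖r‖ ≤ ω) :
    ‖NormedSpace.exp r - 1‖ ≤ 2 * ω := by
  have h0 : 0 ≤ ω := (norm_nonneg _).trans hr
  rw [ContinuousMap.norm_le _ (by positivity)]
  intro t
  rw [ContinuousMap.sub_apply, exp_apply, ContinuousMap.one_apply]
  have h1 : ‖r t‖ ≤ ω := (r.norm_coe_le_norm t).trans hr
  refine (Complex.norm_exp_sub_one_le (h1.trans hω)).trans ?_
  linarith

section Calc

variable {X : Type} [NormedAddCommGroup X] [NormedSpace ℂ X] [CompleteSpace X]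
variable {S R : X →L[ℂ] X} {Θ : C(UnitAddCircle, ℂ) →L[ℂ] (X →L[ℂ] X)}

lemma Calc.chain_of_ne' (hC : Calc S R Θ) (a g : C(UnitAddCircle, ℂ)) (l : ℂ) (k : ℤ)
    (hk : k ≠ 0) (he : ∀ t, a t - l = fourier k t * Complex.exp (g t)) :
    InfiniteChain (Θ a) := by
  have hd : g ∈ closure (Set.range (Ev : W → C(UnitAddCircle, ℂ))) := by
    have h1 : ((Submodule.span ℂ (Set.range (@fourier 1)) :
        Submodule ℂ C(UnitAddCircle, ℂ)) : Set C(UnitAddCircle, ℂ))
        ⊆ Set.range (Ev : W → C(UnitAddCircle, ℂ)) := by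
      have : (Submodule.span ℂ (Set.range (@fourier 1)) : Submodule ℂ C(UnitAddCircle, ℂ))
          ≤ LinearMap.range (Ev : W →ₗ[ℂ] C(UnitAddCircle, ℂ)) := by
        rw [Submodule.span_le]
        rintro _ ⟨n, rfl⟩
        exact ⟨del n, by rw [ContinuousLinearMap.coe_coe, Ev, lift_del]⟩
      intro x hx
      obtain ⟨y, hy⟩ := this hx
      exact ⟨y, hy⟩
    exact closure_mono h1 (dense_fourier g)
  set ω : ℝ := 1 / (4 * (‖Θ‖ + 1)) with hω
  have hΘ := norm_nonneg Θ
  have hω0 : 0 < ω := by positivity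
  obtain ⟨_, ⟨p, rfl⟩, hp⟩ := Metric.mem_closure_iff.1 hd ω hω0
  rw [dist_eq_norm] at hp
  have hω1 : ω ≤ 1 := by
    rw [hω, div_le_one (by positivity)]; linarith
  refine hC.chain_of_ne a (g - Ev p) p l k hk ?_ ?_
  · refine (mul_le_mul_of_nonneg_left (norm_exp_sub_one _ hω1 hp.le) hΘ).trans ?_
    rw [hω]
    rw [mul_one_div, mul_div_assoc', div_le_iff₀ (by positivity)]
    nlinarith
  · intro t
    rw [he t, mul_assoc, ← Complex.exp_add, ContinuousMap.sub_apply, Ev_apply]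
    congr 2
    ring

/-- the resolvent bound at a point with a modulus `δ` -/
lemma Calc.bound (hC : Calc S R Θ) (hA : P_avg) (a : C(UnitAddCircle, ℂ))
    (hno : ¬ InfiniteChain (Θ a)) (z : ℂ)
    {δ η : ℝ} (hδ : 0 < δ) (hδ1 : δ ≤ 1) (hη0 : 0 < η) (hη : η ≤ 1 / (16 * (‖Θ‖ + 1)))
    (hlow : ∀ t : UnitAddCircle, δ ≤ ‖a t - z‖)
    (hmod : ∀ s t : ℝ, |s - t| ≤ δ →
      ‖a (s : UnitAddCircle) - a (t : UnitAddCircle)‖ ≤ η * ‖a (s : UnitAddCircle) - z‖) :
    z ∉ spectrum ℂ (Θ a) ∧ ‖resolvent (Θ a) z‖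
      ≤ 2 * Real.exp (3 * ‖Θ‖ * (6 + Real.posLog (‖a‖ + ‖z‖)) / δ ^ 2) := by
  have hΘ := norm_nonneg Θ
  have hη4 : η ≤ 1 / 16 := hη.trans (by gcongr; linarith)
  obtain ⟨k, g, h1, h2⟩ := log_data a z hδ hδ1 hη0.le (by linarith) hlow hmod
  by_cases hk : k = 0
  · subst hk
    obtain ⟨h3, h4⟩ := h2 rfl
    obtain ⟨c, hc1, hc2, hc3⟩ := hA g δ (2 * η) hδ hδ1 h3
    set p : W := mkW c hc1 with hp
    have hev : ∀ t, ev t p = ∑' n, c n • (fourier n t : ℂ) := fun t => by
      rw [ev_apply]; rfl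
    have hpn : ‖p‖ ≤ 3 * ‖g‖ / δ := by rw [hp, norm_mkW]; exact hc2
    have hr : ‖g - Ev p‖ ≤ 2 * η := by
      rw [ContinuousMap.norm_le _ (by positivity)]
      intro t
      rw [ContinuousMap.sub_apply, Ev_apply, hev]
      exact hc3 t
    have hsmall : ‖Θ‖ * ‖NormedSpace.exp (g - Ev p) - 1‖ ≤ 1 / 2 := by
      refine (mul_le_mul_of_nonneg_left (norm_exp_sub_one _ (by linarith) hr) hΘ).trans ?_
      have h5 : (‖Θ‖ + 1) * η ≤ 1 / 16 := by
        calc (‖Θ‖ + 1) * η ≤ (‖Θ‖ + 1) * (1 / (16 * (‖Θ‖ + 1))) :=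
              mul_le_mul_of_nonneg_left hη (by positivity)
          _ = 1 / 16 := by field_simp
      nlinarith
    obtain ⟨r1, r2⟩ := hC.resolvent_of_zero a (g - Ev p) p z hsmall (fun t => by
      rw [h1 t, fourier_zero, one_mul, ← Complex.exp_add, ContinuousMap.sub_apply, Ev_apply]
      congr 1; ring)
    refine ⟨r1, r2.trans ?_⟩
    refine mul_le_mul_of_nonneg_left (Real.exp_le_exp.2 ?_) (by norm_num)
    calc ‖Θ‖ * ‖p‖ ≤ ‖Θ‖ * (3 * ((6 + Real.posLog (‖a‖ + ‖z‖)) / δ) / δ) := by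
          refine mul_le_mul_of_nonneg_left (hpn.trans ?_) hΘ
          gcongr
      _ = 3 * ‖Θ‖ * (6 + Real.posLog (‖a‖ + ‖z‖)) / δ ^ 2 := by
          field_simp
  · exact absurd (hC.chain_of_ne' a g z k hk h1) hno

end Calc

end Pool.Agent.H933.LL
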