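import Pool.Agent.H933.LL.Stm3
import Pool.Agent.H933.LL.Dec
import Pool.Agent.H933.LL.Hoe

/-!
# Perturbations
-/

set_option autoImplicit false
set_option linter.unusedSectionVars false
set_option linter.unusedVariables false

open MeasureTheory Metric
open scoped Real

namespace Pool.Agent.H933.LL

section Pert

variable {X : Type} [NormedAddCommGroup X] [NormedSpace ℂ X] [CompleteSpace X]

/-- hyperinvariant subspaces under the global condition -/
theorem hyper_of_logLog (T : X →L[ℂ] X) (q : ℝ) (hq : 1 < q) (hT : LogLog T q)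
    (hn : (spectrum ℂ T).Nontrivial) : ∃ V : Submodule ℂ X, Hyper T V ∧ V ≠ ⊥ ∧ V ≠ ⊤ := by
  refine nontrivial_hyper T (ball (0 : ℂ) (‖T‖ * ‖(1 : X →L[ℂ] X)‖ + 1)) isOpen_ball q hq
    (measure_mono_null Set.inter_subset_left hT.1) (hT.2 _) ?_
  obtain ⟨a, ha, b, hb, hab⟩ := hn
  have hmem : ∀ z ∈ spectrum ℂ T, z ∈ ball (0 : ℂ) (‖T‖ * ‖(1 : X →L[ℂ] X)‖ + 1) := by
    intro z hz
    rw [mem_ball_zero_iff]
    have := spectrum.norm_le_norm_mul_of_mem hz
    linarith
  exact ⟨a, ⟨ha, hmem a ha⟩, b, ⟨hb, hmem b hb⟩, hab⟩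

theorem logLog_of_bound (T : X →L[ℂ] X) (E : Set ℂ) (hE : IsClosed E)
    (hthin : LogThin E 4) (hres : ∀ w : ℂ, w ∉ E → w ∈ resolventSet ℂ T)
    (hb : ∀ r : ℝ, ∃ C' : ℝ, ∀ z ∈ ball (0 : ℂ) r, z ∉ E →
      Real.posLog (Real.posLog ‖resolvent T z‖) ≤ C' * (1 + Real.posLog (infDist z E)⁻¹) ^ 2) :
    LogLog T 2 := by
  have hsub : spectrum ℂ T ⊆ E := by
    intro z hz
    by_contra h
    exact hz (hres z h)
  refine ⟨measure_mono_null hsub hthin.1, fun r => ?_⟩
  obtain ⟨C', hC'⟩ := hb r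
  have hmaj : Integrable (fun z : ℂ => C' ^ 2 * ((2 : ℝ) ^ ((4 : ℝ) - 1) * ((1 : ℝ) ^ (4 : ℝ)
      + (Real.posLog (infDist z E)⁻¹) ^ (4 : ℝ)))) (volume.restrict (ball (0 : ℂ) r)) := by
    refine Integrable.const_mul (Integrable.const_mul (Integrable.add ?_ (hthin.2 r)) _) _
    have : IsFiniteMeasure (volume.restrict (ball (0 : ℂ) r)) :=
      ⟨by rw [Measure.restrict_apply_univ]; exact measure_ball_lt_top⟩
    exact integrable_const _
  have hEn : ∀ᵐ z ∂(volume.restrict (ball (0 : ℂ) r)), z ∉ E := by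
    have h1 : volume.restrict (ball (0 : ℂ) r) E = 0 :=
      le_antisymm ((Measure.restrict_apply_le _ _).trans hthin.1.le) bot_le
    rw [ae_iff]; simpa using h1
  refine hmaj.mono' ?_ ?_
  · have h1 : AEMeasurable (fun z : ℂ => ‖resolvent T z‖) (volume.restrict (ball (0 : ℂ) r)) :=
      (Pool.Agent.H571.LL.aesm_resolvent T _).norm.aemeasurable
    have h2 : Measurable Real.posLog := Real.continuous_posLog.measurable
    exact ((h2.comp_aemeasurable (h2.comp_aemeasurable h1)).pow_const _).aestronglyMeasurable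
  · filter_upwards [hEn, ae_restrict_mem isOpen_ball.measurableSet] with z hz hzr
    have h0 : 0 ≤ Real.posLog (Real.posLog ‖resolvent T z‖) := Real.posLog_nonneg
    have h1 := hC' z hzr hz
    have hp : 0 ≤ Real.posLog (infDist z E)⁻¹ := Real.posLog_nonneg
    rw [Real.norm_of_nonneg (Real.rpow_nonneg h0 _)]
    have h2 : Real.posLog (Real.posLog ‖resolvent T z‖) ^ (2 : ℝ)
        ≤ (C' * (1 + Real.posLog (infDist z E)⁻¹) ^ 2) ^ (2 : ℝ) :=
      Real.rpow_le_rpow h0 h1 (by norm_num)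
    refine h2.trans ?_
    have h3 : (C' * (1 + Real.posLog (infDist z E)⁻¹) ^ 2) ^ (2 : ℝ)
        = C' ^ 2 * (1 + Real.posLog (infDist z E)⁻¹) ^ (4 : ℝ) := by
      rw [show ((2 : ℝ)) = ((2 : ℕ) : ℝ) by norm_num, Real.rpow_natCast,
        show ((4 : ℝ)) = ((4 : ℕ) : ℝ) by norm_num, Real.rpow_natCast]
      ring
    rw [h3]
    exact mul_le_mul_of_nonneg_left (add_rpow_le zero_le_one hp (by norm_num)) (by positivity)

theorem pert (hchb : P_chb) (h1 : P_clos) (h2 : P_split) (S K : X →L[ℂ] X) (E : Set ℂ) (C A : ℝ)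
    (hE : IsClosed E) (hne : E.Nonempty) (hthin : LogThin E 4) (hQ : QH E) (hR : Rate S K E C A) :
    ((∃ w : ℂ, w ∉ E ∧ ∃ x : X, x ≠ 0 ∧ (S + K) x = w • x) ∨ Decomposable (S + K)) ∧
    ((spectrum ℂ (S + K)).Nontrivial →
      ∃ V : Submodule ℂ X, Hyper (S + K) V ∧ V ≠ ⊥ ∧ V ≠ ⊤) := by
  by_cases hev : ∃ w : ℂ, w ∉ E ∧ ∃ x : X, x ≠ 0 ∧ (S + K) x = w • x
  · refine ⟨Or.inl hev, fun hn => ?_⟩
    obtain ⟨w, hw, x, hx, hxw⟩ := hev
    set T := S + K with hT
    refine ⟨LinearMap.ker ((T - w • (1 : X →L[ℂ] X) : X →L[ℂ] X) : X →ₗ[ℂ] X),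
      ⟨isClosed_eq (T - w • (1 : X →L[ℂ] X)).continuous continuous_const, fun Q hQ y hy => ?_⟩,
      ?_, ?_⟩
    · simp only [LinearMap.mem_ker, ContinuousLinearMap.coe_coe] at hy ⊢
      have h3 : T (Q y) = Q (T y) := by
        have := congrArg (fun A : X →L[ℂ] X => A y) hQ
        simpa using this.symm
      have h4 : T y = w • y := by
        have : T y - w • y = 0 := by simpa using hy
        exact sub_eq_zero.1 this
      change T (Q y) - w • Q y = 0
      rw [h3, h4, map_smul, sub_self]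
    · intro hbot
      apply hx
      have : x ∈ LinearMap.ker ((T - w • (1 : X →L[ℂ] X) : X →L[ℂ] X) : X →ₗ[ℂ] X) := by
        simp only [LinearMap.mem_ker, ContinuousLinearMap.coe_coe]
        change T x - w • x = 0
        rw [hxw, sub_self]
      rw [hbot, Submodule.mem_bot] at this
      exact this
    · intro htop
      have hTw : T = w • (1 : X →L[ℂ] X) := by
        ext y
        have : y ∈ LinearMap.ker ((T - w • (1 : X →L[ℂ] X) : X →L[ℂ] X) : X →ₗ[ℂ] X) := by
          rw [htop]; trivial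
        simp only [LinearMap.mem_ker, ContinuousLinearMap.coe_coe] at this
        have h5 : T y - w • y = 0 := this
        exact sub_eq_zero.1 h5
      obtain ⟨a, ha, b, hb, hab⟩ := hn
      have hone : ∀ a ∈ spectrum ℂ T, a = w := by
        intro a ha
        by_contra haw
        apply ha
        rw [hTw]
        change IsUnit (algebraMap ℂ (X →L[ℂ] X) a - w • (1 : X →L[ℂ] X))
        rw [Algebra.algebraMap_eq_smul_one, ← sub_smul, ← Algebra.algebraMap_eq_smul_one]
        exact (isUnit_iff_ne_zero.2 (sub_ne_zero.2 haw)).map (algebraMap ℂ (X →L[ℂ] X))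
      exact hab ((hone a ha).trans (hone b hb).symm)
  · have hno : ∀ w : ℂ, w ∉ E → ∀ x : X, (S + K) x = w • x → x = 0 := by
      intro w hw x hx
      by_contra h
      exact hev ⟨w, hw, x, h, hx⟩
    obtain ⟨h3, h4⟩ := hchb X S K E C A hE hne hQ hR hno
    have hLL := logLog_of_bound (S + K) E hE hthin h3 h4
    exact ⟨Or.inr (decomposable h1 h2 (S + K) 2 (by norm_num) hLL),
      hyper_of_logLog (S + K) 2 (by norm_num) hLL⟩

end Pert

end Pool.Agent.H933.LL
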