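import Mathlib

/-!
# Statements: logarithms in the Wiener algebra with a power weight (pure Mathlib)
-/

set_option autoImplicit false

open MeasureTheory Metric AddCircle
open scoped Real

namespace Pool.Agent.H933.LL

/-- the Fourier series of the continuous function `F` converges absolutely, with sum of the moduli of the
coefficients at most `m` -/
def WN (F : C(UnitAddCircle, ℂ)) (m : ℝ) : Prop :=
  (Summable fun n : ℤ => ‖fourierCoeff F n‖) ∧ ∑' n : ℤ, ‖fourierCoeff F n‖ ≤ m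

/-- **P_walg** (Wiener algebra). Products: `fourierCoeff (F * G)` is the convolution (multiply the uniformly
convergent series `hasSum_fourier_series_of_summable`; the coefficient functional is continuous).
Limits: `fourierCoeff` is continuous for the sup norm; Fatou for sums. -/
def P_walg : Prop :=
  (∀ (F G : C(UnitAddCircle, ℂ)) (m m' : ℝ), WN F m → WN G m' → WN (F * G) (m * m')) ∧
  (∀ (F G : C(UnitAddCircle, ℂ)) (m m' : ℝ), WN F m → WN G m' → WN (F + G) (m + m')) ∧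
  (∀ (F : C(UnitAddCircle, ℂ)) (m : ℝ) (z : ℂ), WN F m → WN (z • F) (‖z‖ * m)) ∧
  (∀ (F : C(UnitAddCircle, ℂ)) (m : ℝ), WN F m → ‖F‖ ≤ m) ∧
  (∀ (F : ℕ → C(UnitAddCircle, ℂ)) (G : C(UnitAddCircle, ℂ)) (m : ℝ),
    (∀ j, WN (F j) m) → Filter.Tendsto F Filter.atTop (nhds G) → WN G m)

/-- **P_sob**: a Lipschitz function supported on a short arc. By Parseval for `F(· + τ) - F`,
`∑ |exp(2πinτ) - 1|² |F̂(n)|² ≤ (m' τ)² (4h + 2τ)` (the difference is supported on two arcs); divide by `τ²`, let `τ → 0`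
(Fatou): `∑ (2πn)² |F̂(n)|² ≤ 4h m'²`; also `∑ |F̂(n)|² ≤ 4h m²`. Cauchy-Schwarz on `|n| ≤ 1/h` and `|n| > 1/h`. -/
def P_sob : Prop := ∃ C : ℝ, 0 < C ∧ ∀ (F : C(UnitAddCircle, ℂ)) (t₀ : UnitAddCircle) (h m m' : ℝ),
  0 < h → h ≤ 1 / 4 → 0 ≤ m → 0 ≤ m' → (∀ t, 2 * h < dist t t₀ → F t = 0) → (∀ t, ‖F t‖ ≤ m) →
  (∀ s t, ‖F s - F t‖ ≤ m' * dist s t) → WN F (C * (m + h * m'))

/-- **P_wlog** (logarithms). Let `N ≥ 4`, `h = 1/N`, `t_j = j/N`, `Δ_j(t) = max 0 (1 - N dist(t, t_j))`,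
`V_j(t) = min 1 (max 0 (2 - N dist(t, t_j)))` (`= 1` on the support of `Δ_j`), `∑_j Δ_j = 1`. By `P_sob`
`WN Δ_j C₁`, `WN V_j C₁`, and for `e_n = fourier n`: `WN (V_j (e_n - e_n(t_j))) (C₁ |n| h)` and (trivially, by `P_walg`)
`≤ 2 C₁`, hence `≤ 2 C₁ (|n| h)^δ`. So `w_j = V_j (a - a(t_j))/(a(t_j) - z)` has Wiener norm `≤ 2 C₁ M h^δ / d ≤ 1/2` for
`N = ⌈(4 C₁ M/d)^{1/δ}⌉ + 4`. `Log(1 + w_j) = ∑ (-1)^{k+1} w_j^k / k` converges in the Wiener algebra, norm `≤ 1`.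
Let `g` be the continuous logarithm of `a - z` (given). On the support of `Δ_j` `g = g(t_j) + Log(1 + w_j)` (both are
continuous logarithms of `a - z` on an arc, equal at `t_j`), so `g = ∑_j Δ_j (g(t_j) + Log(1 + w_j))` and
`‖g‖_W ≤ N C₁ (‖g‖_∞ + 1)`. -/
def P_wlog : Prop := ∀ (δ M : ℝ), 0 < δ → δ ≤ 1 → 0 < M → ∃ C A : ℝ, 0 < C ∧ 0 < A ∧
  ∀ (a g : C(UnitAddCircle, ℂ)) (z : ℂ) (d : ℝ),
  (Summable fun n : ℤ => (1 + |(n : ℝ)|) ^ δ * ‖fourierCoeff a n‖) →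
  ∑' n : ℤ, (1 + |(n : ℝ)|) ^ δ * ‖fourierCoeff a n‖ ≤ M → 0 < d → d ≤ 1 →
  (∀ t, d ≤ ‖a t - z‖) → (∀ t, a t - z = Complex.exp (g t)) →
  WN g (C * d ^ (-A) * (1 + ‖g‖))

end Pool.Agent.H933.LL
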