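import Pool.Agent.H933.LL.Hoe
import Pool.Agent.H933.LL.Stm7

/-!
# Toeplitz operators on Banach spaces with symbols in weighted Wiener algebras
-/

set_option autoImplicit false
set_option linter.unusedSectionVars false
set_option linter.deprecated false
set_option linter.unusedVariables false

open scoped BigOperators NNReal
open MeasureTheory AddCircle Metric Pool.Agent.Results.MP_f981b0_an.LogIntegrableNests
open Pool.Agent.H933.TI

namespace Pool.Agent.H933.LL

lemma norm_fourier_sub_le (n : ℤ) (s t : ℝ) :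
    ‖(fourier n (s : UnitAddCircle) : ℂ) - fourier n (t : UnitAddCircle)‖
      ≤ 2 * Real.pi * |(n : ℝ)| * |s - t| := by
  have h1 : ∀ x : ℝ, ‖Complex.exp (x * Complex.I) - 1‖ ≤ |x| := by
    intro x
    have := Real.norm_exp_I_mul_ofReal_sub_one_le (x := x)
    rw [mul_comm] at this
    simpa using this
  have h2 : (fourier n (s : UnitAddCircle) : ℂ) - fourier n (t : UnitAddCircle)
      = fourier n (t : UnitAddCircle)
        * (Complex.exp ((2 * Real.pi * n * (s - t) : ℝ) * Complex.I) - 1) := by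
    rw [fourier_coe, fourier_coe, mul_sub, mul_one, ← Complex.exp_add]
    congr 2
    push_cast
    ring
  rw [h2, norm_mul, norm_fourier_apply, one_mul]
  refine (h1 _).trans (le_of_eq ?_)
  rw [abs_mul, abs_mul, abs_mul, abs_of_pos Real.pi_pos, abs_of_pos (by norm_num : (0 : ℝ) < 2)]

lemma norm_fourier_sub_le' (n : ℤ) (s t : UnitAddCircle) :
    ‖(fourier n s : ℂ) - fourier n t‖ ≤ 2 * Real.pi * |(n : ℝ)| * dist s t := by
  obtain ⟨v, rfl⟩ := QuotientAddGroup.mk_surjective t
  obtain ⟨w, rfl⟩ := QuotientAddGroup.mk_surjective s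
  set u : ℝ := (w - v) - round (w - v) with hu
  have h1 : ((v + u : ℝ) : UnitAddCircle) = (w : UnitAddCircle) := by
    have : v + u = w + ((-(round (w - v)) : ℤ) : ℝ) := by rw [hu]; push_cast; ring
    rw [this, AddCircle.coe_add]
    have h3 : (((-(round (w - v)) : ℤ) : ℝ) : UnitAddCircle) = 0 := by
      rw [AddCircle.coe_eq_zero_iff]
      exact ⟨-(round (w - v)), by simp⟩
    rw [h3, add_zero]
  have h2 : dist (w : UnitAddCircle) (v : UnitAddCircle) = |u| := by
    rw [dist_eq_norm, ← QuotientAddGroup.mk_sub]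
    exact UnitAddCircle.norm_eq
  have h4 := norm_fourier_sub_le n (v + u) v
  rw [h1, add_sub_cancel_left] at h4
  change ‖(fourier n (w : UnitAddCircle) : ℂ) - fourier n (v : UnitAddCircle)‖
    ≤ 2 * Real.pi * |(n : ℝ)| * dist (w : UnitAddCircle) (v : UnitAddCircle)
  rw [h2]
  exact h4

lemma fourier_holder (n : ℤ) {δ : ℝ} (hδ0 : 0 < δ) (hδ1 : δ ≤ 1) (s t : UnitAddCircle) :
    ‖(fourier n s : ℂ) - fourier n t‖ ≤ 2 * Real.pi * ((1 + |(n : ℝ)|) ^ δ * dist s t ^ δ) := by
  have hpi := Real.pi_gt_three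
  set y : ℝ := (1 + |(n : ℝ)|) * dist s t with hy
  have hy0 : 0 ≤ y := by positivity
  have h1 : (1 + |(n : ℝ)|) ^ δ * dist s t ^ δ = y ^ δ := by
    rw [hy, Real.mul_rpow (by positivity) dist_nonneg]
  rw [h1]
  rcases le_total y 1 with h | h
  · refine (norm_fourier_sub_le' n s t).trans ?_
    have h2 : |(n : ℝ)| * dist s t ≤ y := by
      rw [hy]
      have : 0 ≤ dist s t := dist_nonneg
      nlinarith
    have h3 : y ≤ y ^ δ := by
      rcases eq_or_lt_of_le hy0 with h0 | h0
      · rw [← h0]; exact Real.rpow_nonneg le_rfl _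
      · calc y = y ^ (1 : ℝ) := (Real.rpow_one y).symm
          _ ≤ y ^ δ := Real.rpow_le_rpow_of_exponent_ge h0 h hδ1
    have : 2 * Real.pi * |(n : ℝ)| * dist s t = 2 * Real.pi * (|(n : ℝ)| * dist s t) := by ring
    rw [this]
    exact mul_le_mul_of_nonneg_left (h2.trans h3) (by positivity)
  · have h2 : ‖(fourier n s : ℂ) - fourier n t‖ ≤ 2 := by
      refine (norm_sub_le _ _).trans ?_
      rw [norm_fourier_apply, norm_fourier_apply]; norm_num
    have h3 : (1 : ℝ) ≤ y ^ δ := Real.one_le_rpow h hδ0.le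
    nlinarith

/-- the symbol is Hölder continuous -/
lemma holder_of_weight (c : W) {δ M : ℝ} (hδ0 : 0 < δ) (hδ1 : δ ≤ 1)
    (hs : Summable fun n : ℤ => (1 + |(n : ℝ)|) ^ δ * ‖c n‖)
    (hM : ∑' n : ℤ, (1 + |(n : ℝ)|) ^ δ * ‖c n‖ ≤ M) :
    HolderWith (2 * Real.pi * M).toNNReal δ.toNNReal (Ev c) := by
  have hM0 : 0 ≤ M := (tsum_nonneg fun n => by positivity).trans hM
  have hcoe : ((2 * Real.pi * M).toNNReal : ℝ) = 2 * Real.pi * M :=
    Real.coe_toNNReal _ (by positivity)
  have hδc : (δ.toNNReal : ℝ) = δ := Real.coe_toNNReal _ hδ0.le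
  intro s t
  rw [edist_nndist, edist_nndist]
  have key : dist (Ev c s) (Ev c t) ≤ 2 * Real.pi * M * dist s t ^ δ := by
    rw [dist_eq_norm, Ev_apply, Ev_apply, ev_apply, ev_apply]
    have hsum : Summable fun n : ℤ => ‖c n‖ := W.summable_norm c
    have hterm : ∀ u : UnitAddCircle, Summable fun n : ℤ => c n • (fourier n u : ℂ) := by
      intro u
      refine Summable.of_norm ?_
      have : (fun n : ℤ => ‖c n • (fourier n u : ℂ)‖) = fun n : ℤ => ‖c n‖ := by
        funext n
        rw [norm_smul, norm_fourier_apply, mul_one]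
      rw [this]; exact hsum
    have h1 := hterm s
    have h2 := hterm t
    rw [← h1.tsum_sub h2]
    have hb : ∀ n : ℤ, ‖c n • (fourier n s : ℂ) - c n • (fourier n t : ℂ)‖
        ≤ 2 * Real.pi * dist s t ^ δ * ((1 + |(n : ℝ)|) ^ δ * ‖c n‖) := by
      intro n
      rw [← smul_sub, norm_smul]
      have := fourier_holder n hδ0 hδ1 s t
      calc ‖c n‖ * ‖(fourier n s : ℂ) - fourier n t‖
          ≤ ‖c n‖ * (2 * Real.pi * ((1 + |(n : ℝ)|) ^ δ * dist s t ^ δ)) :=
            mul_le_mul_of_nonneg_left this (norm_nonneg _)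
        _ = _ := by ring
    have h3 := hs.mul_left (2 * Real.pi * dist s t ^ δ)
    refine (norm_tsum_le_tsum_norm (Summable.of_nonneg_of_le (fun n => norm_nonneg _) hb h3)).trans ?_
    refine ((Summable.of_nonneg_of_le (fun n => norm_nonneg _) hb h3).tsum_le_tsum hb h3).trans ?_
    rw [tsum_mul_left]
    have hd : 0 ≤ 2 * Real.pi * dist s t ^ δ := by positivity
    calc _ ≤ 2 * Real.pi * dist s t ^ δ * M := mul_le_mul_of_nonneg_left hM hd
      _ = _ := by ring
  rw [hδc, ← ENNReal.coe_rpow_of_nonneg _ hδ0.le, ← ENNReal.coe_mul, ENNReal.coe_le_coe,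
    ← NNReal.coe_le_coe]
  push_cast
  rw [hcoe]
  exact key

/-- from `WN` to an element of `W` -/
lemma exists_W (g : C(UnitAddCircle, ℂ)) (m : ℝ) (h : WN g m) :
    ∃ p : W, ‖p‖ ≤ m ∧ ∀ t, ev t p = g t := by
  refine ⟨mkW (fun n => fourierCoeff g n) h.1, ?_, fun t => ?_⟩
  · rw [norm_mkW]; exact h.2
  · rw [ev_apply]
    have h1 : Summable (fun n : ℤ => fourierCoeff g n) := h.1.of_norm
    have h2 := hasSum_fourier_series_of_summable (f := g) h1
    have h3 := h2.mapL (ContinuousMap.evalCLM ℂ t)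
    have h4 : HasSum (fun n : ℤ => fourierCoeff g n • (fourier n t : ℂ)) (g t) := by
      simpa using h3
    exact h4.tsum_eq

section WC

variable {X : Type} [NormedAddCommGroup X] [NormedSpace ℂ X] [CompleteSpace X]

theorem w_chain (hw : P_wlog) {S R : X →L[ℂ] X} (K : ℝ) (hK : ∀ n : ℤ, ‖U S R n‖ ≤ K)
    (h : R * S = 1) (hSR : S * R ≠ 1) (c : W) (hc : ∃ n : ℤ, n ≠ 0 ∧ c n ≠ 0) {δ : ℝ}
    (hδ0 : 0 < δ) (hδ1 : δ ≤ 1) (hs : Summable fun n : ℤ => (1 + |(n : ℝ)|) ^ δ * ‖c n‖) (q : ℝ)
    (hq : 1 < q) (hE : LogThin (Set.range fun t : UnitAddCircle => ev t c) q) :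
    InfiniteChain (top S R K hK c) := by
  by_contra hno
  set a : C(UnitAddCircle, ℂ) := Ev c with ha
  have hat : ∀ t, a t = ev t c := fun t => Ev_apply c t
  have hrange : Set.range a = Set.range fun t : UnitAddCircle => ev t c := by
    congr 1; funext t; exact hat t
  have hcoef : ∀ n, fourierCoeff a n = c n := fun n => coeff_Ev c n
  have hK0 : 0 ≤ K := (norm_nonneg _).trans (hK 0)
  set M : ℝ := ∑' n : ℤ, (1 + |(n : ℝ)|) ^ δ * ‖c n‖ with hM
  have hM0 : 0 ≤ M := tsum_nonneg fun n => by positivity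
  set T := top S R K hK c with hT
  -- the modulus
  have hδN : 0 < δ.toNNReal := Real.toNNReal_pos.2 hδ0
  obtain ⟨dl, hdl, hdlI⟩ := hoelder_modulus a _ _ hδN (holder_of_weight c hδ0 hδ1 hs le_rfl) q hq
    (by rw [hrange]; exact hE) (1 / 8) (by norm_num)
  obtain ⟨C, A, hC0, hA0, hWL⟩ := hw δ (M + 1) hδ0 hδ1 (by positivity)
  set r0 : ℝ := ‖a 0‖ + 1 with hr0
  have hr0' : 0 < r0 := by have := norm_nonneg (a 0); linarith
  set D := Metric.ball (0 : ℂ) r0 with hD
  have hDo : IsOpen D := Metric.isOpen_ball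
  -- winding numbers are zero
  have hzero : ∀ (z : ℂ) (g : C(UnitAddCircle, ℂ)) (k : ℤ) (d : ℝ), 0 < d → d ≤ 1 →
      (∀ t, d ≤ ‖a t - z‖) → (∀ t, a t - z = fourier k t * Complex.exp (g t)) → k = 0 := by
    intro z g k d hd hd1 hlow he
    by_contra hk
    apply hno
    -- `(a - z) e_{-k} = exp g` belongs to the weighted algebra
    set b : W := conv (c - z • del 0) (del (-k)) with hb
    have hevb : ∀ t, ev t b = fourier (-k) t * (a t - z) := by
      intro t
      rw [hb, ev_conv, map_sub, map_smul, ev_del, ev_del, fourier_zero, smul_eq_mul, mul_one, hat]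
      ring
    have hbn : ∀ n : ℤ, b n = (c - z • del 0) (n + k) := by
      intro n
      rw [← coeff_ev b n]
      have h1 : (fun t : UnitAddCircle => ev t b)
          = fun t => (fourier (-k) t : ℂ) • (ev t (c - z • del 0)) := by
        funext t
        rw [hevb, map_sub, map_smul, ev_del, fourier_zero, hat, smul_eq_mul, smul_eq_mul, mul_one]
      rw [h1, ← coeff_ev (c - z • del 0) (n + k)]
      unfold fourierCoeff
      congr 1
      funext t
      rw [smul_smul, ← fourier_add, neg_add]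
    have hbs : Summable fun n : ℤ => (1 + |(n : ℝ)|) ^ δ * ‖fourierCoeff (Ev b) n‖ := by
      have h1 : Summable fun n : ℤ => (1 + |(n : ℝ)|) ^ δ * ‖(c - z • del 0) n‖ := by
        have h2 : Summable fun n : ℤ => (1 + |(n : ℝ)|) ^ δ * ‖(z • del 0 : W) n‖ := by
          refine summable_of_ne_finset_zero (s := {0}) fun n hn => ?_
          rw [Finset.mem_singleton] at hn
          rw [lp.coeFn_smul, Pi.smul_apply, del_apply, if_neg hn, smul_zero, norm_zero, mul_zero]
        refine Summable.of_nonneg_of_le (fun n => by positivity) (fun n => ?_) (hs.add h2)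
        rw [← mul_add]
        refine mul_le_mul_of_nonneg_left ?_ (by positivity)
        rw [lp.coeFn_sub, Pi.sub_apply]
        exact norm_sub_le _ _
      have h3 : Summable fun n : ℤ => (1 + |((n + k : ℤ) : ℝ)|) ^ δ * ‖(c - z • del 0) (n + k)‖ :=
        (Equiv.addRight k).summable_iff.2 h1
      refine Summable.of_nonneg_of_le (fun n => by positivity) (fun n => ?_)
        (h3.mul_left ((1 + |(k : ℝ)|) ^ δ))
      rw [coeff_Ev, hbn, ← mul_assoc, ← Real.mul_rpow (by positivity) (by positivity)]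
      refine mul_le_mul_of_nonneg_right ?_ (norm_nonneg _)
      refine Real.rpow_le_rpow (by positivity) ?_ hδ0.le
      push_cast
      have h4 : |(n : ℝ)| ≤ |(n : ℝ) + k| + |(k : ℝ)| := by
        have : (n : ℝ) = (n + k) - k := by ring
        calc |(n : ℝ)| = |((n : ℝ) + k) - k| := by rw [← this]
          _ ≤ _ := abs_sub _ _
      nlinarith [abs_nonneg ((n : ℝ) + k), abs_nonneg (k : ℝ)]
    set Mb : ℝ := ∑' n : ℤ, (1 + |(n : ℝ)|) ^ δ * ‖fourierCoeff (Ev b) n‖ with hMb
    have hMb0 : 0 ≤ Mb := tsum_nonneg fun n => by positivity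
    obtain ⟨C2, A2, -, -, hWL2⟩ := hw δ (Mb + 1) hδ0 hδ1 (by positivity)
    have hexp : ∀ t, Ev b t - 0 = Complex.exp (g t) := by
      intro t
      rw [Ev_apply, hevb, he t, sub_zero, ← mul_assoc, ← fourier_add, neg_add_cancel,
        fourier_zero, one_mul]
    have hwn := hWL2 (Ev b) g 0 d hbs (by rw [← hMb]; linarith) hd hd1 (fun t => by
      rw [sub_zero, Ev_apply, hevb, norm_mul, norm_fourier_apply, one_mul]; exact hlow t) hexp
    obtain ⟨p, -, hp2⟩ := exists_W g _ hwn
    exact chain_of_ne K hK h hSR c p z k hk (fun t => by rw [← hat, he t, hp2])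
  -- the bound
  set c1 : ℝ := 6 + Real.posLog (‖a‖ + r0) with hc1
  have hc10 : 1 ≤ c1 := by
    have := Real.posLog_nonneg (x := ‖a‖ + r0)
    linarith
  set C3 : ℝ := K * C * (1 + c1) + 1 with hC3
  have hC31 : 1 ≤ C3 := by
    have : 0 ≤ K * C * (1 + c1) := by positivity
    linarith
  have hkey : ∀ᵐ z ∂(volume.restrict D), z ∉ spectrum ℂ T ∧
      Real.posLog (Real.posLog ‖resolvent T z‖)
        ≤ Real.log C3 + (A + 1) * Real.posLog (dl z)⁻¹ := by
    have hD2 : ∀ᵐ z ∂(volume.restrict D), z ∈ D := ae_restrict_mem hDo.measurableSet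
    filter_upwards [ae_restrict_of_ae hdl, hD2] with z hz hzD
    obtain ⟨z1, z2, z3, z4⟩ := hz
    obtain ⟨k, g, g1, g2⟩ := log_data a z z1 z2 (by norm_num) (by norm_num) z3 z4
    have hk : k = 0 := hzero z g k (dl z) z1 z2 z3 g1
    subst hk
    obtain ⟨-, g3⟩ := g2 rfl
    have hexp : ∀ t, a t - z = Complex.exp (g t) := fun t => by
      rw [g1 t, fourier_zero, one_mul]
    have hwn := hWL a g z (dl z) (by simp_rw [hcoef]; exact hs)
      (by simp_rw [hcoef]; rw [← hM]; linarith) z1 z2 z3 hexp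
    obtain ⟨p, hp1, hp2⟩ := exists_W g _ hwn
    obtain ⟨r1, r2⟩ := resolvent_of_zero K hK h c p z (fun t => by rw [← hat, hexp, hp2])
    refine ⟨r1, ?_⟩
    rw [hD, mem_ball_zero_iff] at hzD
    have hpl : Real.posLog (‖a‖ + ‖z‖) ≤ Real.posLog (‖a‖ + r0) :=
      Real.posLog_le_posLog (by positivity) (by linarith)
    have hinv : (1 : ℝ) ≤ (dl z)⁻¹ := (one_le_inv₀ z1).2 z2
    have hg : 1 + ‖g‖ ≤ (1 + c1) * (dl z)⁻¹ := by
      have h5 : ‖g‖ ≤ c1 * (dl z)⁻¹ := by
        refine g3.trans ?_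
        rw [div_eq_mul_inv]
        refine mul_le_mul_of_nonneg_right ?_ (by positivity)
        rw [hc1]; linarith
      nlinarith
    have hx : K * ‖p‖ ≤ C3 * (dl z)⁻¹ ^ (A + 1) := by
      calc K * ‖p‖ ≤ K * (C * (dl z) ^ (-A) * (1 + ‖g‖)) := mul_le_mul_of_nonneg_left hp1 hK0
        _ ≤ K * (C * (dl z) ^ (-A) * ((1 + c1) * (dl z)⁻¹)) := by gcongr
        _ = (K * C * (1 + c1)) * ((dl z)⁻¹ ^ A * (dl z)⁻¹) := by
            rw [Real.inv_rpow z1.le, Real.rpow_neg z1.le]; ring
        _ = (K * C * (1 + c1)) * (dl z)⁻¹ ^ (A + 1) := by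
            rw [Real.rpow_add (by positivity), Real.rpow_one]
        _ ≤ C3 * (dl z)⁻¹ ^ (A + 1) := by
            refine mul_le_mul_of_nonneg_right ?_ (by positivity)
            rw [hC3]; linarith
    have h6 : Real.posLog ‖resolvent T z‖ ≤ C3 * (dl z)⁻¹ ^ (A + 1) := by
      rw [Real.posLog, max_le_iff]
      refine ⟨by positivity, ?_⟩
      rcases eq_or_lt_of_le (norm_nonneg (resolvent T z)) with h0 | h0
      · rw [← h0, Real.log_zero]; positivity
      · rw [Real.log_le_iff_le_exp h0]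
        exact r2.trans (Real.exp_le_exp.2 hx)
    refine (Real.posLog_le_posLog Real.posLog_nonneg h6).trans ?_
    refine (Real.posLog_mul).trans ?_
    rw [posLog_rpow (by positivity) (by positivity), Real.posLog_eq_log
      (by rw [abs_of_pos (by linarith)]; exact hC31)]
  have hlC : 0 ≤ Real.log C3 := Real.log_nonneg hC31
  have hσ : volume (spectrum ℂ T ∩ D) = 0 := by
    have h1 : volume.restrict D (spectrum ℂ T) = 0 := by
      rw [← compl_compl (spectrum ℂ T)]
      rw [← mem_ae_iff]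
      filter_upwards [hkey] with z hz
      exact hz.1
    rwa [Measure.restrict_apply (spectrum.isClosed T).measurableSet] at h1
  have hI : IntegrableOn (fun z : ℂ => (Real.posLog (Real.posLog ‖resolvent T z‖)) ^ q) D := by
    have hmaj : Integrable (fun z : ℂ => (2 : ℝ) ^ (q - 1) * ((Real.log C3) ^ q
        + (A + 1) ^ q * (Real.posLog (dl z)⁻¹) ^ q)) (volume.restrict D) := by
      refine Integrable.const_mul ?_ _
      refine Integrable.add ?_ ((hdlI r0).const_mul _)
      have : IsFiniteMeasure (volume.restrict D) :=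
        ⟨by rw [Measure.restrict_apply_univ]; exact measure_ball_lt_top⟩
      exact integrable_const _
    refine hmaj.mono' ?_ ?_
    · have h1 : AEMeasurable (fun z : ℂ => ‖resolvent T z‖) (volume.restrict D) :=
        (Pool.Agent.H571.LL.aesm_resolvent T _).norm.aemeasurable
      have h2 : Measurable Real.posLog := Real.continuous_posLog.measurable
      exact ((h2.comp_aemeasurable (h2.comp_aemeasurable h1)).pow_const q).aestronglyMeasurable
    · filter_upwards [hkey] with z hz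
      have h0 : 0 ≤ Real.posLog (Real.posLog ‖resolvent T z‖) := Real.posLog_nonneg
      rw [Real.norm_of_nonneg (Real.rpow_nonneg h0 _)]
      refine (Real.rpow_le_rpow h0 hz.2 (by linarith)).trans ?_
      have h3 := Real.posLog_nonneg (x := (dl z)⁻¹)
      refine (add_rpow_le hlC (by positivity) hq.le).trans (le_of_eq ?_)
      rw [Real.mul_rpow (by positivity) h3]
  have hacc : ∀ ε : ℝ, 0 < ε → ∃ μ ∈ spectrum ℂ T, μ ≠ a 0 ∧ ‖μ - a 0‖ < ε := by
    intro r hr
    have hcon : IsPreconnected (Set.range fun t : UnitAddCircle => ev t c) :=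
      isPreconnected_range (continuous_ev c)
    have hnt : (Set.range fun t : UnitAddCircle => ev t c).Nontrivial := by
      by_contra hnt
      rw [Set.not_nontrivial_iff] at hnt
      obtain ⟨n, hn, hcn⟩ := hc
      have h1 : ∀ t, ev t c = ev t (ev 0 c • del 0) := by
        intro t
        rw [map_smul, ev_del, fourier_zero, smul_eq_mul, mul_one]
        exact hnt ⟨t, rfl⟩ ⟨0, rfl⟩
      have h2 := ev_inj h1
      apply hcn
      rw [h2, lp.coeFn_smul, Pi.smul_apply, del_apply, if_neg hn, smul_zero]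
    have hperf := hcon.preperfect_of_nontrivial hnt (ev 0 c) ⟨0, rfl⟩
    rw [accPt_iff_nhds] at hperf
    obtain ⟨y, ⟨hy1, t, rfl⟩, hy2⟩ := hperf (Metric.ball (ev 0 c) r) (Metric.ball_mem_nhds _ hr)
    refine ⟨ev t c, mem_spectrum K hK h hSR c t, by rw [hat]; exact hy2, ?_⟩
    rw [← dist_eq_norm, hat]
    exact hy1
  obtain ⟨V, hV1, hV2⟩ := infinite_chain T D hDo q hq hσ hI (a 0)
    (by rw [hD, mem_ball_zero_iff]; linarith) hacc
  exact hno ⟨V, hV1, Or.inr hV2⟩

end WC

end Pool.Agent.H933.LL
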